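import Pool.Agent.Shared.Sing.Rel

/-! Cap and cup products on singular chains, cocycles, shrinking of supports. -/

set_option linter.unusedSectionVars false

namespace Pool.Agent.Shared.Sing

open Finsupp Set

section lists

variable {R : Type} [CommRing R] {α β : Type*}

/-- Evaluate on the first `p + 1` entries, keep the entries from position `p` on. -/
noncomputable def capL (p : ℕ) (φ : Ch R α →ₗ[R] R) (l : List α) : Ch R α :=
  if p < l.length then φ (single (l.take (p + 1)) 1) • single (l.drop p) 1 else 0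

lemma capL_nil (p : ℕ) (φ : Ch R α →ₗ[R] R) : capL p φ [] = 0 := by simp [capL]

lemma capL_cons (p : ℕ) (φ : Ch R α →ₗ[R] R) (a : α) (l : List α) :
    capL (p + 1) φ (a :: l) = capL p (φ ∘ₗ cone a) l := by simp [capL]

lemma capL_zero (φ : Ch R α →ₗ[R] R) (a : α) (l : List α) :
    capL 0 φ (a :: l) = φ (single [a] 1) • single (a :: l) 1 := by simp [capL]

lemma capL_sub (p : ℕ) (φ ψ : Ch R α →ₗ[R] R) (l : List α) :
    capL p (φ - ψ) l = capL p φ l - capL p ψ l := by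
  unfold capL
  split_ifs
  · rw [LinearMap.sub_apply, sub_smul]
  · simp

lemma capL_add (p : ℕ) (φ ψ : Ch R α →ₗ[R] R) (l : List α) :
    capL p (φ + ψ) l = capL p φ l + capL p ψ l := by
  unfold capL
  split_ifs
  · rw [LinearMap.add_apply, add_smul]
  · simp

lemma capL_smul (p : ℕ) (r : R) (φ : Ch R α →ₗ[R] R) (l : List α) :
    capL p (r • φ) l = r • capL p φ l := by
  unfold capL
  split_ifs
  · rw [LinearMap.smul_apply, smul_eq_mul, mul_smul]
  · simp

lemma lc_capL_cone (p : ℕ) (φ : Ch R α →ₗ[R] R) (a : α) (c : Ch R α) :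
    lc (capL (p + 1) φ) (cone a c) = lc (capL p (φ ∘ₗ cone a)) c :=
  map_eq (F := lc (capL (p + 1) φ) ∘ₗ cone a) (fun l _ => by simp [capL_cons]) (mem_top c)

lemma lc_capL_zero (φ : Ch R α →ₗ[R] R) (a : α) (c : Ch R α) :
    lc (capL 0 φ) (cone a c) = φ (single [a] 1) • cone a c :=
  map_eq (F := lc (capL 0 φ) ∘ₗ cone a) (G := φ (single [a] 1) • cone a)
    (fun l _ => by simp [capL_zero]) (mem_top c)

theorem bd_capL (p : ℕ) (φ : Ch R α →ₗ[R] R) (l : List α) (h : p + 1 ≠ l.length) :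
    bd (capL p φ l) = (-1 : R) ^ p • (lc (capL p φ) (bdL R l) - capL (p + 1) (φ ∘ₗ bd) l) := by
  induction p generalizing φ l with
  | zero =>
    rcases l with _ | ⟨a, _ | ⟨b, l⟩⟩
    · simp [capL_nil, bdL]
    · simp at h
    · rw [bdL, map_sub, lc_capL_zero, capL_cons, capL_zero, capL_zero, map_smul, bd_single,
        linearCombination_single, one_smul, capL_zero, bdL]
      simp only [LinearMap.comp_apply, cone_single, bd_single, bdL, map_zero, sub_zero, map_sub,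
        pow_zero, one_smul, sub_smul, smul_sub]
      abel
  | succ p ih =>
    rcases l with _ | ⟨a, l⟩
    · simp [capL_nil, bdL]
    have e : (φ ∘ₗ cone a) ∘ₗ bd = φ - (φ ∘ₗ bd) ∘ₗ cone a := LinearMap.ext fun c => by
      simp only [LinearMap.comp_apply, LinearMap.sub_apply, ← map_sub]
      rw [eq_sub_of_add_eq' (bd_cone a c)]
    rw [capL_cons, ih _ _ (by simpa using h), e, capL_sub, bdL, map_sub, lc_capL_cone, capL_cons,
      linearCombination_single, one_smul, pow_succ, mul_smul, neg_one_smul]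
    congr 1
    abel

lemma lmap_capL (p : ℕ) (f : α → β) (ψ : Ch R β →ₗ[R] R) (l : List α) :
    lmap f (capL p (ψ ∘ₗ lmap f) l) = capL p ψ (l.map f) := by
  unfold capL
  rw [List.length_map]
  split_ifs
  · simp [List.map_take, List.map_drop, -smul_single]
  · simp

lemma capL_Lin {K : Set α} (p : ℕ) (φ : Ch R α →ₗ[R] R) {l : List α} (hl : ∀ x ∈ l, x ∈ K) :
    capL p φ l ∈ Lin R K (l.length - p) := by
  unfold capL
  split_ifs
  · exact Submodule.smul_mem _ _ (single_mem ⟨by simp, fun x hx => hl x (List.mem_of_mem_drop hx)⟩)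
  · exact zero_mem _

lemma capL_congr {K : Set α} {p : ℕ} {φ ψ : Ch R α →ₗ[R] R}
    (h : ∀ c ∈ Lin R K (p + 1), φ c = ψ c) {l : List α} (hl : ∀ x ∈ l, x ∈ K) :
    capL p φ l = capL p ψ l := by
  unfold capL
  split_ifs with h1
  · rw [h _ (single_mem ⟨by simp; omega, fun x hx => hl x (List.mem_of_mem_take hx)⟩)]
  · rfl

lemma capL_capL (p q : ℕ) (φ ψ : Ch R α →ₗ[R] R) (l : List α) :
    lc (capL q ψ) (capL p φ l) = capL (p + q) (ψ ∘ₗ lc (capL p φ)) l := by
  induction p generalizing φ l with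
  | zero =>
    rcases l with _ | ⟨a, l⟩
    · simp [capL_nil]
    · rw [capL_zero, map_smul, linearCombination_single, one_smul, ← capL_smul, zero_add]
      unfold capL
      split_ifs
      · simp [List.take_succ_cons, -smul_single]
      · rfl
  | succ p ih =>
    rcases l with _ | ⟨a, l⟩
    · simp [capL_nil]
    · rw [capL_cons, ih, Nat.add_right_comm, capL_cons]
      congr 1
      exact LinearMap.ext fun c => by simp [lc_capL_cone]

end lists

variable {Y Y' : Type*} [TopologicalSpace Y] [Nonempty Y] [TopologicalSpace Y'] [Nonempty Y']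
  {R : Type} [CommRing R]

/-- The sum of the coefficients. -/
noncomputable def eps : C R Y →ₗ[R] R := lc fun _ => 1

/-- The cap product with a cochain of degree `p`. -/
noncomputable def cap (p : ℕ) (φ : C R Y →ₗ[R] R) : C R Y →ₗ[R] C R Y :=
  lc fun s => real s.f (capL p (φ ∘ₗ real s.f) (std s.n))

/-- The cup product, the first factor having degree `p`. -/
noncomputable def cup (p : ℕ) (φ ψ : C R Y →ₗ[R] R) : C R Y →ₗ[R] R := ψ ∘ₗ cap p φ

/-- Cocycles of degree `k` on `A`. -/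
def Coc (A : Set Y) (k : ℕ) (φ : C R Y →ₗ[R] R) : Prop := ∀ c ∈ In R A (k + 2), φ (D c) = 0

/-- Cochains of degree `k` that are coboundaries on `A`. -/
def Dies (A : Set Y) (k : ℕ) (φ : C R Y →ₗ[R] R) : Prop :=
  ∃ θ : C R Y →ₗ[R] R, ∀ c ∈ In R A (k + 1), φ c = θ (D c)

variable {A U W : Set Y} {n p q k : ℕ} {c : C R Y} {φ ψ : C R Y →ₗ[R] R}

@[simp] lemma eps_single (s : Sx Y) (r : R) : eps (single s r) = r := by simp [eps]

lemma eps_map (g : Y → Y') (c : C R Y) : eps (map g c) = eps c :=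
  map_eq (F := eps ∘ₗ map g) (fun s _ => by simp) (mem_top c)

lemma cap_single (p : ℕ) (φ : C R Y →ₗ[R] R) (s : Sx Y) :
    cap p φ (single s 1) = real s.f (capL p (φ ∘ₗ real s.f) (std s.n)) := by simp [cap]

lemma capL_std (p : ℕ) (φ : Ch R V →ₗ[R] R) (n : ℕ) : capL p φ (std n) ∈ Lin R (Δ n) (n - p) := by
  simpa using capL_Lin p φ (std_mem (n := n))

lemma cap_real {E : Type*} [AddCommGroup E] [Module ℝ E] [TopologicalSpace E] [ContinuousAdd E]
    [ContinuousSMul ℝ E] {K : Set E} (hK : Convex ℝ K) {F : E → Y} (hF : ContinuousOn F K)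
    (p : ℕ) (φ : C R Y →ₗ[R] R) {c : Ch R E} (hc : c ∈ Lin R K n) :
    cap p φ (real F c) = real F (lc (capL p (φ ∘ₗ real F)) c) := by
  refine map_eq (F := cap p φ ∘ₗ real F) (G := real F ∘ₗ lc (capL p (φ ∘ₗ real F)))
    (fun l hl => ?_) hc
  have e := mk_f (cont_aff hK hF hl.2)
  simp only [LinearMap.comp_apply, real_single, cap_single, mk_n, linearCombination_single,
    one_smul]
  rw [real_congr (convex_Δ _) e (capL_std _ _ _), ← real_lmap,
    capL_congr (ψ := (φ ∘ₗ real F) ∘ₗ lmap (aff l)) (fun c hc => by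
      simp only [LinearMap.comp_apply]
      rw [real_congr (convex_Δ _) e hc, real_lmap]) std_mem, lmap_capL, map_aff_std]

lemma cap_In (p : ℕ) (φ : C R Y →ₗ[R] R) (hc : c ∈ In R A n) : cap p φ c ∈ In R A (n - p) := by
  refine map_mem (fun s hs => ?_) hc
  rw [cap_single, ← hs.1]
  exact real_In (convex_Δ _) s.cont hs.2 (capL_std _ _ _)

lemma cap_In' (φ : C R Y →ₗ[R] R) (hc : c ∈ In R A (p + k)) : cap p φ c ∈ In R A k := by
  simpa using cap_In p φ hc

lemma cap_congr (h : ∀ c ∈ In R A (p + 1), φ c = ψ c) (hc : c ∈ In R A n) :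
    cap p φ c = cap p ψ c := by
  refine map_eq (fun s hs => ?_) hc
  rw [cap_single, cap_single, capL_congr (φ := φ ∘ₗ real s.f) (ψ := ψ ∘ₗ real s.f)
    (fun c hc => h _ (real_In (convex_Δ _) s.cont hs.2 hc)) std_mem]

lemma cap_sub (p : ℕ) (φ ψ : C R Y →ₗ[R] R) (c : C R Y) :
    cap p (φ - ψ) c = cap p φ c - cap p ψ c :=
  map_eq (G := cap p φ - cap p ψ) (fun s _ => by
    simp only [cap_single, LinearMap.sub_apply, LinearMap.sub_comp, capL_sub, map_sub]) (mem_top c)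

lemma cap_add (p : ℕ) (φ ψ : C R Y →ₗ[R] R) (c : C R Y) :
    cap p (φ + ψ) c = cap p φ c + cap p ψ c :=
  map_eq (G := cap p φ + cap p ψ) (fun s _ => by
    simp only [cap_single, LinearMap.add_apply, LinearMap.add_comp, capL_add, map_add]) (mem_top c)

lemma cap_smul (p : ℕ) (r : R) (φ : C R Y →ₗ[R] R) (c : C R Y) :
    cap p (r • φ) c = r • cap p φ c :=
  map_eq (G := r • cap p φ) (fun s _ => by
    simp only [cap_single, LinearMap.smul_apply, LinearMap.smul_comp, capL_smul, map_smul])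
    (mem_top c)

lemma cap_zero (p : ℕ) (c : C R Y) : cap p 0 c = 0 := by simpa using cap_sub p 0 0 c

lemma cap_eq_zero (h : ∀ c ∈ In R A (p + 1), φ c = 0) (hc : c ∈ In R A n) : cap p φ c = 0 :=
  (cap_congr (ψ := 0) h hc).trans (cap_zero p c)

lemma cap_low (φ : C R Y →ₗ[R] R) (hc : c ∈ In R A n) (h : n ≤ p) : cap p φ c = 0 :=
  map_eq (G := 0) (fun s hs => by simp [cap_single, capL, hs.1, h.not_gt]) hc

lemma map_cap {g : Y → Y'} (hg : ContinuousOn g A) (p : ℕ) (φ : C R Y' →ₗ[R] R)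
    (hc : c ∈ In R A n) : map g (cap p (φ ∘ₗ map g) c) = cap p φ (map g c) := by
  refine map_eq (F := map g ∘ₗ cap p (φ ∘ₗ map g)) (G := cap p φ ∘ₗ map g) (fun s hs => ?_) hc
  have e := (mk_f (hg.comp s.cont hs.2)).symm
  simp only [LinearMap.comp_apply, map_single, cap_single, mk_n]
  rw [map_real (convex_Δ _) s.cont g (capL_std _ _ _), real_congr (convex_Δ _) e (capL_std _ _ _),
    capL_congr (fun c hc => ?_) std_mem]
  simp only [LinearMap.comp_apply]
  rw [map_real (convex_Δ _) s.cont g hc, real_congr (convex_Δ _) e hc]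

theorem D_cap (φ : C R Y →ₗ[R] R) (hc : c ∈ In R A n) (h : p + 1 ≠ n) :
    D (cap p φ c) = (-1 : R) ^ p • (cap p φ (D c) - cap (p + 1) (φ ∘ₗ D) c) := by
  refine map_eq (F := D ∘ₗ cap p φ) (G := (-1 : R) ^ p • (cap p φ ∘ₗ D - cap (p + 1) (φ ∘ₗ D)))
    (fun s hs => ?_) hc
  simp only [LinearMap.comp_apply, LinearMap.smul_apply, LinearMap.sub_apply, cap_single, D_single]
  rw [D_real (convex_Δ _) s.cont (capL_std _ _ _), bd_capL _ _ _ (by simpa [hs.1] using h),
    cap_real (convex_Δ _) s.cont _ _ (bdL_std _), map_smul, map_sub,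
    capL_congr (φ := (φ ∘ₗ D) ∘ₗ real s.f) (ψ := (φ ∘ₗ real s.f) ∘ₗ bd) (fun c hc => by
      simp only [LinearMap.comp_apply, D_real (convex_Δ _) s.cont hc]) std_mem]

theorem cap_cap (p q : ℕ) (φ ψ : C R Y →ₗ[R] R) (c : C R Y) :
    cap q ψ (cap p φ c) = cap (p + q) (cup p φ ψ) c := by
  refine map_eq (F := cap q ψ ∘ₗ cap p φ) (fun s _ => ?_) (mem_top c)
  simp only [LinearMap.comp_apply, cap_single]
  rw [cap_real (convex_Δ _) s.cont _ _ (capL_std _ _ _), capL_capL,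
    capL_congr (φ := cup p φ ψ ∘ₗ real s.f) (fun c hc => ?_) std_mem]
  simp only [LinearMap.comp_apply, cup, cap_real (convex_Δ _) s.cont _ _ hc]

lemma eps_cap (φ : C R Y →ₗ[R] R) (hc : c ∈ In R A (p + 1)) : eps (cap p φ c) = φ c := by
  refine map_eq (F := eps ∘ₗ cap p φ) (fun s hs => ?_) hc
  simp only [LinearMap.comp_apply, cap_single, capL, length_std, hs.1, Nat.lt_succ_self, if_true,
    map_smul, real_single, eps_single, smul_eq_mul, mul_one]
  rw [List.take_of_length_le (by simp), ← real_single, ← hs.1, real_std]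

lemma In_zero (hc : c ∈ In R A 0) : c ∈ In R U 0 :=
  fun s hs => ⟨(hc hs).1, by rw [(hc hs).1, Δ_zero]; exact mapsTo_empty _ _⟩

lemma mem_Z_zero (hc : c ∈ In R A 1) : c ∈ Z R A U 0 := ⟨hc, In_zero (D_In hc)⟩

lemma mem_Z (hc : c ∈ In R A (n + 1)) (h : D c = 0) : c ∈ Z R A U n :=
  ⟨hc, show D c ∈ In R U n from h ▸ zero_mem _⟩

lemma Z_D_eq (hc : c ∈ Z R A ∅ (n + 1)) : D c = 0 := In_empty (Z_D hc)

lemma mem_B_empty (hc : c ∈ B R A ∅ n) : ∃ w ∈ In R A (n + 2), D w = c := by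
  obtain ⟨w, hw, h⟩ := mem_B hc
  exact ⟨w, hw, (sub_eq_zero.1 (In_empty h)).symm⟩

lemma B_le_Z (h : U ⊆ A) : B R A U n ≤ Z R A U n := fun c hc => by
  obtain ⟨w, hw, hv⟩ := mem_B hc
  exact ⟨by simpa using add_mem (In_mono h _ hv) (D_In hw), by simpa using D_In hv⟩

lemma Coc.mono (h : Coc A k φ) (hU : U ⊆ A) : Coc U k φ := fun c hc => h c (In_mono hU _ hc)

lemma Coc.apply_B (h : Coc A k φ) (hc : c ∈ B R A ∅ k) : φ c = 0 := by
  obtain ⟨w, hw, rfl⟩ := mem_B_empty hc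
  exact h w hw

lemma Coc.sub (h : Coc A k φ) (h' : Coc A k ψ) : Coc A k (φ - ψ) := fun c hc => by
  rw [LinearMap.sub_apply, h c hc, h' c hc, sub_zero]

lemma Coc.comp_map {g : Y → Y'} {A' : Set Y'} {φ : C R Y' →ₗ[R] R} (h : Coc A' k φ)
    (hg : ContinuousOn g A) (hA : MapsTo g A A') : Coc A k (φ ∘ₗ map g) := fun c hc => by
  rw [LinearMap.comp_apply, map_D hg hc, h _ (map_In hg hA hc)]

lemma coc_eps : Coc A 0 (eps : C R Y →ₗ[R] R) := fun c hc =>
  map_eq (F := eps ∘ₗ D) (G := 0) (fun s hs => by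
    simp [D_single, hs.1, std, List.range_succ, bdL]) hc

lemma Coc.D_cap (h : Coc A p φ) (hc : c ∈ In R A n) (hn : p + 1 ≠ n) :
    D (cap p φ c) = (-1 : R) ^ p • cap p φ (D c) := by
  rw [Sing.D_cap φ hc hn, cap_eq_zero (φ := φ ∘ₗ D) h hc, sub_zero]

lemma Coc.cap_D (h : Coc A p φ) (hc : c ∈ In R A n) (hn : p + 1 ≠ n) :
    cap p φ (D c) = (-1 : R) ^ p • D (cap p φ c) := by
  rw [h.D_cap hc hn, smul_smul, ← mul_pow]
  simp

theorem cap_Z (h : Coc A p φ) (hc : c ∈ Z R A U (p + k)) : cap p φ c ∈ Z R A U k := by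
  have h1 : cap p φ c ∈ In R A (k + 1) := cap_In' φ hc.1
  rcases k with _ | k
  · exact mem_Z_zero h1
  · refine ⟨h1, show D (cap p φ c) ∈ In R U (k + 1) from ?_⟩
    rw [h.D_cap hc.1 (by omega)]
    exact Submodule.smul_mem _ _ (cap_In' φ (Z_D hc))

theorem cap_B (h : Coc A p φ) (hc : c ∈ B R A U (p + k)) : cap p φ c ∈ B R A U k := by
  obtain ⟨w, hw, hv⟩ := mem_B hc
  refine B_of (w := (-1 : R) ^ p • cap p φ w) (Submodule.smul_mem _ _ (cap_In' φ hw)) ?_
  rw [map_smul, ← h.cap_D hw (by omega), ← map_sub]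
  exact cap_In' φ hv

theorem Coc.cup (h : Coc A p φ) (h' : Coc A q ψ) : Coc A (p + q) (cup p φ ψ) := fun c hc => by
  rw [Sing.cup, LinearMap.comp_apply, h.cap_D hc (by omega), map_smul, h' _ (cap_In' φ hc),
    smul_zero]

lemma Dies.mono (h : Dies A k φ) (hU : U ⊆ A) : Dies U k φ :=
  h.imp fun _ h c hc => h c (In_mono hU _ hc)

lemma Dies.apply_Z (h : Dies A (k + 1) φ) (hc : c ∈ Z R A ∅ (k + 1)) : φ c = 0 := by
  obtain ⟨θ, h⟩ := h
  rw [h c hc.1, Z_D_eq hc, map_zero]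

lemma dies_of_zero (h : ∀ c ∈ In R A (k + 1), φ c = 0) : Dies A k φ := ⟨0, h⟩

/-- Capping a cycle with a coboundary gives a boundary. -/
theorem Dies.cap_B (h : Dies A (p + 1) φ) (hc : c ∈ Z R A ∅ (p + 1 + k)) :
    cap (p + 1) φ c ∈ B R A ∅ k := by
  obtain ⟨θ, h⟩ := h
  have h0 : D c = 0 := In_empty (n := p + k) (by simpa [Nat.add_right_comm] using Z_D hc)
  have h1 := D_cap (p := p) θ hc.1 (by omega)
  rw [h0, map_zero, zero_sub, ← cap_congr (φ := φ) (ψ := θ ∘ₗ D) h hc.1] at h1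
  have h2 : D (cap p θ c) ∈ B R A ∅ k :=
    D_mem_B (cap_In' θ (by simpa [add_assoc, add_comm, add_left_comm] using hc.1))
  have := Submodule.smul_mem _ ((-1 : R) ^ p) h2
  rw [h1, smul_smul, ← mul_pow] at this
  simpa using this

/-- Capping with a cocycle that dies on `A` moves a cycle of `A ∪ W` into `W`. -/
theorem cap_shrink (hA : IsOpen A) (hW : IsOpen W) (h : Coc (A ∪ W) (p + 1) φ)
    (hd : Dies A (p + 1) φ) (hc : c ∈ Z R (A ∪ W) ∅ (p + 1 + k)) :
    ∃ c' ∈ Z R W ∅ k, cap (p + 1) φ c - c' ∈ B R (A ∪ W) ∅ k := by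
  obtain ⟨θ, hd⟩ := hd
  obtain ⟨m, a, ha, hb⟩ := small_ex hA hW hc.1
  have h0 : D c = 0 := In_empty (n := p + k) (by simpa [Nat.add_right_comm] using Z_D hc)
  have h1 := D_cap (p := p) θ ha (by omega)
  rw [← cap_congr (φ := φ) (ψ := θ ∘ₗ D) hd ha] at h1
  have h2 : D (cap p θ a) ∈ B R (A ∪ W) ∅ k := B_mono subset_union_left le_rfl
    (D_mem_B (cap_In' θ (by simpa [add_assoc, add_comm, add_left_comm] using ha)))
  have h3 := Submodule.smul_mem _ ((-1 : R) ^ p) h2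
  rw [h1, smul_smul, ← mul_pow, neg_mul_neg, one_mul, one_pow, one_smul] at h3
  have h4 := cap_B h (sub_sd hc m)
  have h5 : cap (p + 1) φ c - (cap (p + 1) φ ((sd ^ m) c - a) + cap p θ (D a)) ∈
      B R (A ∪ W) ∅ k := by
    convert sub_mem h4 h3 using 1
    simp only [map_sub]
    abel
  have h6 : D a ∈ In R W (p + (k + 1)) := by
    simpa [D_sd, h0, add_assoc, add_comm, add_left_comm] using D_In hb
  refine ⟨_, ⟨add_mem (cap_In' φ hb) (cap_In' θ h6), ?_⟩, h5⟩
  simpa using (sub_mem (cap_Z h hc) (B_le_Z (empty_subset _) h5)).2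

section field

variable {F : Type} [Field F]

lemma exists_factor {M M' : Type*} [AddCommGroup M] [Module F M] [AddCommGroup M'] [Module F M']
    (d : M →ₗ[F] M') (S : Submodule F M) (a : M →ₗ[F] F) (h : ∀ z ∈ S, d z = 0 → a z = 0) :
    ∃ b : M' →ₗ[F] F, ∀ z ∈ S, a z = b (d z) := by
  have hk : LinearMap.ker (d ∘ₗ S.subtype) ≤ LinearMap.ker (a ∘ₗ S.subtype) :=
    fun z hz => h z z.2 hz
  obtain ⟨b, hb⟩ := LinearMap.exists_extend
    ((Submodule.liftQ _ _ hk) ∘ₗ (d ∘ₗ S.subtype).quotKerEquivRange.symm.toLinearMap)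
  refine ⟨b, fun z hz => ?_⟩
  have := LinearMap.congr_fun hb ⟨d z, ⟨⟨z, hz⟩, rfl⟩⟩
  simp only [LinearMap.comp_apply, Submodule.subtype_apply, LinearEquiv.coe_coe] at this
  rw [this]
  have e := LinearMap.quotKerEquivRange_symm_apply_image (d ∘ₗ S.subtype) ⟨z, hz⟩ ⟨⟨z, hz⟩, rfl⟩
  erw [e]
  rfl

theorem dies_of_kills {φ : C F Y →ₗ[F] F} (h : ∀ c ∈ Z F A ∅ k, φ c = 0) : Dies A k φ :=
  exists_factor (F := F) D (In F A (k + 1)) φ fun z hz h0 => h z (mem_Z hz h0)

/-- A chain that is not a relative boundary is detected by a relative cocycle. -/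
theorem exists_coc {c : C F Y} (h : c ∉ B F A U k) : ∃ φ : C F Y →ₗ[F] F,
    Coc A k φ ∧ (∀ v ∈ In F U (k + 1), φ v = 0) ∧ φ c = 1 := by
  obtain ⟨a, h1, h2⟩ := (B F A U k).exists_le_ker_of_notMem h
  refine ⟨(a c)⁻¹ • a, fun w hw => ?_, fun v hv => ?_, ?_⟩
  · rw [LinearMap.smul_apply, h2 (D_mem_B hw), smul_zero]
  · rw [LinearMap.smul_apply, h2 (In_mem_B hv), smul_zero]
  · rw [LinearMap.smul_apply, smul_eq_mul, inv_mul_cancel₀ h1]

end field

end Pool.Agent.Shared.Sing
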