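import Pool.Agent.Shared.Sing.Fund
import Pool.Agent.Shared.Sing.Cup

/-! Local homology of manifolds over a field, homotopies of pairs, relative Mayer-Vietoris. -/

set_option linter.unusedSectionVars false

namespace Pool.Agent.Shared.Sing

open Finsupp Set Topology

variable {Y Y' : Type*} [TopologicalSpace Y] [Nonempty Y] [TopologicalSpace Y'] [Nonempty Y']
  {R : Type} [CommRing R] {O O' U W : Set Y} {n k : ℕ} {c : C R Y}

theorem htpy_B {H : Y × ℝ → Y'} {A A' : Set Y'} (hH : ContinuousOn H (O ×ˢ Icc 0 1)) (hU : U ⊆ O)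
    (h1 : MapsTo H (O ×ˢ Icc 0 1) A) (h2 : MapsTo H (U ×ˢ Icc 0 1) A') (hc : c ∈ Z R O U n) :
    map (fun y => H (y, 1)) c - map (fun y => H (y, 0)) c ∈ B R A A' n := by
  rw [← D_P hH hc.1]
  exact add_mem (D_mem_B (P_In hH h1 hc.1))
    (In_mem_B (P_In (hH.mono (prod_mono_left hU)) h2 (Z_D hc)))

theorem exc_surj' (hO : IsOpen O) (hU : IsOpen U) (hc : c ∈ Z R (O ∪ U) U n) :
    ∃ c' ∈ Z R O (O ∩ U) n, c - c' ∈ B R (O ∪ U) U n := by
  obtain ⟨m, a, ha, hb⟩ := small_ex hO hU hc.1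
  refine ⟨a, ⟨ha, In_inter (D_In ha) ?_⟩, ?_⟩
  · simpa [D_sd] using sub_mem (sd_In (Z_D hc) m) (D_In hb)
  · simpa using add_mem (sub_sd hc m) (In_mem_B hb)

theorem exc_inj' (hO : IsOpen O) (hU : IsOpen U) (hc : c ∈ Z R O (O ∩ U) n)
    (hB : c ∈ B R (O ∪ U) U n) : c ∈ B R O (O ∩ U) n := by
  obtain ⟨w, hw, hv⟩ := mem_B hB
  obtain ⟨m, a, ha, hb⟩ := small_ex hO hU hw
  refine (congr_B (sub_sd hc m)).2 (B_of ha (In_inter (sub_mem (sd_In hc.1 m) (D_In ha)) ?_))
  simpa [D_sd] using add_mem (sd_In hv m) (D_In hb)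

section mv

variable (hO : IsOpen O) (hO' : IsOpen O') (hW : IsOpen W)
include hO hO' hW

lemma small_pair {j : ℕ} {v : C R Y} (hc : c ∈ In R (O ∪ O') k) (hv : v ∈ In R ((O ∪ O') ∩ W) j) :
    ∃ m, ∃ a ∈ In R O k, ∃ x ∈ In R (O ∩ W) j,
      (sd ^ m) c - a ∈ In R O' k ∧ (sd ^ m) v - x ∈ In R (O' ∩ W) j := by
  rw [union_inter_distrib_right] at hv
  obtain ⟨m, h1, h2⟩ := ((small₂ hO hO' hc).and (small₂ (hO.inter hW) (hO'.inter hW) hv)).exists
  obtain ⟨a, ha, b, hb, h⟩ := Submodule.mem_sup.1 h1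
  obtain ⟨x, hx, y, hy, h'⟩ := Submodule.mem_sup.1 h2
  exact ⟨m, a, ha, x, hx, by simpa [← h] using hb, by simpa [← h'] using hy⟩

theorem mv_surj (h : ∀ j, j + 1 = k → Z R (O ∩ O') (O ∩ O' ∩ W) j ≤ B R (O ∩ O') (O ∩ O' ∩ W) j)
    (hc : c ∈ Z R (O ∪ O') ((O ∪ O') ∩ W) k) : ∃ a ∈ Z R O (O ∩ W) k, ∃ b ∈ Z R O' (O' ∩ W) k,
      c - (a + b) ∈ B R (O ∪ O') ((O ∪ O') ∩ W) k := by
  obtain ⟨m, a, ha, x, hx, hb, hy⟩ := small_pair hO hO' hW hc.1 (Z_D hc)
  rcases k with _ | k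
  · exact ⟨a, mem_Z_zero ha, _, mem_Z_zero hb, by simpa using sub_sd hc m⟩
  have h1 : D a - x ∈ In R (O ∩ O') (k + 1) := by
    refine In_inter (sub_mem (D_In ha) (In_mono inter_subset_left _ hx)) ?_
    simpa [D_sd] using sub_mem (In_mono inter_subset_left _ hy) (D_In hb)
  obtain ⟨w, hw, hv⟩ := mem_B (h k rfl ⟨h1, In_inter (D_In h1)
    (by simpa using D_In (In_mono inter_subset_right _ hx))⟩)
  refine ⟨a - w, ⟨sub_mem ha (In_mono inter_subset_left _ hw), ?_⟩, (sd ^ m) c - a + w,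
    ⟨add_mem hb (In_mono inter_subset_right _ hw), ?_⟩, by simpa using sub_sd hc m⟩
  · have := add_mem hx (In_mono (inter_subset_inter_left _ inter_subset_left) _ hv)
    refine show D (a - w) ∈ In R (O ∩ W) (k + 1) from ?_
    convert this using 1
    rw [map_sub]
    abel
  · have := sub_mem hy (In_mono (inter_subset_inter_left _ inter_subset_right) _ hv)
    refine show D ((sd ^ m) c - a + w) ∈ In R (O' ∩ W) (k + 1) from ?_
    convert this using 1
    rw [map_add, map_sub, D_sd]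
    abel

theorem mv_mid {a b : C R Y} (ha : a ∈ Z R O (O ∩ W) k) (hb : b ∈ Z R O' (O' ∩ W) k)
    (h : a + b ∈ B R (O ∪ O') ((O ∪ O') ∩ W) k) : ∃ q ∈ Z R (O ∩ O') (O ∩ O' ∩ W) k,
      a - q ∈ B R O (O ∩ W) k ∧ b + q ∈ B R O' (O' ∩ W) k := by
  obtain ⟨w, hw, hv⟩ := mem_B h
  obtain ⟨m, w1, h1, v1, h2, h3, h4⟩ := small_pair hO hO' hW hw hv
  have e : (sd ^ m) a - D w1 - v1 =
      D ((sd ^ m) w - w1) + ((sd ^ m) (a + b - D w) - v1) - (sd ^ m) b := by
    simp only [map_sub, map_add, D_sd]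
    abel
  have h5 : (sd ^ m) a - D w1 - v1 ∈ In R (O ∩ O') (k + 1) := In_inter (sub_mem (sub_mem
    (sd_In ha.1 m) (D_In h1)) (In_mono inter_subset_left _ h2)) (e ▸ sub_mem (add_mem (D_In h3)
      (In_mono inter_subset_left _ h4)) (sd_In hb.1 m))
  refine ⟨_, ⟨h5, In_inter (D_In h5) (In_mono inter_subset_right _ (A := O ∩ W) ?_)⟩, ?_, ?_⟩
  · simpa [D_sd] using sub_mem (sd_In (Z_D ha) m) (D_In h2)
  · convert add_mem (sub_sd ha m) (add_mem (D_mem_B h1) (In_mem_B h2)) using 1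
    abel
  · convert add_mem (sub_sd hb m) (add_mem (D_mem_B h3) (In_mem_B h4)) using 1
    rw [e]
    abel

end mv

variable {ι : Type*} [Fintype ι]

lemma compl_ind (Q : Set (ι → ℝ) → ℕ → Prop) (h0 : Q ∅ 0)
    (hs : ∀ U U' m h h', IsOpen U → IsOpen U' → Contr R U h → Contr R U' h' → Q (U ∩ U') m →
      Q (U ∪ U') (m + 1)) (x : ι → ℝ) : Q {x}ᶜ (Fintype.card ι) := by
  classical
  have key : ∀ J : Finset ι, Q {y : ι → ℝ | ∃ i ∈ J, y i ≠ x i} J.card := by
    intro J
    induction J using Finset.induction_on with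
    | empty => simpa using h0
    | insert j J hj ih =>
      let U : ℝ → Set (ι → ℝ) := fun ε => {y | (∃ i ∈ J, y i ≠ x i) ∨ 0 < ε * (y j - x j)}
      have h1 : ∀ ε, IsOpen (U ε) := fun ε => by
        simp only [U, ofPred_or, ofPred_exists, ← exists_prop]
        exact (isOpen_iUnion fun i => isOpen_iUnion fun _ => isOpen_ne_fun (by fun_prop)
          (by fun_prop)).union (isOpen_lt (by fun_prop) (by fun_prop))
      have h2 : ∀ ε, ε ≠ 0 → ∃ h, Contr R (U ε) h := fun ε hε => by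
        refine contr_star (p := x + Pi.single j ε) (Or.inr (by simpa using hε))
          fun y hy a b ha hb hab => ?_
        obtain rfl : a = 1 - b := by linarith
        rcases hb.eq_or_lt with rfl | hb
        · exact Or.inr (by simpa using hε)
        rcases hy with ⟨i, hi, h⟩ | h
        · refine Or.inl ⟨i, hi, fun h' => h ?_⟩
          have : i ≠ j := fun h => hj (h ▸ hi)
          simp only [Pi.add_apply, Pi.smul_apply, Pi.single_eq_of_ne this, smul_eq_mul] at h'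
          exact mul_left_cancel₀ hb.ne' (by linarith)
        · right
          simp only [Pi.add_apply, Pi.smul_apply, Pi.single_eq_same, smul_eq_mul]
          nlinarith [mul_pos hb h, mul_nonneg ha (mul_self_nonneg ε)]
      obtain ⟨h, H⟩ := h2 1 one_ne_zero
      obtain ⟨h', H'⟩ := h2 (-1) (by simp)
      have := hs _ _ J.card h h' (h1 1) (h1 (-1)) H H' (by
        convert ih using 1
        ext y
        exact ⟨fun h => h.1.elim id fun h1 => h.2.elim id fun h2 => by linarith,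
          fun h => ⟨Or.inl h, Or.inl h⟩⟩)
      rw [Finset.card_insert_of_notMem hj]
      convert this using 1
      ext y
      simp only [U, mem_union, mem_ofPred_eq, Finset.mem_insert, exists_eq_or_imp]
      refine ⟨fun h => h.elim (fun h => (lt_or_gt_of_ne h).elim (fun h => Or.inr (Or.inr
        (by linarith))) fun h => Or.inl (Or.inr (by linarith))) fun h => Or.inl (Or.inl h),
        fun h => h.elim (fun h => h.elim Or.inr fun h => Or.inl fun h' => by simp [h'] at h)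
          fun h => h.elim Or.inr fun h => Or.inl fun h' => by simp [h'] at h⟩
  convert key Finset.univ using 1
  · ext y
    simp [funext_iff]
  · rfl

lemma loc_low_euc (x : ι → ℝ) (hn : n < Fintype.card ι) :
    Z R univ {x}ᶜ n ≤ B R univ {x}ᶜ n := fun c hc => by
  obtain ⟨h, H⟩ := contr_star (R := R) (mem_univ x) (starConvex_univ x)
  have key := compl_ind (R := R) (fun U m => ∀ n < m, Span R U n 0) (by simp)
    (fun U U' m h h' hU hU' H H' ih n hn => by
      rcases n with _ | n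
      · exact ⟨zero_mem _, map_zero _, fun c hc h0 => ⟨0, by
          rw [zero_smul, sub_zero]
          exact Submodule.map_mono (In_mono subset_union_left _) (H.bd (In_zero hc) h0)⟩⟩
      · simpa using span_step hU hU' H H' (ih n (by omega))) x n hn
  obtain ⟨r, v, hv, h3⟩ := key.2.2 _ (Z_D hc) (D_D c)
  have := H.bd (sub_mem hc.1 (In_univ hv)) (by simp [h3])
  simpa [B] using add_mem (Submodule.mem_sup_left this) (In_mem_B hv)

variable [T2Space Y] (hY : LocEuc ι Y)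
include hY

lemma exists_chart_univ (x : Y) :
    ∃ φ : OpenPartialHomeomorph Y (ι → ℝ), x ∈ φ.source ∧ φ.target = univ := by
  obtain ⟨φ, hx⟩ := hY x
  obtain ⟨r, hr, h⟩ := Metric.isOpen_iff.1 φ.open_target _ (φ.map_source hx)
  refine ⟨φ.trans (OpenPartialHomeomorph.univBall (φ x) r).symm, ⟨hx, ?_⟩, ?_⟩
  · simp [OpenPartialHomeomorph.univBall_target _ hr, hr]
  · refine eq_univ_of_forall fun y => ⟨by simp, h ?_⟩
    rw [← OpenPartialHomeomorph.univBall_target _ hr]
    exact (OpenPartialHomeomorph.univBall (φ x) r).map_source (by simp)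

lemma exists_in_chart {x : Y} (hc : c ∈ Z R univ {x}ᶜ n) :
    ∃ φ : OpenPartialHomeomorph Y (ι → ℝ), x ∈ φ.source ∧ ∃ a ∈ Z R φ.source (φ.source ∩ {x}ᶜ) n,
      c - a ∈ B R univ {x}ᶜ n ∧ map φ a ∈ Z R univ {φ x}ᶜ n := by
  obtain ⟨φ, hs⟩ := hY x
  obtain ⟨a, ha, h3⟩ := exc_surj φ.open_source isOpen_compl_singleton
    (by simpa [← compl_subset_iff_union]) hc
  exact ⟨φ, hs, a, ha, h3, image_singleton ▸ Z_mono (subset_univ _) inter_subset_right
    (chart_Z φ (singleton_subset_iff.2 hs) ha)⟩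

theorem loc_low (x : Y) (hn : n < Fintype.card ι) : Z R univ {x}ᶜ n ≤ B R univ {x}ᶜ n :=
  fun c hc => by
  obtain ⟨φ, hs, a, ha, h3, h4⟩ := exists_in_chart hY hc
  exact (congr_B h3).2 ((chart_pt φ (mem_singleton x) hs ha).2 (loc_low_euc _ hn h4))

theorem loc_const {x : Y} (hc : c ∈ Z R univ {x}ᶜ n) :
    ∀ᶠ y in 𝓝 x, (c ∈ B R univ {y}ᶜ n ↔ c ∈ B R univ {x}ᶜ n) := by
  obtain ⟨φ, hx⟩ := hY x
  obtain ⟨L, hL, hLx, h2⟩ := exists_compact (Z_D hc)
  have h0 := φ.image_mem_nhds hx (Filter.inter_mem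
    (hL.isClosed.isOpen_compl.mem_nhds fun h => hLx h rfl) (φ.open_source.mem_nhds hx))
  obtain ⟨ε, hε, h3⟩ := Metric.nhds_basis_closedBall.mem_iff.1 h0
  let K := φ.source ∩ φ ⁻¹' Metric.closedBall (φ x) ε
  have h4 : Metric.closedBall (φ x) ε ⊆ φ.target := fun y hy => by
    obtain ⟨z, hz, rfl⟩ := h3 hy
    exact φ.map_source hz.2
  have h5 : φ '' K = Metric.closedBall (φ x) ε := by
    rw [φ.image_source_inter_eq']
    exact subset_antisymm (fun y hy => by simpa [φ.right_inv hy.1] using hy.2) fun y hy =>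
      ⟨h4 hy, by simpa [φ.right_inv (h4 hy)] using hy⟩
  have h6 : IsClosed K := by
    rw [show K = _ from (φ.symm_image_eq_source_inter_preimage h4).symm]
    exact ((isCompact_closedBall _ _).image_of_continuousOn (φ.continuousOn_symm.mono h4)).isClosed
  have h7 : c ∈ Z R univ Kᶜ n := ⟨hc.1, In_mono (fun y hy hK => by
    obtain ⟨z, hz, e⟩ := h3 hK.2
    exact hz.1 (φ.injOn hz.2 hK.1 e ▸ hy)) _ h2⟩
  obtain ⟨a, ha, h8⟩ := exc_surj φ.open_source h6.isOpen_compl
    (by rw [← compl_subset_iff_union, compl_subset_compl]; exact inter_subset_left) h7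
  have h9 := Z_mono (subset_univ _) inter_subset_right (chart_Z φ inter_subset_left ha)
  rw [h5] at h9
  have key : ∀ y ∈ K, (c ∈ B R univ {y}ᶜ n ↔
      map φ a ∈ B R univ (Metric.closedBall (φ x) ε)ᶜ n) := fun y hy =>
    (congr_B (B_anti (singleton_subset_iff.2 hy) h8)).trans ((chart_pt φ hy hy.1 ha).trans
      ⟨conv_null (convex_closedBall _ _) Metric.isBounded_closedBall hy.2 h9,
        fun h => B_anti (singleton_subset_iff.2 (show φ y ∈ Metric.closedBall (φ x) ε from hy.2)) h⟩)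
  filter_upwards [Filter.inter_mem (φ.open_source.mem_nhds hx) ((φ.continuousAt hx).preimage_mem_nhds
    (Metric.closedBall_mem_nhds _ hε))] with y hy
  exact (key y hy).trans (key x ⟨hx, Metric.mem_closedBall_self hε.le⟩).symm

theorem null_iff {K : Set Y} (hK : IsPreconnected K) (hc : c ∈ Z R univ Kᶜ n) {x y : Y}
    (hx : x ∈ K) (hy : y ∈ K) : c ∈ B R univ {x}ᶜ n ↔ c ∈ B R univ {y}ᶜ n :=
  hK.induction₂ (fun x y => (c ∈ B R univ {x}ᶜ n ↔ c ∈ B R univ {y}ᶜ n))
    (fun _ hx => mem_nhdsWithin_of_mem_nhds ((loc_const hY (Z_anti (singleton_subset_iff.2 hx)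
      hc)).mono fun _ h => h.symm)) (fun _ _ _ _ _ _ => Iff.trans) (fun _ _ _ _ => Iff.symm) hx hy

/-- A top cycle of a closed connected manifold that does not bound is nonzero at every point. -/
theorem fund_of_cycle [CompactSpace Y] [PreconnectedSpace Y]
    (hc : c ∈ Z R univ ∅ (Fintype.card ι)) (h : c ∉ B R univ ∅ (Fintype.card ι)) (x : Y) :
    c ∉ B R univ {x}ᶜ (Fintype.card ι) := fun hx => by
  rw [← compl_univ] at hc h
  exact h ((good_mfd hY isCompact_univ).2 c hc fun y _ =>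
    (null_iff hY isPreconnected_univ hc trivial trivial).1 hx)

/-- Over a field a nonzero local class is a generator. -/
theorem loc_gen {F : Type} [Field F] {x : Y} {c c' : C F Y}
    (hc : c ∈ Z F univ {x}ᶜ (Fintype.card ι)) (h : c ∉ B F univ {x}ᶜ (Fintype.card ι))
    (hc' : c' ∈ Z F univ {x}ᶜ (Fintype.card ι)) :
    ∃ r : F, c' - r • c ∈ B F univ {x}ᶜ (Fintype.card ι) := by
  obtain ⟨φ, hs⟩ := hY x
  obtain ⟨z, -, -, hz⟩ := (loc_euc (R := F) (φ x)).2
  have key : ∀ c ∈ Z F univ {x}ᶜ (Fintype.card ι), ∃ a ∈ Z F φ.source (φ.source ∩ {x}ᶜ)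
      (Fintype.card ι), c - a ∈ B F univ {x}ᶜ (Fintype.card ι) ∧
        ∃ r : F, map φ a - r • z ∈ B F univ {φ x}ᶜ (Fintype.card ι) := fun c hc => by
    obtain ⟨a, ha, h3⟩ := exc_surj φ.open_source isOpen_compl_singleton
      (by simpa [← compl_subset_iff_union]) hc
    exact ⟨a, ha, h3, hz _ (image_singleton ▸ Z_mono (subset_univ _) inter_subset_right
      (chart_Z φ (singleton_subset_iff.2 hs) ha))⟩
  obtain ⟨a, a1, a2, r, a3⟩ := key c hc
  obtain ⟨b, b1, b2, s, b3⟩ := key c' hc'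
  have hr : r ≠ 0 := fun h0 => h ((congr_B a2).2 ((chart_pt φ (mem_singleton x) hs a1).2
    (by simpa [h0] using a3)))
  refine ⟨s / r, ?_⟩
  have := (chart_pt φ (mem_singleton x) hs (sub_mem b1 (Submodule.smul_mem _ (s / r) a1))).2 (by
    convert sub_mem b3 (Submodule.smul_mem _ (s / r) a3) using 1
    rw [map_sub, map_smul, smul_sub, smul_smul, div_mul_cancel₀ _ hr]
    abel)
  convert add_mem (sub_mem b2 (Submodule.smul_mem _ (s / r) a2)) this using 1
  rw [smul_sub]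
  abel

end Pool.Agent.Shared.Sing
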