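import Pool.Agent.Shared.Sing.Defs

/-! Basic facts on singular chains. -/

set_option maxSynthPendingDepth 3

namespace Pool.Agent.Sing

instance stdCompact (n : ℕ) : CompactSpace (Std n) :=
  inferInstanceAs (CompactSpace (stdSimplex ℝ (Fin (n + 1))))

instance stdNonempty (n : ℕ) : Nonempty (Std n) :=
  inferInstanceAs (Nonempty (stdSimplex ℝ (Fin (n + 1))))

lemma vmap_comp {p n m : ℕ} (g : Fin (n + 1) → Fin (m + 1)) (f : Fin (p + 1) → Fin (n + 1)) :
    (vmap g).comp (vmap f) = vmap (g ∘ f) := by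
  ext1 x
  exact stdSimplex.map_comp_apply f g x

lemma vmap_id {n : ℕ} : vmap (id : Fin (n + 1) → Fin (n + 1)) = ContinuousMap.id _ := by
  ext1 x
  exact stdSimplex.map_id_apply x

lemma vmap_vertex {p n : ℕ} (f : Fin (p + 1) → Fin (n + 1)) (i : Fin (p + 1)) :
    vmap f (stdSimplex.vertex i) = stdSimplex.vertex (f i) :=
  stdSimplex.map_vertex f i

lemma val_succAbove {n : ℕ} (i : Fin (n + 1)) (k : Fin n) :
    (i.succAbove k : ℕ) = if (k : ℕ) < i then (k : ℕ) else k + 1 := by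
  unfold Fin.succAbove
  split_ifs with h1 h2 h2
  · rfl
  · exact absurd h1 h2
  · exact absurd h2 h1
  · rfl

/-- The simplicial identity behind `∂∂ = 0`. -/
lemma sum_succAbove_succAbove {R M : Type*} [CommRing R] [AddCommGroup M] [Module R M] {n : ℕ}
    (F : (Fin n → Fin (n + 2)) → M) :
    ∑ i : Fin (n + 2), ∑ j : Fin (n + 1),
      ((-1 : R) ^ (j : ℕ) * (-1) ^ (i : ℕ)) • F (i.succAbove ∘ j.succAbove) = 0 := by
  classical
  rw [← Finset.sum_product']
  refine Finset.sum_involution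
    (fun x _ => if h : (x.2 : ℕ) < x.1 then (⟨x.2, by omega⟩, ⟨x.1 - 1, by omega⟩)
      else (⟨x.2 + 1, by omega⟩, ⟨x.1, by omega⟩)) ?_ ?_ (fun _ _ => by simp) ?_
  · rintro ⟨i, j⟩ -
    dsimp only
    split_ifs with h
    · have e : ((⟨j, by omega⟩ : Fin (n + 2)).succAbove ∘
          (⟨i - 1, by omega⟩ : Fin (n + 1)).succAbove) = i.succAbove ∘ j.succAbove := by
        funext k
        apply Fin.ext
        simp only [Function.comp, val_succAbove]
        split_ifs <;> omega
      rw [e, ← add_smul]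
      obtain ⟨i, hi⟩ := i
      obtain ⟨i, rfl⟩ : ∃ i', i = i' + 1 := ⟨i - 1, by simp at h; omega⟩
      simp only [Nat.add_sub_cancel, pow_succ]
      rw [show (-1 : R) ^ (j : ℕ) * ((-1) ^ i * -1) + (-1) ^ i * (-1) ^ (j : ℕ) = 0 by ring,
        zero_smul]
    · have e : ((⟨j + 1, by omega⟩ : Fin (n + 2)).succAbove ∘
          (⟨i, by omega⟩ : Fin (n + 1)).succAbove) = i.succAbove ∘ j.succAbove := by
        funext k
        apply Fin.ext
        simp only [Function.comp, val_succAbove]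
        split_ifs <;> omega
      rw [e, ← add_smul]
      simp only [pow_succ]
      rw [show (-1 : R) ^ (j : ℕ) * (-1) ^ (i : ℕ) + (-1) ^ (i : ℕ) * ((-1) ^ (j : ℕ) * -1) = 0 by
        ring, zero_smul]
  · rintro ⟨i, j⟩ - -
    dsimp only
    split_ifs with h
    · intro e
      have := congrArg (fun x => (x.1 : ℕ)) e
      simp at this
      omega
    · intro e
      have := congrArg (fun x => (x.1 : ℕ)) e
      simp at this
      omega
  · rintro ⟨i, j⟩ -
    dsimp only
    by_cases h : (j : ℕ) < i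
    · rw [dif_pos h, dif_neg (by simp; omega)]
      ext <;> simp
      omega
    · rw [dif_neg h, dif_pos (by simp; omega)]
      ext <;> simp

variable {R : Type} [CommRing R] {X Y Z : Type} [TopologicalSpace X] [TopologicalSpace Y]
  [TopologicalSpace Z]

/-- Linear maps on chains are determined by their values on simplices. -/
lemma ch_ext {M : Type*} [AddCommGroup M] [Module R M] {n : ℕ} {f g : Ch R X n →ₗ[R] M}
    (h : ∀ σ, f (Finsupp.single σ 1) = g (Finsupp.single σ 1)) : f = g :=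
  Finsupp.lhom_ext' fun σ => LinearMap.ext_ring (h σ)

lemma lift_single {α M : Type*} [AddCommGroup M] [Module R M] (F : α → M) (σ : α) (r : R) :
    Finsupp.lift M R α F (Finsupp.single σ r) = r • F σ := by
  simp [Finsupp.lift_apply]

lemma bd_single {n : ℕ} (σ : C(Std (n + 1), X)) (r : R) :
    bd R X n (Finsupp.single σ r) = ∑ i : Fin (n + 2),
      ((-1 : R) ^ (i : ℕ)) • Finsupp.single (σ.comp (vmap i.succAbove)) r := by
  rw [bd, Finsupp.linearCombination_single, Finset.smul_sum]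
  refine Finset.sum_congr rfl fun i _ => ?_
  rw [Finsupp.smul_single, Finsupp.smul_single, smul_eq_mul, smul_eq_mul, mul_comm]

lemma bd_bd {n : ℕ} (c : Ch R X (n + 2)) : bd R X n (bd R X (n + 1) c) = 0 := by
  have : (bd R X n).comp (bd R X (n + 1)) = 0 := by
    refine ch_ext fun σ => ?_
    simp only [LinearMap.comp_apply, bd_single, map_sum, map_smul, LinearMap.zero_apply,
      Finset.smul_sum, smul_smul, ContinuousMap.comp_assoc, vmap_comp]
    rw [← sum_succAbove_succAbove (R := R) fun f => Finsupp.single (σ.comp (vmap f)) (1 : R)]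
    refine Finset.sum_congr rfl fun i _ => Finset.sum_congr rfl fun j _ => ?_
    rw [mul_comm]
  exact LinearMap.congr_fun this c

@[simp] lemma push_single (f : C(X, Y)) {n : ℕ} (σ : C(Std n, X)) (r : R) :
    push R f n (Finsupp.single σ r) = Finsupp.single (f.comp σ) r := by
  simp [push]

lemma bd_push (f : C(X, Y)) {n : ℕ} (c : Ch R X (n + 1)) :
    bd R Y n (push R f (n + 1) c) = push R f n (bd R X n c) := by
  have : (bd R Y n).comp (push R f (n + 1)) = (push R f n).comp (bd R X n) := by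
    refine ch_ext fun σ => ?_
    simp only [LinearMap.comp_apply, bd_single, push_single, map_sum, map_smul,
      ContinuousMap.comp_assoc]
  exact LinearMap.congr_fun this c

lemma push_push (g : C(Y, Z)) (f : C(X, Y)) {n : ℕ} (c : Ch R X n) :
    push R g n (push R f n c) = push R (g.comp f) n c := by
  have : (push R g n).comp (push R f n) = push R (g.comp f) n := by
    refine ch_ext fun σ => ?_
    simp only [LinearMap.comp_apply, push_single, ContinuousMap.comp_assoc]
  exact LinearMap.congr_fun this c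

lemma push_id {n : ℕ} (c : Ch R X n) : push R (ContinuousMap.id X) n c = c := by
  have : push R (ContinuousMap.id X) n = LinearMap.id := by
    refine ch_ext fun σ => ?_
    simp
  exact LinearMap.congr_fun this c

lemma push_injective {f : C(X, Y)} (hf : Function.Injective f) (n : ℕ) :
    Function.Injective (push R f n) :=
  Finsupp.mapDomain_injective fun σ τ h => by
    ext1 x
    exact hf (congrArg (fun g : C(Std n, Y) => g x) h)

/-- A simplex is the image of the identity simplex. -/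
lemma single_eq_push {n : ℕ} (σ : C(Std n, X)) (r : R) :
    Finsupp.single σ r = push R σ n (Finsupp.single (ContinuousMap.id _) r) := by
  simp

/-! ### Cycles and boundaries -/

@[simp] lemma mem_cyc_zero (c : Ch R X 0) : c ∈ cyc R X 0 := Submodule.mem_top

@[simp] lemma mem_cyc_succ {n : ℕ} {c : Ch R X (n + 1)} :
    c ∈ cyc R X (n + 1) ↔ bd R X n c = 0 := Iff.rfl

lemma mem_bdry {n : ℕ} {c : Ch R X n} : c ∈ bdry R X n ↔ ∃ d, bd R X n d = c := Iff.rfl

lemma bd_mem_bdry {n : ℕ} (d : Ch R X (n + 1)) : bd R X n d ∈ bdry R X n := ⟨d, rfl⟩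

lemma bd_mem_cyc {n : ℕ} (d : Ch R X (n + 1)) : bd R X n d ∈ cyc R X n := by
  cases n with
  | zero => exact mem_cyc_zero _
  | succ n => exact bd_bd d

lemma bdry_le_cyc (n : ℕ) : bdry R X n ≤ cyc R X n := by
  rintro _ ⟨d, rfl⟩
  exact bd_mem_cyc d

lemma push_mem_cyc (f : C(X, Y)) {n : ℕ} {c : Ch R X n} (hc : c ∈ cyc R X n) :
    push R f n c ∈ cyc R Y n := by
  cases n with
  | zero => exact mem_cyc_zero _
  | succ n => rw [mem_cyc_succ, bd_push, mem_cyc_succ.mp hc, map_zero]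

lemma push_mem_bdry (f : C(X, Y)) {n : ℕ} {c : Ch R X n} (hc : c ∈ bdry R X n) :
    push R f n c ∈ bdry R Y n := by
  obtain ⟨d, rfl⟩ := hc
  exact ⟨push R f (n + 1) d, bd_push f d⟩

lemma hcl_surjective (n : ℕ) : Function.Surjective (hcl R X n) := Submodule.mkQ_surjective _

lemma hcl_eq_zero {n : ℕ} {z : cyc R X n} : hcl R X n z = 0 ↔ (z : Ch R X n) ∈ bdry R X n :=
  Submodule.Quotient.mk_eq_zero _

lemma hcl_eq_hcl {n : ℕ} {z w : cyc R X n} :
    hcl R X n z = hcl R X n w ↔ (z : Ch R X n) - w ∈ bdry R X n := by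
  rw [← sub_eq_zero, ← map_sub, hcl_eq_zero]
  rfl

/-- The map induced on homology. -/
noncomputable def hmap (R : Type) [CommRing R] (f : C(X, Y)) (n : ℕ) :
    Hml R X n →ₗ[R] Hml R Y n :=
  Submodule.mapQ _ _ ((push R f n).restrict fun _ hc => push_mem_cyc f hc)
    fun _ hc => push_mem_bdry f hc

lemma hmap_hcl (f : C(X, Y)) {n : ℕ} (z : cyc R X n) :
    hmap R f n (hcl R X n z) = hcl R Y n ⟨push R f n z, push_mem_cyc f z.2⟩ := rfl

/-- The augmentation. -/
noncomputable def eps (R : Type) [CommRing R] (X : Type) [TopologicalSpace X] :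
    Ch R X 0 →ₗ[R] R :=
  Finsupp.lift R R C(Std 0, X) fun _ => 1

@[simp] lemma eps_single (σ : C(Std 0, X)) (r : R) : eps R X (Finsupp.single σ r) = r := by
  simp [eps]

lemma eps_bd (c : Ch R X 1) : eps R X (bd R X 0 c) = 0 := by
  have : (eps R X).comp (bd R X 0) = 0 := by
    refine ch_ext fun σ => ?_
    simp [bd_single, Fin.sum_univ_two]
  exact LinearMap.congr_fun this c

lemma eps_push (f : C(X, Y)) (c : Ch R X 0) : eps R Y (push R f 0 c) = eps R X c := by
  have : (eps R Y).comp (push R f 0) = eps R X := by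
    refine ch_ext fun σ => ?_
    simp
  exact LinearMap.congr_fun this c

/-! ### Chains supported in a subset -/

lemma mem_chIn {A : Set X} {n : ℕ} {c : Ch R X n} :
    c ∈ chIn R X A n ↔ ∀ σ ∈ c.support, Set.range σ ⊆ A := Iff.rfl

lemma mem_chIn' {A : Set X} {n : ℕ} {c : Ch R X n} :
    c ∈ chIn R X A n ↔ ∀ σ : C(Std n, X), ¬ Set.range σ ⊆ A → c σ = 0 :=
  Finsupp.mem_supported' R c

lemma single_mem_chIn {A : Set X} {n : ℕ} {σ : C(Std n, X)} (h : Set.range σ ⊆ A) (r : R) :
    Finsupp.single σ r ∈ chIn R X A n :=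
  Finsupp.single_mem_supported R r h

lemma chIn_eq_span (A : Set X) (n : ℕ) : chIn R X A n =
    Submodule.span R ((fun σ => Finsupp.single σ (1 : R)) ''
      {σ : C(Std n, X) | Set.range σ ⊆ A}) :=
  Finsupp.supported_eq_span_single R _

/-- A linear map sends `chIn A` into a submodule as soon as it does so on simplices. -/
lemma map_mem_of_chIn {M : Type*} [AddCommGroup M] [Module R M] {A : Set X} {n : ℕ}
    (f : Ch R X n →ₗ[R] M) (N : Submodule R M)
    (h : ∀ σ : C(Std n, X), Set.range σ ⊆ A → f (Finsupp.single σ 1) ∈ N) {c : Ch R X n}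
    (hc : c ∈ chIn R X A n) : f c ∈ N := by
  have : chIn R X A n ≤ N.comap f := by
    rw [chIn_eq_span, Submodule.span_le]
    rintro _ ⟨σ, hσ, rfl⟩
    exact h σ hσ
  exact this hc

/-- Two linear maps agree on `chIn A` as soon as they agree on simplices in `A`. -/
lemma eq_of_chIn {M : Type*} [AddCommGroup M] [Module R M] {A : Set X} {n : ℕ}
    (f g : Ch R X n →ₗ[R] M)
    (h : ∀ σ : C(Std n, X), Set.range σ ⊆ A → f (Finsupp.single σ 1) = g (Finsupp.single σ 1))
    {c : Ch R X n} (hc : c ∈ chIn R X A n) : f c = g c := by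
  have := map_mem_of_chIn (f - g) ⊥ (fun σ hσ => by simp [h σ hσ]) hc
  simpa [sub_eq_zero] using this

lemma chIn_mono {A B : Set X} (h : A ⊆ B) (n : ℕ) : chIn R X A n ≤ chIn R X B n :=
  fun _ hc _ hσ => Set.Subset.trans (hc hσ) h

@[simp] lemma chIn_univ (n : ℕ) : chIn R X Set.univ n = ⊤ :=
  eq_top_iff.mpr fun _ _ _ _ => Set.subset_univ _

lemma chIn_inter (A B : Set X) (n : ℕ) : chIn R X (A ∩ B) n = chIn R X A n ⊓ chIn R X B n := by
  ext c
  simp only [Submodule.mem_inf, mem_chIn, Set.subset_inter_iff]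
  exact ⟨fun h => ⟨fun σ hσ => (h σ hσ).1, fun σ hσ => (h σ hσ).2⟩,
    fun h σ hσ => ⟨h.1 σ hσ, h.2 σ hσ⟩⟩

@[simp] lemma chIn_empty (n : ℕ) : chIn R X ∅ n = ⊥ := by
  refine eq_bot_iff.mpr fun c hc => ?_
  rw [Submodule.mem_bot]
  ext σ
  exact mem_chIn'.mp hc σ fun h => (Set.range_nonempty σ).ne_empty (Set.subset_empty_iff.mp h)

/-- Modular law: a sum `a + b` with `a` in `A`, `b` in `B` which lies in `C` splits inside `C`. -/
lemma chIn_sup_inf (A B C : Set X) (n : ℕ) :
    (chIn R X A n ⊔ chIn R X B n) ⊓ chIn R X C n = chIn R X (A ∩ C) n ⊔ chIn R X (B ∩ C) n := by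
  simp only [chIn, ← Finsupp.supported_union, ← Finsupp.supported_inter]
  congr 1
  ext σ
  simp only [Set.mem_inter_iff, Set.mem_union, Set.mem_ofPred_eq, Set.subset_inter_iff]
  tauto

lemma bd_mem_chIn {A : Set X} {n : ℕ} {c : Ch R X (n + 1)} (hc : c ∈ chIn R X A (n + 1)) :
    bd R X n c ∈ chIn R X A n := by
  refine map_mem_of_chIn (bd R X n) _ (fun σ hσ => ?_) hc
  rw [bd_single]
  refine Submodule.sum_mem _ fun i _ => Submodule.smul_mem _ _ (single_mem_chIn ?_ _)
  rintro _ ⟨x, rfl⟩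
  exact hσ ⟨_, rfl⟩

lemma push_mem_chIn (f : C(X, Y)) {A : Set X} {B : Set Y} (h : Set.MapsTo f A B) {n : ℕ}
    {c : Ch R X n} (hc : c ∈ chIn R X A n) : push R f n c ∈ chIn R Y B n := by
  refine map_mem_of_chIn (push R f n) _ (fun σ hσ => ?_) hc
  rw [push_single]
  refine single_mem_chIn ?_ _
  rintro _ ⟨x, rfl⟩
  exact h (hσ ⟨x, rfl⟩)

lemma push_mem_chIn_range (f : C(X, Y)) {n : ℕ} (c : Ch R X n) :
    push R f n c ∈ chIn R Y (Set.range f) n :=
  push_mem_chIn f (A := Set.univ) (fun x _ => Set.mem_range_self x) (by simp)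

/-- Chains in the image of `A` under an embedding come from chains in `A`. -/
lemma exists_push_eq {f : C(X, Y)} (hf : Topology.IsEmbedding f) {A : Set X} {n : ℕ}
    {c : Ch R Y n} (hc : c ∈ chIn R Y (f '' A) n) : ∃ d ∈ chIn R X A n, push R f n d = c := by
  refine map_mem_of_chIn LinearMap.id ((chIn R X A n).map (push R f n)) (fun σ hσ => ?_) hc
  choose g hg hg' using fun x => hσ (Set.mem_range_self x)
  have hgc : Continuous g := by
    rw [hf.continuous_iff]
    have : f ∘ g = σ := funext hg'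
    rw [this]
    exact σ.continuous
  refine ⟨Finsupp.single ⟨g, hgc⟩ 1, single_mem_chIn ?_ _, ?_⟩
  · rintro _ ⟨x, rfl⟩
    exact hg x
  · rw [push_single]
    congr 1
    ext1 x
    exact hg' x

lemma mem_chIn_of_push {f : C(X, Y)} (hf : Function.Injective f) {B : Set Y} {n : ℕ}
    {c : Ch R X n} (hc : push R f n c ∈ chIn R Y B n) : c ∈ chIn R X (f ⁻¹' B) n := by
  refine mem_chIn.mpr fun σ hσ => ?_
  have hinj : Function.Injective fun σ : C(Std n, X) => f.comp σ := fun σ τ h => by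
    ext1 x
    exact hf (congrArg (fun g : C(Std n, Y) => g x) h)
  have : f.comp σ ∈ (push R f n c).support := by
    rw [Finsupp.mem_support_iff] at hσ ⊢
    have e : push R f n c (f.comp σ) = c σ := Finsupp.mapDomain_apply hinj c σ
    rwa [e]
  rintro _ ⟨x, rfl⟩
  exact hc this ⟨x, rfl⟩

/-- The carrier of a chain. -/
def carrier {n : ℕ} (c : Ch R X n) : Set X := ⋃ σ ∈ c.support, Set.range σ

lemma isCompact_carrier {n : ℕ} (c : Ch R X n) : IsCompact (carrier c) :=
  c.support.isCompact_biUnion fun σ _ => isCompact_range σ.continuous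

lemma mem_chIn_iff_carrier {A : Set X} {n : ℕ} {c : Ch R X n} :
    c ∈ chIn R X A n ↔ carrier c ⊆ A := by
  simp only [mem_chIn, carrier, Set.iUnion_subset_iff]

lemma mem_chIn_carrier {n : ℕ} (c : Ch R X n) : c ∈ chIn R X (carrier c) n :=
  mem_chIn_iff_carrier.mpr subset_rfl

/-! ### Cocycles and coboundaries -/

lemma mem_cocyc {n : ℕ} {a : Co R X n} : a ∈ cocyc R X n ↔ ∀ c, a (bd R X n c) = 0 := by
  rw [cocyc, LinearMap.mem_ker, LinearMap.ext_iff]
  rfl

@[simp] lemma mem_cobdry_zero {a : Co R X 0} : a ∈ cobdry R X 0 ↔ a = 0 := Iff.rfl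

lemma mem_cobdry_succ {n : ℕ} {a : Co R X (n + 1)} :
    a ∈ cobdry R X (n + 1) ↔ ∃ b : Co R X n, b ∘ₗ bd R X n = a := Iff.rfl

lemma cobdry_apply_cyc {n : ℕ} {a : Co R X n} (ha : a ∈ cobdry R X n) {z : Ch R X n}
    (hz : z ∈ cyc R X n) : a z = 0 := by
  cases n with
  | zero => rw [mem_cobdry_zero.mp ha, LinearMap.zero_apply]
  | succ n =>
    obtain ⟨b, rfl⟩ := mem_cobdry_succ.mp ha
    rw [LinearMap.comp_apply, mem_cyc_succ.mp hz, map_zero]

lemma cocyc_apply_bdry {n : ℕ} {a : Co R X n} (ha : a ∈ cocyc R X n) {z : Ch R X n}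
    (hz : z ∈ bdry R X n) : a z = 0 := by
  obtain ⟨d, rfl⟩ := hz
  exact mem_cocyc.mp ha d

lemma cobdry_le_cocyc (n : ℕ) : cobdry R X n ≤ cocyc R X n :=
  fun _ ha => mem_cocyc.mpr fun c => cobdry_apply_cyc ha (bd_mem_cyc c)

lemma comp_bd_mem_cobdry {n : ℕ} (b : Co R X n) : b ∘ₗ bd R X n ∈ cobdry R X (n + 1) := ⟨b, rfl⟩

lemma comp_push_mem_cocyc (f : C(X, Y)) {n : ℕ} {a : Co R Y n} (ha : a ∈ cocyc R Y n) :
    a ∘ₗ push R f n ∈ cocyc R X n :=
  mem_cocyc.mpr fun c => by rw [LinearMap.comp_apply, ← bd_push, mem_cocyc.mp ha]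

lemma comp_push_mem_cobdry (f : C(X, Y)) {n : ℕ} {a : Co R Y n} (ha : a ∈ cobdry R Y n) :
    a ∘ₗ push R f n ∈ cobdry R X n := by
  cases n with
  | zero => rw [mem_cobdry_zero.mp ha]; exact mem_cobdry_zero.mpr (LinearMap.zero_comp _)
  | succ n =>
    obtain ⟨b, rfl⟩ := mem_cobdry_succ.mp ha
    refine ⟨b ∘ₗ push R f n, LinearMap.ext fun c => ?_⟩
    simp [bd_push]

lemma ccl_surjective (n : ℕ) : Function.Surjective (ccl R X n) := Submodule.mkQ_surjective _

lemma ccl_eq_zero {n : ℕ} {a : cocyc R X n} : ccl R X n a = 0 ↔ (a : Co R X n) ∈ cobdry R X n :=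
  Submodule.Quotient.mk_eq_zero _

lemma ccl_eq_ccl {n : ℕ} {a b : cocyc R X n} :
    ccl R X n a = ccl R X n b ↔ (a : Co R X n) - b ∈ cobdry R X n := by
  rw [← sub_eq_zero, ← map_sub, ccl_eq_zero]
  rfl

/-! ### Duality over a field -/

section field

variable {F : Type} [Field F]

/-- A functional vanishing on the part of `S` killed by `d` factors through `d` on `S`. -/
lemma exists_factor {V W : Type*} [AddCommGroup V] [Module F V] [AddCommGroup W] [Module F W]
    (d : V →ₗ[F] W) (S : Submodule F V) (a : V →ₗ[F] F) (h : ∀ z ∈ S, d z = 0 → a z = 0) :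
    ∃ b : W →ₗ[F] F, ∀ z ∈ S, b (d z) = a z := by
  have hk : LinearMap.ker (d ∘ₗ S.subtype) ≤ LinearMap.ker (a ∘ₗ S.subtype) :=
    fun z hz => h z z.2 hz
  obtain ⟨b, hb⟩ := LinearMap.exists_extend
    ((Submodule.liftQ _ _ hk) ∘ₗ (d ∘ₗ S.subtype).quotKerEquivRange.symm.toLinearMap)
  refine ⟨b, fun z hz => ?_⟩
  have := LinearMap.congr_fun hb ⟨d z, ⟨⟨z, hz⟩, rfl⟩⟩
  simp only [LinearMap.comp_apply, Submodule.subtype_apply, LinearEquiv.coe_coe] at this
  rw [this]
  have e := LinearMap.quotKerEquivRange_symm_apply_image (d ∘ₗ S.subtype) ⟨z, hz⟩ ⟨⟨z, hz⟩, rfl⟩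
  erw [e]
  rfl

/-- A vector outside a subspace is detected by a functional vanishing on the subspace. -/
lemma exists_dual {V : Type*} [AddCommGroup V] [Module F V] (S : Submodule F V) {z : V}
    (hz : z ∉ S) : ∃ a : V →ₗ[F] F, (∀ w ∈ S, a w = 0) ∧ a z ≠ 0 := by
  obtain ⟨a, h1, h2⟩ := S.exists_le_ker_of_notMem hz
  exact ⟨a, fun w hw => h2 hw, h1⟩

lemma mem_cobdry_iff {n : ℕ} {a : Co F X n} :
    a ∈ cobdry F X n ↔ ∀ z ∈ cyc F X n, a z = 0 := by
  refine ⟨fun ha z hz => cobdry_apply_cyc ha hz, fun h => ?_⟩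
  cases n with
  | zero => exact LinearMap.ext fun z => h z (mem_cyc_zero z)
  | succ n =>
    obtain ⟨b, hb⟩ := exists_factor (bd F X n) ⊤ a fun z _ hz => h z hz
    exact ⟨b, LinearMap.ext fun z => hb z trivial⟩

lemma mem_bdry_iff {n : ℕ} {z : Ch F X n} :
    z ∈ bdry F X n ↔ ∀ a ∈ cocyc F X n, a z = 0 := by
  refine ⟨fun hz a ha => cocyc_apply_bdry ha hz, fun h => ?_⟩
  by_contra hz
  obtain ⟨a, h1, h2⟩ := exists_dual _ hz
  exact h2 (h a (mem_cocyc.mpr fun c => h1 _ (bd_mem_bdry c)))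

end field

end Pool.Agent.Sing
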