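import Pool.Agent.Shared.Sing.Cup
import Pool.Agent.Shared.Sing.StdBasic

/-! The bridge between the graded chains on `Std n` and the ungraded chains `C R X`. -/

set_option linter.unusedSectionVars false

namespace Pool.Agent.Shared.Sing

open Finsupp Set
open Pool.Agent.Sing (Std vmap)

/-- Extension by zero of barycentric coordinates. -/
noncomputable def exV (n : ℕ) (x : Std n) : V := fun j => if h : j < n + 1 then x.1 ⟨j, h⟩ else 0

lemma exV_fin {n : ℕ} (x : Std n) (i : Fin (n + 1)) : exV n x i = x.1 i := dif_pos i.2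

lemma exV_mem {n : ℕ} (x : Std n) : exV n x ∈ Δ (n + 1) := by
  refine ⟨fun j => ?_, fun j hj => dif_neg (by omega), ?_⟩
  · unfold exV
    split_ifs
    exacts [x.2.1 _, le_rfl]
  · rw [Finset.sum_range]
    simpa only [exV_fin] using x.2.2

lemma continuous_exV (n : ℕ) : Continuous (exV n) := by
  refine continuous_pi fun j => ?_
  unfold exV
  split_ifs
  exacts [(continuous_apply _).comp continuous_subtype_val, continuous_const]

/-- Restriction of coordinates. -/
def rsV {n : ℕ} (t : V) (h : t ∈ Δ (n + 1)) : Std n :=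
  ⟨fun i => t i, fun i => h.1 i, by rw [← h.2.2, Finset.sum_range]⟩

lemma rsV_exV {n : ℕ} (x : Std n) : rsV (exV n x) (exV_mem x) = x :=
  Subtype.ext (funext fun i => exV_fin x i)

lemma exV_rsV {n : ℕ} {t : V} (h : t ∈ Δ (n + 1)) : exV n (rsV t h) = t := by
  funext j
  unfold exV
  split_ifs with hj
  exacts [rfl, (h.2.1 j (by omega)).symm]

lemma std_eq_ofFn (n : ℕ) : std n = List.ofFn fun i : Fin n => (Pi.single (i : ℕ) 1 : V) :=
  List.ext_getElem (by simp) fun i h1 h2 => by simp [std]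

lemma aff_ofFn {p n : ℕ} (f : Fin (p + 1) → Fin (n + 1)) (x : Std p) :
    aff (List.ofFn fun i => (Pi.single (f i : ℕ) 1 : V)) (exV p x) = exV n (vmap f x) := by
  funext j
  rw [aff_apply, List.length_ofFn, Finset.sum_range, Finset.sum_apply]
  have : ∀ i : Fin (p + 1), (exV p x i • (List.ofFn fun i => (Pi.single (f i : ℕ) 1 : V)).getD i 0) j
      = if (f i : ℕ) = j then x.1 i else 0 := fun i => by
    rw [List.getD_eq_getElem _ _ (by simpa using i.2), List.getElem_ofFn, exV_fin]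
    by_cases h : (f i : ℕ) = j
    · simp [h]
    · simp [h]
  simp only [this]
  unfold exV
  split_ifs with hj
  · change _ = FunOnFinite.linearMap ℝ ℝ f x.1 ⟨j, hj⟩
    rw [FunOnFinite.linearMap_apply_apply, Finset.sum_filter]
    simp only [Fin.ext_iff]
  · exact Finset.sum_eq_zero fun i _ => if_neg (by have := (f i).2; omega)

lemma bdL_ofFn {R : Type} [CommRing R] {α : Type*} :
    ∀ {k : ℕ} (v : Fin (k + 1) → α), bdL R (List.ofFn v) =
      ∑ i : Fin (k + 1), (-1 : R) ^ (i : ℕ) • single (List.ofFn (v ∘ i.succAbove)) 1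
  | 0, v => by simp [bdL]
  | k + 1, v => by
    rw [List.ofFn_succ, bdL, bdL_ofFn, map_sum, Fin.sum_univ_succ _ (n := k + 1), sub_eq_add_neg,
      ← Finset.sum_neg_distrib]
    congr 1
    · simp [Function.comp_def]
    · refine Finset.sum_congr rfl fun i _ => ?_
      rw [map_smul, cone_single, List.ofFn_succ (f := v ∘ _)]
      simp [pow_succ, Function.comp_def]

variable {X Y : Type} [TopologicalSpace X] [Nonempty X] [TopologicalSpace Y] [Nonempty Y]
  {R : Type} [CommRing R]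

open Classical in
/-- A singular simplex on `Std n` as a simplex with `n + 1` vertices. -/
noncomputable def sx {n : ℕ} (σ : C(Std n, X)) : Sx X where
  n := n + 1
  f t := if h : t ∈ Δ (n + 1) then σ (rsV t h) else Classical.arbitrary X
  cont := by
    rw [continuousOn_iff_continuous_domRestrict]
    have : Continuous fun t : Δ (n + 1) => σ (rsV t.1 t.2) :=
      σ.continuous.comp (continuous_induced_rng.2 (continuous_pi fun i =>
        show Continuous fun t : Δ (n + 1) => t.1 (i : ℕ) from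
          (continuous_apply (i : ℕ)).comp continuous_subtype_val))
    exact this.congr fun t =>
      (show (if h : t.1 ∈ Δ (n + 1) then σ (rsV t.1 h) else _) = _ from dif_pos t.2).symm
  junk t ht := dif_neg ht

@[simp] lemma sx_n {n : ℕ} (σ : C(Std n, X)) : (sx σ).n = n + 1 := rfl

lemma sx_f {n : ℕ} (σ : C(Std n, X)) {t : V} (h : t ∈ Δ (n + 1)) : (sx σ).f t = σ (rsV t h) :=
  dif_pos h

lemma sx_exV {n : ℕ} (σ : C(Std n, X)) (x : Std n) : (sx σ).f (exV n x) = σ x := by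
  rw [sx_f σ (exV_mem x), rsV_exV]

/-- The inverse of `sx`. -/
noncomputable def unsx {n : ℕ} (s : Sx X) (h : s.n = n + 1) : C(Std n, X) :=
  ⟨fun x => s.f (exV n x), s.cont.comp_continuous (continuous_exV n) fun x => h ▸ exV_mem x⟩

lemma unsx_sx {n : ℕ} (σ : C(Std n, X)) : unsx (sx σ) rfl = σ := ContinuousMap.ext (sx_exV σ)

lemma mk_eq_sx {n : ℕ} {g : V → X} (σ : C(Std n, X)) (h : ∀ x, g (exV n x) = σ x) :
    mk (n + 1) g = sx σ :=
  mk_eq (sx σ) fun t ht => by rw [sx_f σ ht, ← h, exV_rsV]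

lemma sx_unsx {n : ℕ} (s : Sx X) (h : s.n = n + 1) : sx (unsx s h) = s := by
  rw [← mk_eq_sx (g := s.f) _ fun _ => rfl, ← h]
  exact mk_eq s fun _ _ => rfl

lemma sx_injective (n : ℕ) : Function.Injective (sx : C(Std n, X) → Sx X) := fun σ τ h =>
  ContinuousMap.ext fun x => by rw [← sx_exV, h, sx_exV]

lemma mapsTo_sx {n : ℕ} (σ : C(Std n, X)) {A : Set X} :
    MapsTo (sx σ).f (Δ (n + 1)) A ↔ range σ ⊆ A := by
  constructor
  · rintro h _ ⟨x, rfl⟩
    rw [← sx_exV]
    exact h (exV_mem x)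
  · intro h t ht
    rw [sx_f σ ht]
    exact h ⟨_, rfl⟩

lemma real_ofFn {p n : ℕ} (σ : C(Std n, X)) (f : Fin (p + 1) → Fin (n + 1)) (r : R) :
    real (sx σ).f (single (List.ofFn fun i => (Pi.single (f i : ℕ) 1 : V)) r) =
      single (sx (σ.comp (vmap f))) r := by
  rw [real_single, List.length_ofFn, mk_eq_sx]
  intro x
  rw [Function.comp_apply, aff_ofFn, sx_exV, ContinuousMap.comp_apply]

variable (R) in
/-- The bridge from graded to ungraded chains. -/
noncomputable def br (n : ℕ) : Pool.Agent.Sing.Ch R X n →ₗ[R] C R X := lmapDomain R R sx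

variable (R) in
/-- The projection from ungraded chains to graded chains, a left inverse of `br`. -/
noncomputable def rb (n : ℕ) : C R X →ₗ[R] Pool.Agent.Sing.Ch R X n :=
  lc fun s => if h : s.n = n + 1 then single (unsx s h) 1 else 0

@[simp] lemma br_single {n : ℕ} (σ : C(Std n, X)) (r : R) :
    br R n (single σ r) = single (sx σ) r := by simp [br]

@[simp] lemma rb_br {n : ℕ} (c : Pool.Agent.Sing.Ch R X n) : rb R n (br R n c) = c :=
  map_eq (F := rb R n ∘ₗ br R n) (G := LinearMap.id) (fun σ _ => by simp [rb, unsx_sx]) (mem_top c)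

lemma br_rb {n : ℕ} {A : Set X} {c : C R X} (hc : c ∈ In R A (n + 1)) : br R n (rb R n c) = c :=
  map_eq (F := br R n ∘ₗ rb R n) (G := LinearMap.id)
    (fun s hs => by simp [rb, dif_pos hs.1, sx_unsx]) hc

lemma br_injective (n : ℕ) : Function.Injective (br R n : Pool.Agent.Sing.Ch R X n → _) :=
  Function.LeftInverse.injective rb_br

lemma br_eq_zero {n : ℕ} {c : Pool.Agent.Sing.Ch R X n} : br R n c = 0 ↔ c = 0 :=
  map_eq_zero_iff _ (br_injective n)

lemma rb_mem_chIn {n : ℕ} {A : Set X} {c : C R X} (hc : c ∈ In R A (n + 1)) :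
    rb R n c ∈ Pool.Agent.Sing.chIn R X A n :=
  map_mem (fun s hs => by
    simp only [rb, linearCombination_single, one_smul, dif_pos hs.1]
    refine single_mem ?_
    rintro _ ⟨x, rfl⟩
    exact hs.2 (hs.1 ▸ exV_mem x)) hc

lemma br_mem_In {n : ℕ} {A : Set X} {c : Pool.Agent.Sing.Ch R X n} :
    br R n c ∈ In R A (n + 1) ↔ c ∈ Pool.Agent.Sing.chIn R X A n :=
  ⟨fun h => rb_br c ▸ rb_mem_chIn h, fun h => map_mem (fun σ hσ => by
    rw [br_single]
    exact single_mem ⟨rfl, (mapsTo_sx σ).2 hσ⟩) h⟩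

lemma br_In {n : ℕ} (c : Pool.Agent.Sing.Ch R X n) : br R n c ∈ In R univ (n + 1) :=
  br_mem_In.2 (by simp)

lemma exists_br {n : ℕ} {A : Set X} {c : C R X} (hc : c ∈ In R A (n + 1)) :
    ∃ c' ∈ Pool.Agent.Sing.chIn R X A n, br R n c' = c := ⟨_, rb_mem_chIn hc, br_rb hc⟩

lemma range_br (n : ℕ) : LinearMap.range (br R n (X := X)) = In R univ (n + 1) :=
  le_antisymm (by rintro _ ⟨c, rfl⟩; exact br_In c) fun _ hc => ⟨_, br_rb hc⟩

theorem br_bd {n : ℕ} (c : Pool.Agent.Sing.Ch R X (n + 1)) :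
    br R n (Pool.Agent.Sing.bd R X n c) = D (br R (n + 1) c) := by
  refine map_eq (F := br R n ∘ₗ Pool.Agent.Sing.bd R X n) (G := D ∘ₗ br R (n + 1))
    (fun σ _ => ?_) (mem_top c)
  simp only [LinearMap.comp_apply, br_single, D_single, sx_n]
  rw [std_eq_ofFn, bdL_ofFn, map_sum, Pool.Agent.Sing.bd, linearCombination_single, one_smul,
    map_sum]
  refine Finset.sum_congr rfl fun i _ => ?_
  rw [map_smul, br_single]
  exact (smul_single_one _ _).symm.trans (congrArg _ (real_ofFn σ i.succAbove 1).symm)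

theorem br_push (f : C(X, Y)) {n : ℕ} (c : Pool.Agent.Sing.Ch R X n) :
    br R n (Pool.Agent.Sing.push R f n c) = map f (br R n c) := by
  refine map_eq (F := br R n ∘ₗ Pool.Agent.Sing.push R f n) (G := map f ∘ₗ br R n)
    (fun σ _ => ?_) (mem_top c)
  simp only [LinearMap.comp_apply, br_single, Pool.Agent.Sing.push_single, map_single, sx_n]
  rw [mk_eq_sx (f.comp σ)]
  intro x
  rw [Function.comp_apply, sx_exV, ContinuousMap.comp_apply]

lemma rb_D {n : ℕ} {A : Set X} {c : C R X} (hc : c ∈ In R A (n + 2)) :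
    rb R n (D c) = Pool.Agent.Sing.bd R X n (rb R (n + 1) c) := by
  conv_lhs => rw [← br_rb hc, ← br_bd, rb_br]

lemma eq_zero_of_In_empty {n : ℕ} {c : C R X} (hc : c ∈ In R ∅ (n + 1)) : c = 0 := by
  obtain ⟨c', h, rfl⟩ := exists_br hc
  rw [Pool.Agent.Sing.chIn_empty, Submodule.mem_bot] at h
  rw [h, map_zero]

theorem br_mem_Z {n : ℕ} {c : Pool.Agent.Sing.Ch R X n} :
    br R n c ∈ Z R univ ∅ n ↔ c ∈ Pool.Agent.Sing.cyc R X n := by
  cases n with
  | zero =>
    refine iff_of_true ⟨br_In c, fun s hs => ?_⟩ (Pool.Agent.Sing.mem_cyc_zero c)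
    have := (D_In (br_In c) hs).1
    exact ⟨this, fun t ht => by simp [this, Δ_zero] at ht⟩
  | succ n =>
    rw [Pool.Agent.Sing.mem_cyc_succ, ← br_eq_zero, br_bd]
    exact ⟨fun h => eq_zero_of_In_empty h.2, fun h => mem_Z (br_In c) h⟩

theorem br_mem_B {n : ℕ} {c : Pool.Agent.Sing.Ch R X n} :
    br R n c ∈ B R univ ∅ n ↔ c ∈ Pool.Agent.Sing.bdry R X n := by
  constructor
  · intro h
    obtain ⟨w, hw, h'⟩ := mem_B h
    refine ⟨rb R (n + 1) w, ?_⟩
    rw [← rb_D hw, ← sub_eq_zero.1 (eq_zero_of_In_empty h'), rb_br]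
  · rintro ⟨d, rfl⟩
    rw [br_bd]
    exact D_mem_B (br_In d)

theorem exists_cyc {n : ℕ} {c : C R X} (hc : c ∈ Z R univ ∅ n) :
    ∃ z ∈ Pool.Agent.Sing.cyc R X n, br R n z = c :=
  ⟨_, br_mem_Z.1 ((br_rb hc.1).symm ▸ hc), br_rb hc.1⟩

/-- Relative version: cycles of the pair `(X, U)`. -/
theorem br_mem_Z_rel {n : ℕ} {U : Set X} {c : Pool.Agent.Sing.Ch R X (n + 1)} :
    br R (n + 1) c ∈ Z R univ U (n + 1) ↔
      Pool.Agent.Sing.bd R X n c ∈ Pool.Agent.Sing.chIn R X U n := by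
  rw [← br_mem_In, br_bd]
  exact ⟨fun h => h.2, fun h => ⟨br_In c, h⟩⟩

/-- Relative version: boundaries of the pair `(X, U)`. -/
theorem br_mem_B_rel {n : ℕ} {U : Set X} {c : Pool.Agent.Sing.Ch R X n} :
    br R n c ∈ B R univ U n ↔
      ∃ d, c - Pool.Agent.Sing.bd R X n d ∈ Pool.Agent.Sing.chIn R X U n := by
  constructor
  · intro h
    obtain ⟨w, hw, h'⟩ := mem_B h
    exact ⟨rb R (n + 1) w, by rwa [← br_mem_In, map_sub, br_bd, br_rb hw]⟩
  · rintro ⟨d, hd⟩
    rw [← br_mem_In, map_sub, br_bd] at hd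
    exact B_of (br_In d) hd

lemma eps_br (c : Pool.Agent.Sing.Ch R X 0) : eps (br R 0 c) = Pool.Agent.Sing.eps R X c :=
  map_eq (F := eps ∘ₗ br R 0) (fun σ _ => by simp) (mem_top c)

lemma comp_rb_comp_br {n : ℕ} (a : Pool.Agent.Sing.Co R X n) : (a ∘ₗ rb R n) ∘ₗ br R n = a :=
  LinearMap.ext fun c => by simp

theorem comp_br_mem_cocyc {n : ℕ} {φ : C R X →ₗ[R] R} :
    φ ∘ₗ br R n ∈ Pool.Agent.Sing.cocyc R X n ↔ Coc univ n φ := by
  rw [Pool.Agent.Sing.mem_cocyc]
  constructor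
  · intro h c hc
    rw [← br_rb hc, ← br_bd]
    exact h _
  · intro h c
    rw [LinearMap.comp_apply, br_bd]
    exact h _ (br_In c)

theorem coc_comp_rb {n : ℕ} {a : Pool.Agent.Sing.Co R X n} :
    Coc univ n (a ∘ₗ rb R n) ↔ a ∈ Pool.Agent.Sing.cocyc R X n := by
  rw [← comp_br_mem_cocyc, comp_rb_comp_br]

theorem comp_br_mem_cobdry {n : ℕ} {φ : C R X →ₗ[R] R} :
    φ ∘ₗ br R (n + 1) ∈ Pool.Agent.Sing.cobdry R X (n + 1) ↔ Dies univ (n + 1) φ := by
  constructor
  · rintro ⟨b, hb⟩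
    refine ⟨b ∘ₗ rb R n, fun c hc => ?_⟩
    rw [LinearMap.comp_apply, rb_D hc]
    conv_lhs => rw [← br_rb hc]
    exact (LinearMap.congr_fun hb _).symm
  · rintro ⟨θ, h⟩
    refine ⟨θ ∘ₗ br R n, LinearMap.ext fun c => ?_⟩
    change θ (br R n (Pool.Agent.Sing.bd R X n c)) = φ (br R (n + 1) c)
    rw [br_bd, h _ (br_In c)]

theorem br_cap {p q n : ℕ} (h : p + q = n) (φ : C R X →ₗ[R] R) (c : Pool.Agent.Sing.Ch R X n) :
    br R q (Pool.Agent.Sing.cap h (φ ∘ₗ br R p) c) = cap p φ (br R n c) := by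
  refine map_eq (F := br R q ∘ₗ Pool.Agent.Sing.cap h (φ ∘ₗ br R p)) (G := cap p φ ∘ₗ br R n)
    (fun σ _ => ?_) (mem_top c)
  have e1 : (std (n + 1)).take (p + 1) =
      List.ofFn fun i : Fin (p + 1) => (Pi.single ((⟨i, by omega⟩ : Fin (n + 1)) : ℕ) 1 : V) :=
    List.ext_getElem (by simp; omega) fun i h1 h2 => by rw [List.getElem_ofFn]; simp [std]
  have e2 : (std (n + 1)).drop p =
      List.ofFn fun i : Fin (q + 1) => (Pi.single ((⟨p + i, by omega⟩ : Fin (n + 1)) : ℕ) 1 : V) :=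
    List.ext_getElem (by simp; omega) fun i h1 h2 => by rw [List.getElem_ofFn]; simp [std]
  simp only [LinearMap.comp_apply, br_single, cap_single, sx_n]
  rw [Pool.Agent.Sing.cap, linearCombination_single, one_smul, br_single, capL,
    if_pos (by simp; omega), map_smul, LinearMap.comp_apply, LinearMap.comp_apply, e1, e2,
    real_ofFn, real_ofFn, br_single, smul_single_one]
  rfl

theorem cup_comp_br {p q n : ℕ} (h : p + q = n) (φ ψ : C R X →ₗ[R] R) :
    Pool.Agent.Sing.cup h (φ ∘ₗ br R p) (ψ ∘ₗ br R q) = cup p φ ψ ∘ₗ br R n := by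
  refine LinearMap.ext fun c => ?_
  rw [LinearMap.comp_apply, cup, LinearMap.comp_apply, ← br_cap h]
  refine map_eq (G := ψ ∘ₗ br R q ∘ₗ Pool.Agent.Sing.cap h (φ ∘ₗ br R p)) (fun σ _ => ?_)
    (mem_top c)
  simp only [Pool.Agent.Sing.cup, Pool.Agent.Sing.cap, linearCombination_single, one_smul,
    LinearMap.comp_apply, br_single]
  conv_rhs => rw [← smul_single_one, map_smul, smul_eq_mul]

theorem br_cap' {p q n : ℕ} (h : p + q = n) (a : Pool.Agent.Sing.Co R X p)
    (c : Pool.Agent.Sing.Ch R X n) :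
    br R q (Pool.Agent.Sing.cap h a c) = cap p (a ∘ₗ rb R p) (br R n c) := by
  rw [← br_cap h, comp_rb_comp_br]

theorem cup_eq_comp_br {p q n : ℕ} (h : p + q = n) (a : Pool.Agent.Sing.Co R X p)
    (b : Pool.Agent.Sing.Co R X q) :
    Pool.Agent.Sing.cup h a b = cup p (a ∘ₗ rb R p) (b ∘ₗ rb R q) ∘ₗ br R n := by
  rw [← cup_comp_br h, comp_rb_comp_br, comp_rb_comp_br]

end Pool.Agent.Shared.Sing
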