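import Pool.Agent.Shared.Sing.Word

/-! Paths as chains, cocycles of degree one, the displacement cocycle of the circle. -/

set_option linter.unusedSectionVars false
set_option maxSynthPendingDepth 3

namespace Pool.Agent.Shared.SingEZ

open Finsupp Set Pool.Agent.Shared.Sing

variable {X Y : Type*} [TopologicalSpace X] [Nonempty X] [TopologicalSpace Y] [Nonempty Y]
  {R : Type} [CommRing R]
  {W W' : Type*} [AddCommGroup W] [Module ℝ W] [TopologicalSpace W] [ContinuousAdd W]
  [ContinuousSMul ℝ W] [AddCommGroup W'] [Module ℝ W']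

/-- The cochain of degree zero given by a function. -/
noncomputable def pv (g : Y → R) : C R Y →ₗ[R] R := lc fun s => g (s.f (Pi.single 0 1))

@[simp] lemma pv_pt (g : Y → R) (y : Y) : pv g (pt R y) = g y := by
  simp only [pv, pt, linearCombination_single, one_smul]
  rw [mk_f continuousOn_const (single_mem_Δ one_pos)]

lemma map_pt (f : X → Y) (x : X) : map f (pt R x) = pt R (f x) := by
  rw [← real_one (fun _ : V => x) 0, map_glob continuous_const, real_one]
  rfl

lemma cf_pt {S : Type} [CommRing S] (φ : R →+* S) (x : X) : cf φ (pt R x) = pt S x := by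
  simp [pt]

lemma e1_pt (x : X) : e1 (pt R x) = 1 := by simp [pt, e1]

lemma D_edge {F : W → Y} (hF : Continuous F) (v w : W) :
    D (real F (single [v, w] (1 : R))) = pt R (F w) - pt R (F v) := by
  simp [D_glob hF, bdL, real_one, -real_single]

lemma edge_congr {F : W → Y} {G : W' → Y} {v w : W} {v' w' : W'}
    (h : ∀ t ∈ Icc (0 : ℝ) 1, F ((1 - t) • v + t • w) = G ((1 - t) • v' + t • w')) :
    real F (single [v, w] (1 : R)) = real G (single [v', w'] 1) := by
  rw [real_single, real_single]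
  refine congrArg (single · 1) (mk_congr fun t ht => ?_)
  have h1 : t 0 = 1 - t 1 := by
    have := ht.2.2
    simp [Finset.sum_range_succ] at this
    linarith
  simpa [aff_apply, Finset.sum_range_succ, h1] using h (t 1) ⟨ht.1 1, Δ_le ht 1⟩

lemma eq_edge {M : Type*} [AddCommMonoid M] [Module R M] {A : Set Y} {f g : C R Y →ₗ[R] M}
    (h : ∀ F : V → Y, Continuous F → (∀ t, F t ∈ A) → ∀ v w : V,
      f (real F (single [v, w] 1)) = g (real F (single [v, w] 1))) {c : C R Y}
    (hc : c ∈ In R A 2) : f c = g c := by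
  refine eq_In (fun F hF hA l hl => ?_) hc
  obtain ⟨v, w, rfl⟩ := List.length_eq_two.1 hl
  exact h F hF hA v w

lemma Coc_of_tri {A : Set Y} {φ : C R Y →ₗ[R] R} (h : ∀ F : V → Y, Continuous F → ∀ u v w : V,
    φ (real F (single [u, v] 1)) + φ (real F (single [v, w] 1)) = φ (real F (single [u, w] 1))) :
    Coc A 1 φ := fun c hc => by
  refine eq_In (f := φ ∘ₗ D) (g := 0) (fun F hF _ l hl => ?_) hc
  obtain ⟨u, v, w, rfl⟩ := List.length_eq_three.1 hl
  simp [D_glob hF, bdL, ← h F hF u v w, -real_single]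

variable (R) in
/-- A path as a chain. -/
noncomputable def pc {x y : Y} (γ : Path x y) : C R Y := real γ.extend (single [0, 1] 1)

variable {x y z : Y}

lemma pc_In {A : Set Y} {γ : Path x y} (h : ∀ t, γ t ∈ A) : pc R γ ∈ In R A 2 :=
  glob_In γ.continuous_extend (fun _ => h _) _

lemma D_pc (γ : Path x y) : D (pc R γ) = pt R y - pt R x := by
  simp [pc, D_edge γ.continuous_extend, -real_single]

lemma pc_Z (γ : Path x x) : pc R γ ∈ Z R univ ∅ 1 :=
  mem_Z (pc_In fun _ => mem_univ _) (by simp [D_pc])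

lemma map_pc {f : Y → X} (hf : Continuous f) (γ : Path x y) : map f (pc R γ) = pc R (γ.map hf) :=
  map_glob γ.continuous_extend f _

lemma cf_pc {S : Type} [CommRing S] (φ : R →+* S) (γ : Path x y) : cf φ (pc R γ) = pc S γ := by
  simp [pc]

lemma edge_eq_pc {F : V → Y} (hF : Continuous F) (v w : V) :
    real F (single [v, w] (1 : R)) = pc R ((Path.segment v w).map hF) :=
  edge_congr fun t ht => by
    simp [Path.extend_apply _ ht, AffineMap.lineMap_apply_module]

/-- Chains of dimension zero in a path connected set. -/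
lemma zero_Bd {A : Set Y} (hA : IsPathConnected A) {a : Y} (ha : a ∈ A) {c : C R Y}
    (hc : c ∈ In R A 1) : c - e1 c • pt R a ∈ Bd R A 1 := by
  refine mem_In (f := LinearMap.id - e1.smulRight (pt R a)) (fun F hF h l hl => ?_) hc
  obtain ⟨v, rfl⟩ := List.length_eq_one_iff.1 hl
  obtain ⟨γ, hγ⟩ := hA.joinedIn a ha _ (h v)
  exact ⟨_, pc_In hγ, by simp [D_pc, real_one, e1_pt, -real_single]⟩

lemma zero_Bd' {A : Set Y} (hA : IsPathConnected A) {c : C R Y} (hc : c ∈ In R A 1)
    (h0 : D c = 0) : c ∈ Bd R A 1 := by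
  obtain ⟨a, ha⟩ := hA.nonempty
  have h1 : e1 c = 0 := by simpa [emp] using (D_one hc).symm.trans h0
  simpa [h1] using zero_Bd hA ha hc

section coc

variable {φ : C R Y →ₗ[R] R} (hφ : Coc univ 1 φ)
include hφ

lemma coc_tri {F : W → Y} (hF : Continuous F) (u v w : W) :
    φ (real F (single [u, v] 1)) + φ (real F (single [v, w] 1)) = φ (real F (single [u, w] 1)) := by
  have := hφ _ (glob_In hF (fun _ => mem_univ _) [u, v, w])
  simp only [D_glob hF, bd_single, bdL, map_sub, cone_single, map_zero, sub_zero] at this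
  linear_combination this

lemma pc_refl (x : Y) : φ (pc R (Path.refl x)) = 0 := by
  have := coc_tri hφ (continuous_const (y := x)) (0 : ℝ) 1 0
  rw [edge_congr (v := 1) (G := fun _ : ℝ => x) (v' := 0) (w' := 1) fun _ _ => rfl,
    edge_congr (w := 0) (G := fun _ : ℝ => x) (v' := 0) (w' := 1) fun _ _ => rfl] at this
  exact left_eq_add.1 this.symm

lemma pc_trans (γ : Path x y) (δ : Path y z) :
    φ (pc R (γ.trans δ)) = φ (pc R γ) + φ (pc R δ) := by
  rw [pc, ← coc_tri hφ (γ.trans δ).continuous_extend 0 (1 / 2) 1, pc, pc]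
  congr 2 <;> refine edge_congr fun t ht => ?_
  · rw [Path.extend_trans_of_le_half _ _ (by simp; linarith [ht.2])]
    congr 1
    simp
    ring
  · rw [Path.extend_trans_of_half_le _ _ (by simp; linarith [ht.1, ht.2])]
    congr 1
    simp
    ring

lemma pc_homotopic {γ δ : Path x y} (h : γ.Homotopic δ) : φ (pc R γ) = φ (pc R δ) := by
  obtain ⟨H⟩ := h
  let F : ℝ × ℝ → Y := fun p => H (projIcc 0 1 zero_le_one p.1, projIcc 0 1 zero_le_one p.2)
  have hF : Continuous F := by fun_prop
  have h1 := coc_tri hφ hF (0, 0) (0, 1) (1, 1)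
  have h2 := coc_tri hφ hF (0, 0) (1, 0) (1, 1)
  rw [edge_congr (G := γ.extend) (v' := 0) (w' := 1) fun t ht => by
      simp [F, Path.extend_apply _ ht, projIcc_of_mem _ ht],
    edge_congr (v := (0, 1)) (G := (Path.refl y).extend) (v' := 0) (w' := 1) fun t ht => by
      simp [F]] at h1
  rw [edge_congr (G := (Path.refl x).extend) (v' := 0) (w' := 1) fun t ht => by simp [F],
    edge_congr (v := (1, 0)) (G := δ.extend) (v' := 0) (w' := 1) fun t ht => by
      simp [F, Path.extend_apply _ ht, projIcc_of_mem _ ht]] at h2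
  have h3 := pc_refl hφ x
  have h4 := pc_refl hφ y
  simp only [pc] at h3 h4 ⊢
  linear_combination h1 - h2 + h3 - h4

lemma pc_symm (γ : Path x y) : φ (pc R γ.symm) = -φ (pc R γ) := by
  have := pc_homotopic hφ (Path.Homotopic.trans_symm γ)
  rw [pc_trans hφ, pc_refl hφ] at this
  linear_combination this

/-- The homomorphism on the fundamental group given by a cocycle. -/
noncomputable def piHom (x : Y) : FundamentalGroup Y x →* Multiplicative R :=
  MonoidHom.mk' (fun p => Quotient.lift (fun γ : Path x x => Multiplicative.ofAdd (φ (pc R γ)))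
    (fun _ _ h => congrArg _ (pc_homotopic hφ h)) p) (by
      rintro ⟨p⟩ ⟨q⟩
      exact (congrArg Multiplicative.ofAdd ((pc_trans hφ q p).trans (add_comm _ _))))

lemma piHom_mk (γ : Path x x) : piHom hφ x (Path.Homotopic.Quotient.mk γ) =
    Multiplicative.ofAdd (φ (pc R γ)) := rfl

lemma dies_of_loops [PathConnectedSpace Y] (h : ∀ γ : Path x x, φ (pc R γ) = 0) :
    Dies univ 1 φ := by
  refine ⟨pv fun y => φ (pc R (PathConnectedSpace.somePath x y)), fun c hc =>
    eq_edge (f := φ) (g := pv (fun y => φ (pc R (PathConnectedSpace.somePath x y))) ∘ₗ D)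
      (fun F hF _ v w => ?_) hc⟩
  have := h (((PathConnectedSpace.somePath x _).trans ((Path.segment v w).map hF)).trans
    (PathConnectedSpace.somePath x _).symm)
  rw [pc_trans hφ, pc_trans hφ, pc_symm hφ, ← edge_eq_pc hF] at this
  rw [LinearMap.comp_apply, D_edge hF, map_sub, pv_pt, pv_pt]
  linear_combination this

end coc

/-! ### The circle -/

lemma exists_lift {A : Type*} [TopologicalSpace A] [SimplyConnectedSpace A]
    [LocallyPathConnectedSpace A] {F : A → UnitAddCircle} (hF : Continuous F) :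
    ∃ G : A → ℝ, Continuous G ∧ F = (↑) ∘ G := by
  obtain ⟨a⟩ : Nonempty A := inferInstance
  obtain ⟨e, he⟩ := QuotientAddGroup.mk_surjective (F a)
  obtain ⟨G, ⟨-, h⟩, -⟩ := (AddCircle.isCoveringMap_coe (1 : ℝ)).existsUnique_continuousMap_lifts
    ⟨F, hF⟩ a e he
  exact ⟨G, G.continuous, h.symm⟩

open Classical in
/-- The displacement of a lift of an edge of the circle. -/
noncomputable def disp : C ℝ UnitAddCircle →ₗ[ℝ] ℝ := lc fun s =>
  if h : ∃ g : V → ℝ, ContinuousOn g (Δ s.n) ∧ EqOn ((↑) ∘ g) s.f (Δ s.n) then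
    h.choose (Pi.single 1 1) - h.choose (Pi.single 0 1) else 0

lemma disp_real {G : W → ℝ} (hG : Continuous G) (v w : W) :
    disp (real ((↑) ∘ G) (single [v, w] 1)) = G w - G v := by
  have hc := hG.comp (continuous_aff [v, w])
  have h : ∃ g : V → ℝ, ContinuousOn g (Δ 2) ∧ EqOn ((↑) ∘ g)
      (mk 2 (((↑) ∘ G : W → UnitAddCircle) ∘ aff [v, w])).f (Δ 2) :=
    ⟨G ∘ aff [v, w], hc.continuousOn,
      (mk_f (continuous_quotient_mk'.comp hc).continuousOn).symm⟩
  rw [real_single, disp, linearCombination_single, one_smul]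
  refine (dif_pos h).trans ?_
  obtain ⟨h1, h2⟩ := h.choose_spec
  have h3 : ∀ t ∈ Δ 2, ((h.choose t - G (aff [v, w] t) : ℝ) : UnitAddCircle) = 0 := fun t ht => by
    rw [AddCircle.coe_sub, sub_eq_zero]
    exact (h2 ht).trans (mk_f (continuous_quotient_mk'.comp hc).continuousOn ht)
  have := (AddCircle.isCoveringMap_coe (1 : ℝ)).constOn_of_comp (convex_Δ 2).isPreconnected
    (h1.sub hc.continuousOn) (fun a ha b hb => (h3 a ha).trans (h3 b hb).symm)
    (single_mem_Δ (i := 1) (by omega)) (single_mem_Δ (i := 0) (by omega))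
  simp [aff_apply, Finset.sum_range_succ] at this
  exact (show h.choose (Pi.single 1 1) - h.choose (Pi.single 0 1) = _ by linear_combination this)

attribute [irreducible] disp

/-- The displacement cocycle of a map to the circle. -/
noncomputable def xf (f : Y → UnitAddCircle) : C ℝ Y →ₗ[ℝ] ℝ := disp ∘ₗ map f

lemma xf_real {f : Y → UnitAddCircle} {F : W → Y} (hF : Continuous F) {G : W → ℝ}
    (hG : Continuous G) (h : f ∘ F = (↑) ∘ G) (v w : W) :
    xf f (real F (single [v, w] 1)) = G w - G v := by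
  rw [xf, LinearMap.comp_apply, map_glob hF, h, disp_real hG]

lemma xf_map {g : X → Y} (hg : Continuous g) (f : Y → UnitAddCircle) :
    xf f ∘ₗ map g = xf (f ∘ g) := LinearMap.ext fun c => congrArg disp (map_map' hg f c)

lemma xf_map' {g : X → Y} (hg : Continuous g) (f : Y → UnitAddCircle) (c : C ℝ X) :
    xf f (map g c) = xf (f ∘ g) c := congrArg disp (map_map' hg f c)

variable {f g : Y → UnitAddCircle}

lemma Coc_xf (hf : Continuous f) : Coc univ 1 (xf f) := Coc_of_tri fun F hF u v w => by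
  obtain ⟨G, hG, h⟩ := exists_lift (hf.comp hF)
  simp only [xf_real hF hG h]
  ring

lemma xf_add (hf : Continuous f) (hg : Continuous g) {c : C ℝ Y} (hc : c ∈ In ℝ univ 2) :
    xf (f + g) c = xf f c + xf g c := eq_edge (g := xf f + xf g) (fun F hF _ v w => by
  obtain ⟨G, hG, h⟩ := exists_lift (hf.comp hF)
  obtain ⟨G', hG', h'⟩ := exists_lift (hg.comp hF)
  rw [LinearMap.add_apply, xf_real hF hG h, xf_real hF hG' h', xf_real hF (hG.add hG')
    (funext fun t => by simpa using congrArg₂ (· + ·) (congrFun h t) (congrFun h' t))]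
  simp only [Pi.add_apply]
  ring) hc

lemma xf_lift {A : Set Y} {G : Y → ℝ} (hG : ContinuousOn G A) (h : ∀ y ∈ A, f y = G y)
    {c : C ℝ Y} (hc : c ∈ In ℝ A 2) : xf f c = pv G (D c) :=
  eq_edge (g := pv G ∘ₗ D) (fun F hF hA v w => by
    rw [xf_real hF (hG.comp_continuous hF hA) (funext fun t => h _ (hA t)), LinearMap.comp_apply,
      D_edge hF, map_sub, pv_pt, pv_pt]
    rfl) hc

lemma xf_const (a : UnitAddCircle) {c : C ℝ Y} (hc : c ∈ In ℝ univ 2) :
    xf (fun _ => a) c = 0 := eq_edge (g := 0) (fun F hF _ v w => by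
  obtain ⟨e, rfl⟩ := QuotientAddGroup.mk_surjective a
  simp [xf_real (f := fun _ => (e : UnitAddCircle)) hF (continuous_const (y := e)) rfl,
    -real_single]) hc

/-- An integral cocycle cohomologous to the displacement cocycle. -/
lemma exists_int (hf : Continuous f) : ∃ y : C ℤ Y →ₗ[ℤ] ℤ, Coc univ 1 y ∧
    Dies univ 1 (xf f - bc (Int.castRingHom ℝ) y) := by
  choose r hr using QuotientAddGroup.mk_surjective (s := AddSubgroup.zmultiples (1 : ℝ))
  have key : ∀ c ∈ In ℝ univ 2, xf f c - bc (Int.castRingHom ℝ) (lc fun s =>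
      round (xf f (single s 1) - pv (r ∘ f) (D (single s 1)))) c = pv (r ∘ f) (D c) := fun c hc => by
    refine eq_edge (f := xf f - bc (Int.castRingHom ℝ) _) (g := pv (r ∘ f) ∘ₗ D)
      (fun F hF _ v w => ?_) hc
    obtain ⟨G, hG, h⟩ := exists_lift (hf.comp hF)
    have h1 : ∀ t, ∃ n : ℤ, r (f (F t)) = G t + n := fun t => by
      obtain ⟨n, hn⟩ := AddSubgroup.mem_zmultiples_iff.1
        (QuotientAddGroup.eq.1 ((congrFun h t).symm.trans (hr _).symm))
      exact ⟨n, by simp at hn; simp [hn]⟩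
    obtain ⟨n, hn⟩ := h1 v
    obtain ⟨m, hm⟩ := h1 w
    rw [LinearMap.sub_apply, bc_real, real_single (R := ℤ), linearCombination_single, one_smul,
      ← real_single, LinearMap.comp_apply, D_edge hF, xf_real hF hG h, map_sub, pv_pt, pv_pt,
      Function.comp_apply, Function.comp_apply, hn, hm, show G w - G v - (G w + m - (G v + n)) =
        ((n - m : ℤ) : ℝ) by push_cast; ring, round_intCast]
    simp
    ring
  refine ⟨_, fun c hc => ?_, _, key⟩
  have := key _ (cf_In (Int.castRingHom ℝ) (D_In hc))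
  rw [bc_cf, cf_D, D_D, Coc_xf hf _ (cf_In _ hc)] at this
  simpa using this

lemma xf_int (hf : Continuous f) {c : C ℤ Y} (hc : c ∈ Z ℤ univ ∅ 1) :
    ∃ n : ℤ, xf f (cf (Int.castRingHom ℝ) c) = n := by
  obtain ⟨y, -, h⟩ := exists_int hf
  exact ⟨y c, by simpa [bc_cf, sub_eq_zero] using h.apply_Z (cf_Z (Int.castRingHom ℝ) hc)⟩

end Pool.Agent.Shared.SingEZ
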