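import Pool.Agent.Shared.Sing.Glob

/-! The shuffle (Eilenberg-Zilber) cross product. -/

set_option linter.unusedSectionVars false
set_option maxSynthPendingDepth 3

namespace Pool.Agent.Shared.SingEZ

open Finsupp Set Pool.Agent.Shared.Sing
open scoped TensorProduct

variable {R : Type} [CommRing R] {α β α' β' : Type*}

variable (R) in
/-- The shuffle product of two lists. -/
noncomputable def sh : List α → List β → Ch R (α × β)
  | [], _ => 0
  | _ :: _, [] => 0
  | a :: l, b :: m => cone (a, b) ((if l.length + m.length = 0 then single [] 1 else 0) +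
      sh l (b :: m) + (-1 : R) ^ l.length • sh (a :: l) m)
termination_by l m => l.length + m.length

variable (R) in
/-- The shuffles which start in the first factor. -/
noncomputable def shA : List α → List β → Ch R (α × β)
  | a :: l, b :: m => cone (a, b) (sh R l (b :: m))
  | _, _ => 0

@[simp] lemma sh_nil (m : List β) : sh R ([] : List α) m = 0 := by rw [sh]

@[simp] lemma sh_nil' (l : List α) : sh R l ([] : List β) = 0 := by cases l <;> rw [sh]

lemma sh_ind {P : List α → List β → Prop} (h0 : ∀ m, P [] m) (h1 : ∀ l, P l [])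
    (h2 : ∀ a l b m, P l (b :: m) → P (a :: l) m → P (a :: l) (b :: m)) (l : List α) (m : List β) :
    P l m := by
  induction l generalizing m with
  | nil => exact h0 m
  | cons a l ih =>
    induction m with
    | nil => exact h1 _
    | cons b m ih' => exact h2 a l b m (ih _) ih'

/-- The shuffle product of chains of lists. -/
noncomputable def shB : Ch R α →ₗ[R] Ch R β →ₗ[R] Ch R (α × β) := lc fun l => lc (sh R l)

@[simp] lemma shB_single (l : List α) (m : List β) :
    shB (single l (1 : R)) (single m 1) = sh R l m := by simp [shB]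

attribute [irreducible] shB

/-- The sign operator. -/
noncomputable def sgL : Ch R α →ₗ[R] Ch R α := lc fun l => (-1 : R) ^ l.length • single l 1

lemma sgL_single (l : List α) : sgL (single l (1 : R)) = (-1 : R) ^ l.length • single l 1 := by
  rw [sgL, linearCombination_single, one_smul]

attribute [irreducible] sgL

lemma sgL_bdL (l : List α) : sgL (bdL R l) = -(-1 : R) ^ l.length • bdL R l :=
  map_eq (R := R) (F := sgL) (G := -(-1 : R) ^ l.length • LinearMap.id) (fun m hm => by
    rw [sgL_single, ← hm.1, pow_succ]; simp) (bdL_mem l)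

lemma meq₂ {M : Type*} [AddCommMonoid M] [Module R M] {f g : (α →₀ R) →ₗ[R] (β →₀ R) →ₗ[R] M}
    (h : ∀ a b, f (single a 1) (single b 1) = g (single a 1) (single b 1)) (c : α →₀ R)
    (d : β →₀ R) : f c d = g c d :=
  meq (F := f.flip d) (G := g.flip d)
    (fun a _ => meq (F := f _) (G := g _) (fun b _ => h a b) (mem_top d)) (mem_top c)

lemma single_nil (l : List α) : single l (1 : R) [] = if l.length = 0 then 1 else 0 := by
  cases l <;> simp

lemma cone_nil (a : α) (c : Ch R α) : cone a c [] = 0 :=
  map_eq (F := lapply [] ∘ₗ cone a) (G := 0) (fun l _ => by simp) (mem_top c)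

lemma bdL_nil (l : List α) : bdL R l [] = if l.length = 1 then 1 else 0 := by
  cases l <;> simp [bdL, cone_nil, single_nil]

lemma shB_cone (a : α) (b : β) (c : Ch R α) (d : Ch R β) : shB (cone a c) (cone b d) =
    cone (a, b) ((c [] * d []) • single [] 1 + shB c (cone b d) + shB (cone a (sgL c)) d) := by
  refine meq₂ (f := shB.compl₁₂ (cone a) (cone b)) (g := LinearMap.compr₂
    ((((LinearMap.mul R R).compl₁₂ (lapply []) (lapply [])).compr₂
      (LinearMap.toSpanSingleton R _ (single [] 1))) + shB.compl₂ (cone b) +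
      shB ∘ₗ cone a ∘ₗ sgL) (cone (a, b))) (fun l m => ?_) c d
  simp only [LinearMap.compl₁₂_apply, cone_single, shB_single, LinearMap.compr₂_apply,
    LinearMap.add_apply, LinearMap.compl₂_apply, LinearMap.comp_apply, sgL_single, map_smul,
    LinearMap.smul_apply, lapply_apply, single_nil, LinearMap.mul_apply',
    LinearMap.toSpanSingleton_apply]
  rw [sh]
  congr 3
  cases l <;> cases m <;> simp

theorem bd_sh (l : List α) (m : List β) : bd (sh R l m) = shB (bdL R l) (single m 1) -
    (-1 : R) ^ l.length • shB (single l 1) (bdL R m) + (bdL R l [] * bdL R m []) • single [] 1 := by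
  have z1 : ∀ d : Ch R β, shB (single ([] : List α) (1 : R)) d = 0 := fun d =>
    map_eq (F := shB _) (G := 0) (fun m _ => by simp) (mem_top d)
  have z2 : ∀ c : Ch R α, shB c (single ([] : List β) (1 : R)) = 0 := fun c =>
    map_eq (F := shB.flip _) (G := 0) (fun m _ => by simp) (mem_top c)
  induction l, m using sh_ind with
  | h0 m => simp [bdL, z1]
  | h1 l => simp [bdL, z2]
  | h2 a l b m h1 h2 =>
    have e1 := shB_cone a b (bdL R l) (single m 1)
    have e2 := shB_cone a b (single l (1 : R)) (bdL R m)
    have e3 : (if l.length + m.length = 0 then single [] 1 else 0 : Ch R (α × β)) =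
        (single l (1 : R) [] * single m (1 : R) []) • single [] 1 := by
      cases l <;> cases m <;> simp
    have e4 : ∀ x : Ch R (α × β), bd (cone (a, b) x) = x - cone (a, b) (bd x) := fun x => by
      linear_combination (norm := module) bd_cone (a, b) x
    rw [sh, e4, e3]
    simp only [map_add, map_smul, h1, h2, bd_single, bdL, map_sub, LinearMap.sub_apply, shB_single,
      sgL_bdL, sgL_single, cone_single, LinearMap.smul_apply, List.length_cons, pow_succ,
      Finsupp.sub_apply, cone_nil, sub_zero, map_zero] at e1 e2 ⊢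
    rw [e1, e2]
    rcases neg_one_pow_eq_or R l.length with h | h <;> rw [h] <;> module

lemma lmap_sh (f : α → α') (g : β → β') (l : List α) (m : List β) :
    lmap (Prod.map f g) (sh R l m) = sh R (l.map f) (m.map g) := by
  induction l, m using sh_ind with
  | h0 m => simp
  | h1 l => simp
  | h2 a l b m h1 h2 =>
    rw [sh, List.map_cons, List.map_cons, sh, lmap_cone, map_add (lmap _), map_add (lmap _), map_smul, h1, h2]
    split_ifs <;> simp_all

lemma lmap_shA (f : α → α') (g : β → β') (l : List α) (m : List β) :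
    lmap (Prod.map f g) (shA R l m) = shA R (l.map f) (m.map g) := by
  cases l <;> cases m <;> simp [shA, lmap_cone, lmap_sh]

lemma sh_Lin {K : Set α} {K' : Set β} {l : List α} {m : List β} (hl : ∀ x ∈ l, x ∈ K)
    (hm : ∀ x ∈ m, x ∈ K') : sh R l m ∈ Lin R (K ×ˢ K') (l.length + m.length - 1) := by
  induction l, m using sh_ind with
  | h0 m => simp
  | h1 l => simp
  | h2 a l b m h1 h2 =>
    rw [sh, show (a :: l).length + (b :: m).length - 1 = l.length + m.length + 1 by simp; omega]
    refine cone_Lin (mk_mem_prod (hl a (by simp)) (hm b (by simp))) (add_mem (add_mem ?_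
      (h1 (fun x hx => hl x (by simp [hx])) hm)) (Submodule.smul_mem _ _ ?_))
    · split_ifs with h
      · exact single_mem ⟨h.symm, by simp⟩
      · exact zero_mem _
    · convert h2 hl fun x hx => hm x (by simp [hx]) using 2
      simp

lemma shA_Lin {K : Set α} {K' : Set β} {l : List α} {m : List β} (hl : ∀ x ∈ l, x ∈ K)
    (hm : ∀ x ∈ m, x ∈ K') : shA R l m ∈ Lin R (K ×ˢ K') (l.length + m.length - 1) := by
  obtain _ | ⟨a, l⟩ := l
  · simp [shA]
  obtain _ | ⟨b, m⟩ := m
  · simp [shA]
  rw [shA, show (a :: l).length + (b :: m).length - 1 = l.length + m.length + 1 by simp; omega]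
  exact cone_Lin (mk_mem_prod (hl a (by simp)) (hm b (by simp))) (sh_Lin (fun x hx => hl x (by simp [hx])) hm)

lemma swap_sh (l : List α) (m : List β) :
    lmap Prod.swap (sh R l m) = (-1 : R) ^ ((l.length + 1) * (m.length + 1)) • sh R m l := by
  induction l, m using sh_ind with
  | h0 m => simp
  | h1 l => simp
  | h2 a l b m h1 h2 =>
    rw [sh, sh, lmap_cone, map_add (lmap _), map_add (lmap _), map_smul, h1, h2, ← map_smul]
    congr 1
    by_cases h : l.length + m.length = 0
    · obtain rfl := List.length_eq_zero_iff.1 (show l.length = 0 by omega)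
      obtain rfl := List.length_eq_zero_iff.1 (show m.length = 0 by omega)
      simp
      norm_num
    rw [if_neg h, if_neg (by omega)]
    simp only [List.length_cons, add_mul, mul_add, pow_add, pow_mul, map_zero]
    rcases neg_one_pow_eq_or R l.length with h | h <;>
      rcases neg_one_pow_eq_or R m.length with h' | h' <;> simp [h, h', add_comm]

lemma sh_half (l : List α) (m : List β) (h : l.length + m.length ≠ 2) : sh R l m = shA R l m +
    (-1 : R) ^ ((l.length + 1) * (m.length + 1)) • lmap Prod.swap (shA R m l) := by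
  obtain _ | ⟨a, l⟩ := l
  · cases m <;> simp [shA]
  obtain _ | ⟨b, m⟩ := m
  · simp [shA]
  rw [sh, shA, shA, lmap_cone, swap_sh, if_neg (by simp at h; omega), zero_add, map_add]
  simp only [List.length_cons, add_mul, mul_add, pow_add, pow_mul, map_smul, smul_smul]
  rcases neg_one_pow_eq_or R l.length with h | h <;>
    rcases neg_one_pow_eq_or R m.length with h' | h' <;> simp [h, h']

lemma cf_sh {S : Type} [CommRing S] (φ : R →+* S) (l : List α) (m : List β) :
    cf φ (sh R l m) = sh S l m := by
  induction l, m using sh_ind with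
  | h0 m => simp
  | h1 l => simp
  | h2 a l b m h1 h2 =>
    rw [sh, sh, cf_cone, map_add (cf φ), map_add (cf φ), cf_smul, h1, h2]
    split_ifs <;> simp

lemma shB_nil (d : Ch R β) : shB (single ([] : List α) (1 : R)) d = 0 :=
  map_eq (F := shB _) (G := 0) (fun m _ => by simp) (mem_top d)

lemma sh_one (a : α) (m : List β) : sh R [a] m = single (m.map fun y => (a, y)) 1 -
    (if m.length = 0 then single [] 1 else 0) := by
  induction m with
  | nil => simp
  | cons b m ih => rw [sh, ih]; simp

lemma sh_one' (l : List α) (b : β) : sh R l [b] = single (l.map fun x => (x, b)) 1 -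
    (if l.length = 0 then single [] 1 else 0) := by
  induction l with
  | nil => simp
  | cons a l ih => rw [sh, ih]; simp

lemma capL_sh_fst (k : ℕ) (φ : Ch R α →ₗ[R] R)
    (hφ : ∀ u a w, u.length + w.length + 1 = k → φ (single (u ++ a :: a :: w) 1) = 0)
    (l : List α) (m : List β) :
    lc (capL k (φ ∘ₗ lmap Prod.fst)) (sh R l m) = shB (capL k φ l) (single m 1) := by
  induction k generalizing φ l m with
  | zero =>
    obtain _ | ⟨a, l⟩ := l
    · simp [capL_nil]
    obtain _ | ⟨b, m⟩ := m
    · simp [capL_zero, -smul_single]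
    rw [capL_zero, map_smul, LinearMap.smul_apply, shB_single, sh, lc_capL_zero]
    simp
  | succ k ih =>
    obtain _ | ⟨a, l⟩ := l
    · simp [capL_nil]
    obtain _ | ⟨b, m⟩ := m
    · rw [sh_nil', map_zero, capL]
      split_ifs <;> simp [-smul_single]
    have e : (φ ∘ₗ lmap Prod.fst) ∘ₗ cone (a, b) = (φ ∘ₗ cone a) ∘ₗ lmap Prod.fst :=
      LinearMap.ext fun c => by simp [lmap_cone]
    have h : ∀ u x w, u.length + w.length + 1 = k →
        (φ ∘ₗ cone a) (single (u ++ x :: x :: w) 1) = 0 := fun u x w h => by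
      simpa using hφ (a :: u) x w (by simp; omega)
    have h0 : capL k (φ ∘ₗ cone a) (a :: l) = 0 := by
      unfold capL
      split_ifs with h1
      · rw [show (φ ∘ₗ cone a) (single ((a :: l).take (k + 1)) 1) = 0 by
          simpa using hφ [] a (l.take k) (by simp at h1 ⊢; omega), zero_smul]
      · rfl
    rw [sh, lc_capL_cone, e, map_add, map_add, map_smul, ih _ h, ih _ h, h0, capL_cons]
    split_ifs <;> simp [capL_nil]

lemma capL_sh_snd (k : ℕ) (φ : Ch R β →ₗ[R] R)
    (hφ : ∀ u a w, u.length + w.length + 1 = k → φ (single (u ++ a :: a :: w) 1) = 0)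
    (l : List α) (m : List β) : lc (capL k (φ ∘ₗ lmap Prod.snd)) (sh R l m) =
      (-1 : R) ^ (k * (l.length + 1)) • shB (single l 1) (capL k φ m) := by
  induction k generalizing φ l m with
  | zero =>
    obtain _ | ⟨b, m⟩ := m
    · simp [capL_nil]
    obtain _ | ⟨a, l⟩ := l
    · simp [capL_zero, -smul_single]
    rw [capL_zero, map_smul, shB_single, sh, lc_capL_zero]
    simp
  | succ k ih =>
    obtain _ | ⟨b, m⟩ := m
    · simp [capL_nil]
    obtain _ | ⟨a, l⟩ := l
    · simp [shB_nil]
    have e : (φ ∘ₗ lmap Prod.snd) ∘ₗ cone (a, b) = (φ ∘ₗ cone b) ∘ₗ lmap Prod.snd :=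
      LinearMap.ext fun c => by simp [lmap_cone]
    have h : ∀ u x w, u.length + w.length + 1 = k →
        (φ ∘ₗ cone b) (single (u ++ x :: x :: w) 1) = 0 := fun u x w h => by
      simpa using hφ (b :: u) x w (by simp; omega)
    have h0 : capL k (φ ∘ₗ cone b) (b :: m) = 0 := by
      unfold capL
      split_ifs with h1
      · rw [show (φ ∘ₗ cone b) (single ((b :: m).take (k + 1)) 1) = 0 by
          simpa using hφ [] b (m.take k) (by simp at h1 ⊢; omega), zero_smul]
      · rfl
    rw [sh, lc_capL_cone, e, map_add, map_add, map_smul, ih _ h, ih _ h, h0, capL_cons, smul_smul,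
      ← pow_add, show (k + 1) * ((a :: l).length + 1) = l.length + k * ((a :: l).length + 1) + 2 by
        simp; ring, pow_add _ _ 2]
    split_ifs <;> simp [capL_nil]

variable {X Y X' Y' : Type*} [TopologicalSpace X] [Nonempty X] [TopologicalSpace Y] [Nonempty Y]
  [TopologicalSpace X'] [Nonempty X'] [TopologicalSpace Y'] [Nonempty Y']

/-- A natural bilinear operator given by affine models. -/
noncomputable def op2 (O : List V → List V → Ch R (V × V)) : C R X →ₗ[R] C R Y →ₗ[R] C R (X × Y) :=
  lc fun s => lc fun t => real (Prod.map s.f t.f) (O (std s.n) (std t.n))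

lemma op2_single (O : List V → List V → Ch R (V × V)) (s : Sx X) (t : Sx Y) :
    op2 O (single s 1) (single t 1) = real (Prod.map s.f t.f) (O (std s.n) (std t.n)) := by
  simp [op2]

attribute [irreducible] op2

/-- The cross product. -/
noncomputable def cross : C R X →ₗ[R] C R Y →ₗ[R] C R (X × Y) := op2 (sh R)

/-- Half of the cross product. -/
noncomputable def crossA : C R X →ₗ[R] C R Y →ₗ[R] C R (X × Y) := op2 (shA R)

/-- The sign operator. -/
noncomputable def sg : C R X →ₗ[R] C R X := lc fun s => (-1 : R) ^ s.n • single s 1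

lemma sg_single (s : Sx X) : sg (single s (1 : R)) = (-1 : R) ^ s.n • single s 1 := by
  rw [sg, linearCombination_single, one_smul]

attribute [irreducible] sg

lemma sg_In {A : Set X} {n : ℕ} {c : C R X} (hc : c ∈ In R A n) : sg c = (-1 : R) ^ n • c :=
  map_eq (G := (-1 : R) ^ n • LinearMap.id) (fun s hs => by rw [sg_single, hs.1]; rfl) hc

section glob

variable {W W' : Type*} [AddCommGroup W] [Module ℝ W] [TopologicalSpace W] [ContinuousAdd W]
  [ContinuousSMul ℝ W] [AddCommGroup W'] [Module ℝ W'] [TopologicalSpace W'] [ContinuousAdd W']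
  [ContinuousSMul ℝ W'] {F : W → X} {G : W' → Y} (hF : Continuous F) (hG : Continuous G)

lemma sg_real (F : W → X) (c : Ch R W) : sg (real F c) = real F (sgL c) :=
  map_eq (F := sg ∘ₗ real F) (G := real F ∘ₗ sgL) (fun l _ => by
    simp only [LinearMap.comp_apply, sgL_single, map_smul, real_single, sg_single, mk_n])
    (mem_top c)

include hF hG

lemma op2_real {O : List V → List V → Ch R (V × V)} {O' : List W → List W' → Ch R (W × W')}
    (hO : ∀ n m, O (std n) (std m) ∈ Lin R (Δ n ×ˢ Δ m) (n + m - 1))
    (hn : ∀ (φ : V → W) (ψ : V → W') l m, lmap (Prod.map φ ψ) (O l m) = O' (l.map φ) (m.map ψ))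
    (l : List W) (m : List W') : op2 O (real F (single l 1)) (real G (single m 1)) =
      real (Prod.map F G) (O' l m) := by
  rw [real_single, real_single, op2_single, mk_n, mk_n]
  conv_rhs => rw [← map_aff_std l, ← map_aff_std m, ← hn]
  rw [show Prod.map (aff l) (aff m) = (aff l).prodMap (aff m) from rfl, real_lmap]
  exact real_congr ((convex_Δ _).prod (convex_Δ _)) (fun p hp => Prod.ext
    (mk_f (hF.comp (continuous_aff l)).continuousOn hp.1)
    (mk_f (hG.comp (continuous_aff m)).continuousOn hp.2)) (hO _ _)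

lemma cross_single (l : List W) (m : List W') :
    cross (real F (single l 1)) (real G (single m 1)) = real (Prod.map F G) (sh R l m) :=
  op2_real hF hG (fun n m => by simpa using sh_Lin (R := R) (std_mem (n := n)) (std_mem (n := m)))
    lmap_sh l m

lemma crossA_single (l : List W) (m : List W') :
    crossA (real F (single l 1)) (real G (single m 1)) = real (Prod.map F G) (shA R l m) :=
  op2_real hF hG (fun n m => by simpa using shA_Lin (R := R) (std_mem (n := n)) (std_mem (n := m)))
    lmap_shA l m

lemma cross_real (c : Ch R W) (d : Ch R W') :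
    cross (real F c) (real G d) = real (Prod.map F G) (shB c d) :=
  meq₂ (f := cross.compl₁₂ (real F) (real G)) (g := shB.compr₂ (real (Prod.map F G)))
    (fun l m => by
      simp only [LinearMap.compl₁₂_apply, LinearMap.compr₂_apply, cross_single hF hG, shB_single])
    c d

end glob

attribute [irreducible] cross crossA

section two

variable {M : Type*} [AddCommMonoid M] [Module R M] {f g : C R X →ₗ[R] C R Y →ₗ[R] M}
  {A : Set X} {B : Set Y} {p q : ℕ} {c : C R X} {d : C R Y}

lemma mem_In₂ {P : Submodule R M} (h : ∀ (F : V → X) (G : V → Y), Continuous F → Continuous G →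
      (∀ t, F t ∈ A) → (∀ t, G t ∈ B) → ∀ l m : List V, l.length = p + 1 → m.length = q + 1 →
      f (real F (single l 1)) (real G (single m 1)) ∈ P)
    (hc : c ∈ In R A (p + 1)) (hd : d ∈ In R B (q + 1)) : f c d ∈ P :=
  mem_In (f := f.flip d) (fun F hF hA l hl => mem_In (f := f _)
    (fun G hG hB m hm => h F G hF hG hA hB l m hl hm) hd) hc

lemma eq_In₂ (h : ∀ (F : V → X) (G : V → Y), Continuous F → Continuous G →
      ∀ l m : List V, l.length = p + 1 → m.length = q + 1 →
      f (real F (single l 1)) (real G (single m 1)) = g (real F (single l 1)) (real G (single m 1)))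
    (hc : c ∈ In R A (p + 1)) (hd : d ∈ In R B (q + 1)) : f c d = g c d :=
  eq_In (f := f.flip d) (g := g.flip d) (fun F hF _ l hl => eq_In (f := f _) (g := g _)
    (fun G hG _ m hm => h F G hF hG l m hl hm) hd) hc

lemma eq_all₂ (h : ∀ (F : V → X) (G : V → Y), Continuous F → Continuous G → ∀ l m : List V,
      f (real F (single l 1)) (real G (single m 1)) = g (real F (single l 1)) (real G (single m 1)))
    (c : C R X) (d : C R Y) : f c d = g c d :=
  eq_all (f := f.flip d) (g := g.flip d) (fun F hF l => eq_all (f := f _) (g := g _)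
    (fun G hG m => h F G hF hG l m) d) c

theorem D_cross (c : C R X) (d : C R Y) : D (cross c d) =
    cross (D c) d - cross (sg c) (D d) + (e1 c * e1 d) • emp R (X × Y) := by
  refine eq_all₂ (f := cross.compr₂ D) (g := cross ∘ₗ D - cross.compl₁₂ sg D +
    ((LinearMap.mul R R).compl₁₂ e1 e1).compr₂ (LinearMap.toSpanSingleton R _ (emp R (X × Y))))
    (fun F G hF hG l m => ?_) c d
  simp only [LinearMap.compr₂_apply, LinearMap.add_apply, LinearMap.sub_apply,
    LinearMap.comp_apply, LinearMap.compl₁₂_apply, LinearMap.mul_apply',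
    LinearMap.toSpanSingleton_apply, D_glob hF, D_glob hG, sg_real, cross_real hF hG, shB_single,
    D_glob (hF.prodMap hG), bd_sh, map_add, map_sub, map_smul, real_nil, e1_real, bdL_nil,
    bd_single, sgL_single, LinearMap.smul_apply]

lemma cross_In (hc : c ∈ In R A (p + 1)) (hd : d ∈ In R B (q + 1)) :
    cross c d ∈ In R (A ×ˢ B) (p + q + 1) := by
  refine mem_In₂ (fun F G hF hG hA hB l m hl hm => ?_) hc hd
  rw [cross_single hF hG]
  refine real_In convex_univ (hF.prodMap hG).continuousOn (fun t _ => mk_mem_prod (hA _) (hB _)) ?_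
  convert sh_Lin (R := R) (K := univ) (K' := univ) (l := l) (m := m) (by simp) (by simp) using 2
  · simp
  · omega

lemma crossA_In (hc : c ∈ In R A (p + 1)) (hd : d ∈ In R B (q + 1)) :
    crossA c d ∈ In R (A ×ˢ B) (p + q + 1) := by
  refine mem_In₂ (fun F G hF hG hA hB l m hl hm => ?_) hc hd
  rw [crossA_single hF hG]
  refine real_In convex_univ (hF.prodMap hG).continuousOn (fun t _ => mk_mem_prod (hA _) (hB _)) ?_
  convert shA_Lin (R := R) (K := univ) (K' := univ) (l := l) (m := m) (by simp) (by simp) using 2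
  · simp
  · omega

lemma cross_In' (hc : c ∈ In R univ (p + 1)) (hd : d ∈ In R univ (q + 1)) :
    cross c d ∈ In R univ (p + q + 1) := In_univ (cross_In hc hd)

lemma map_cross {u : X → X'} {v : Y → Y'} (hu : Continuous u) (hv : Continuous v) (c : C R X)
    (d : C R Y) : map (Prod.map u v) (cross c d) = cross (map u c) (map v d) :=
  eq_all₂ (f := cross.compr₂ (map (Prod.map u v))) (g := cross.compl₁₂ (map u) (map v))
    (fun F G hF hG l m => by
      simp only [LinearMap.compr₂_apply, LinearMap.compl₁₂_apply, cross_single hF hG, map_glob hF,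
        map_glob hG, cross_single (hu.comp hF) (hv.comp hG), map_glob (hF.prodMap hG),
        Prod.map_comp_map]) c d

lemma real_swap {F : V → X} {G : V → Y} (hF : Continuous F) (hG : Continuous G)
    (c : Ch R (V × V)) :
    map Prod.swap (real (Prod.map F G) c) = real (Prod.map G F) (lmap Prod.swap c) := by
  rw [map_glob (hF.prodMap hG), show (Prod.swap : V × V → V × V) =
    (LinearEquiv.prodComm ℝ V V).toLinearMap from rfl, real_lmap]
  rfl

lemma swap_cross (hc : c ∈ In R A (p + 1)) (hd : d ∈ In R B (q + 1)) :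
    map Prod.swap (cross c d) = (-1 : R) ^ (p * q) • cross d c := by
  refine eq_In₂ (f := cross.compr₂ (map Prod.swap)) (g := (-1 : R) ^ (p * q) • cross.flip)
    (fun F G hF hG l m hl hm => ?_) hc hd
  simp only [LinearMap.compr₂_apply, LinearMap.smul_apply, LinearMap.flip_apply,
    cross_single hF hG, cross_single hG hF, real_swap hF hG, swap_sh, map_smul, hl, hm]
  congr 1
  simp only [add_mul, mul_add, pow_add, pow_mul]
  rcases neg_one_pow_eq_or R p with h | h <;> rcases neg_one_pow_eq_or R q with h' | h' <;>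
    simp [h, h']

lemma cross_half (hc : c ∈ In R A 3) (hd : d ∈ In R B 3) :
    cross c d = crossA c d + map Prod.swap (crossA d c) := by
  refine eq_In₂ (g := crossA + crossA.flip.compr₂ (map Prod.swap))
    (fun F G hF hG l m hl hm => ?_) hc hd
  simp only [LinearMap.compr₂_apply, LinearMap.add_apply, LinearMap.flip_apply,
    cross_single hF hG, crossA_single hF hG, crossA_single hG hF, real_swap hG hF]
  rw [sh_half l m (by omega), hl, hm, map_add]
  norm_num

lemma cf_cross {S : Type} [CommRing S] (φ : R →+* S) (c : C R X) (d : C R Y) :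
    cf φ (cross c d) = cross (cf φ c) (cf φ d) := by
  induction c using Finsupp.induction_linear with
  | zero => simp
  | add a b ha hb => simp [ha, hb]
  | single s r =>
    rw [← smul_single_one, map_smul, LinearMap.smul_apply, cf_smul, cf_smul, map_smul,
      LinearMap.smul_apply, cf_single, map_one]
    refine congrArg _ (cf_comm φ (fun t => ?_) d)
    unfold cross
    rw [op2_single, op2_single, cf_real, cf_sh]

lemma cross_emp (d : C R Y) : cross (emp R X) d = 0 :=
  eq_all (f := cross (emp R X)) (g := 0) (fun G hG m => by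
    rw [← real_nil fun _ : V => Classical.arbitrary X, cross_single continuous_const hG]; simp) d

lemma cross_emp' (c : C R X) : cross c (emp R Y) = 0 :=
  eq_all (f := cross.flip (emp R Y)) (g := 0) (fun G hG m => by
    rw [← real_nil fun _ : V => Classical.arbitrary Y, LinearMap.flip_apply,
      cross_single hG continuous_const]; simp) c

lemma cross_zero_left (hc : c ∈ In R A 0) (d : C R Y) : cross c d = 0 := by
  obtain ⟨r, rfl⟩ := In_zero_eq hc
  rw [map_smul, LinearMap.smul_apply, cross_emp, smul_zero]

lemma cross_zero_right (c : C R X) (hd : d ∈ In R B 0) : cross c d = 0 := by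
  obtain ⟨r, rfl⟩ := In_zero_eq hd
  rw [map_smul, cross_emp', smul_zero]

lemma cross_D_left {U : Set X} (hc : c ∈ Z R U ∅ p) (d : C R Y) : cross (D c) d = 0 := by
  cases p with
  | zero => exact cross_zero_left (Z_D hc) d
  | succ p => rw [Z_D_eq hc, map_zero, LinearMap.zero_apply]

lemma cross_D_right {U : Set Y} (c : C R X) (hd : d ∈ Z R U ∅ q) : cross c (D d) = 0 := by
  cases q with
  | zero => exact cross_zero_right c (Z_D hd)
  | succ p => rw [Z_D_eq hd, map_zero]

lemma D_cross_left (hc : c ∈ In R A (p + 2)) (hd : d ∈ Z R B ∅ q) :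
    D (cross c d) = cross (D c) d := by
  rw [D_cross, cross_D_right _ hd, e1_In hc (by omega), zero_mul, zero_smul, sub_zero, add_zero]

lemma D_cross_right (hc : c ∈ Z R A ∅ p) (hd : d ∈ In R B (q + 2)) :
    D (cross c d) = (-1 : R) ^ p • cross c (D d) := by
  rw [D_cross, cross_D_left hc, e1_In hd (by omega), mul_zero, zero_smul, add_zero, sg_In hc.1,
    pow_succ]
  simp

lemma cross_Z (hc : c ∈ Z R A ∅ p) (hd : d ∈ Z R B ∅ q) : cross c d ∈ Z R (A ×ˢ B) ∅ (p + q) := by
  refine ⟨cross_In hc.1 hd.1, show D _ ∈ In R ∅ (p + q) from ?_⟩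
  rw [D_cross, cross_D_left hc, cross_D_right _ hd, sub_zero, zero_add]
  by_cases h : p + q = 0
  · rw [h]
    exact Submodule.smul_mem _ _ (emp_In _)
  by_cases hp : p = 0
  · simp [e1_In hd.1 (by omega)]
  · simp [e1_In hc.1 (by omega)]

lemma cross_B_left (hc : c ∈ Sing.B R A ∅ p) (hd : d ∈ Z R B ∅ q) :
    cross c d ∈ Sing.B R (A ×ˢ B) ∅ (p + q) := by
  obtain ⟨w, hw, rfl⟩ := mem_B_empty hc
  rw [← D_cross_left hw hd]
  exact D_mem_B (by convert cross_In hw hd.1 using 2; omega)

lemma cross_B_right (hc : c ∈ Z R A ∅ p) (hd : d ∈ Sing.B R B ∅ q) :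
    cross c d ∈ Sing.B R (A ×ˢ B) ∅ (p + q) := by
  obtain ⟨w, hw, rfl⟩ := mem_B_empty hd
  have := Submodule.smul_mem _ ((-1 : R) ^ p) (D_mem_B (U := ∅) (n := p + q) (cross_In (q := q + 1) hc.1 hw))
  rwa [D_cross_right hc hw, smul_smul, ← mul_pow, neg_mul_neg, one_mul, one_pow, one_smul] at this

/-- The point `x` as a chain. -/
noncomputable def pt (R : Type) [CommRing R] (x : X) : C R X := single (mk 1 fun _ => x) 1

lemma real_one {W : Type*} [AddCommGroup W] [Module ℝ W] (F : W → X) (v : W) :
    real F (single [v] (1 : R)) = pt R (F v) := by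
  rw [real_single, pt]
  refine congrArg (single · 1) (mk_congr fun t ht => ?_)
  have : t 0 = 1 := by simpa using ht.2.2
  simp [aff_apply, this]

lemma pt_In {x : X} (hx : x ∈ A) : pt R x ∈ In R A 1 := by
  rw [← real_one (fun _ : V => x) 0]
  exact glob_In continuous_const (fun _ => hx) _

lemma single_eq_pt (s : Sx X) (hs : s.n = 1) : single s 1 = pt R (s.f (Pi.single 0 1)) := by
  rw [← real_std, hs, ← real_one]
  rfl

lemma cross_pt_left (x : X) (hd : d ∈ In R B (q + 1)) :
    cross (pt R x) d = map (fun y => (x, y)) d := by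
  refine eq_In (fun G hG _ m hm => ?_) hd
  rw [← real_one (fun _ : V => x) 0, cross_single continuous_const hG, sh_one, if_neg (by omega),
    sub_zero, map_glob hG, ← lmap_single, show (fun y : V => ((0 : V), y)) = LinearMap.inr ℝ V V
      from rfl, real_lmap]
  rfl

lemma cross_pt_right (hc : c ∈ In R A (p + 1)) (y : Y) :
    cross c (pt R y) = map (fun x => (x, y)) c := by
  refine eq_In (f := cross.flip (pt R y)) (fun G hG _ m hm => ?_) hc
  rw [LinearMap.flip_apply, ← real_one (fun _ : V => y) 0, cross_single hG continuous_const,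
    sh_one', if_neg (by omega), sub_zero, map_glob hG, ← lmap_single,
    show (fun y : V => (y, (0 : V))) = LinearMap.inl ℝ V V from rfl, real_lmap]
  rfl

/-- A cochain of degree `k` is normalised. -/
def Nrm (k : ℕ) (φ : C R X →ₗ[R] R) : Prop := ∀ F : V → X, Continuous F → ∀ u a w,
  u.length + w.length + 1 = k → φ (real F (single (u ++ a :: a :: w) 1)) = 0

lemma nrm_zero (φ : C R X →ₗ[R] R) : Nrm 0 φ := fun _ _ _ _ _ h => by omega

lemma nrm_nu (k : ℕ) (φ : C R X →ₗ[R] R) : Nrm k (φ ∘ₗ nu) := fun F hF u a w _ => by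
  rw [LinearMap.comp_apply, nu_deg convex_univ hF.continuousOn fun _ _ => trivial, map_zero]

lemma cap_fst_cross {k : ℕ} {φ : C R X →ₗ[R] R} (h : Nrm k φ) (c : C R X) (d : C R Y) :
    cap k (φ ∘ₗ map Prod.fst) (cross c d) = cross (cap k φ c) d := by
  refine eq_all₂ (f := cross.compr₂ (cap k (φ ∘ₗ map Prod.fst))) (g := cross ∘ₗ cap k φ)
    (fun F G hF hG l m => ?_) c d
  have e : (φ ∘ₗ map Prod.fst) ∘ₗ real (Prod.map F G) = (φ ∘ₗ real F) ∘ₗ lmap Prod.fst :=
    LinearMap.ext fun c => by
      simp only [LinearMap.comp_apply, map_glob (hF.prodMap hG)]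
      rw [show (Prod.fst : V × V → V) = LinearMap.fst ℝ V V from rfl, real_lmap]
      rfl
  simp only [LinearMap.compr₂_apply, LinearMap.comp_apply, cross_real hF hG, shB_single,
    cap_glob hF, cap_glob (hF.prodMap hG), e, linearCombination_single, one_smul]
  rw [capL_sh_fst k _ (h F hF)]

lemma cap_snd_cross {k : ℕ} {φ : C R Y →ₗ[R] R} (h : Nrm k φ) (hc : c ∈ In R A (p + 1))
    (d : C R Y) :
    cap k (φ ∘ₗ map Prod.snd) (cross c d) = (-1 : R) ^ (k * p) • cross c (cap k φ d) := by
  refine eq_In (f := cap k (φ ∘ₗ map Prod.snd) ∘ₗ cross.flip d)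
    (g := (-1 : R) ^ (k * p) • cross.flip (cap k φ d)) (fun F hF _ l hl => ?_) hc
  refine eq_all (f := cap k (φ ∘ₗ map Prod.snd) ∘ₗ cross (real F (single l 1)))
    (g := (-1 : R) ^ (k * p) • cross (real F (single l 1)) ∘ₗ cap k φ) (fun G hG m => ?_) d
  have e : (φ ∘ₗ map Prod.snd) ∘ₗ real (Prod.map F G) = (φ ∘ₗ real G) ∘ₗ lmap Prod.snd :=
    LinearMap.ext fun c => by
      simp only [LinearMap.comp_apply, map_glob (hF.prodMap hG)]
      rw [show (Prod.snd : V × V → V) = LinearMap.snd ℝ V V from rfl, real_lmap]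
      rfl
  simp only [LinearMap.smul_apply, LinearMap.comp_apply, cross_real hF hG, shB_single,
    cap_glob hG, cap_glob (hF.prodMap hG), e, linearCombination_single, one_smul]
  rw [capL_sh_snd k _ (h G hG), map_smul, hl, show k * (p + 1 + 1) = k * p + 2 * k by ring, pow_add,
    pow_mul _ 2]
  simp

lemma Dies_map {A' : Set Y} {u : X → Y} (hu : ContinuousOn u A) (h' : MapsTo u A A') {k : ℕ}
    {φ : C R Y →ₗ[R] R} (h : Dies A' k φ) : Dies A k (φ ∘ₗ map u) := by
  obtain ⟨θ, h⟩ := h
  exact ⟨θ ∘ₗ map u, fun c hc => by simp [h _ (map_In hu h' hc), map_D hu hc]⟩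

/-- Capping a cross product with a cocycle of the first factor. -/
theorem cap_fst_B {k : ℕ} {φ : C R X →ₗ[R] R} (h : Coc A k φ) (hc : c ∈ Z R A ∅ (k + p))
    (hd : d ∈ Z R B ∅ q) : cap k (φ ∘ₗ map Prod.fst) (cross c d) - cross (cap k φ c) d ∈
      Sing.B R (A ×ˢ B) ∅ (p + q) := by
  cases k with
  | zero => simp [cap_fst_cross (nrm_zero φ)]
  | succ k =>
    have h1 := (Dies_map (A := A ×ˢ B) continuousOn_fst (fun _ hx => hx.1) h.dies_nu).cap_B
      (k := p + q) (by simpa [add_assoc] using cross_Z hc hd)
    have h2 := cross_B_left (h.dies_nu.cap_B hc) hd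
    rw [LinearMap.sub_comp, cap_sub, cap_fst_cross (nrm_nu _ φ)] at h1
    rw [cap_sub, map_sub, LinearMap.sub_apply] at h2
    simpa using sub_mem h1 h2

/-- Capping a cross product with a cocycle of the second factor. -/
theorem cap_snd_B {k : ℕ} {φ : C R Y →ₗ[R] R} (h : Coc B k φ) (hc : c ∈ Z R A ∅ p)
    (hd : d ∈ Z R B ∅ (k + q)) : cap k (φ ∘ₗ map Prod.snd) (cross c d) -
      (-1 : R) ^ (k * p) • cross c (cap k φ d) ∈ Sing.B R (A ×ˢ B) ∅ (p + q) := by
  cases k with
  | zero => simp [cap_snd_cross (nrm_zero φ) hc.1]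
  | succ k =>
    have h1 := (Dies_map (A := A ×ˢ B) continuousOn_snd (fun _ hx => hx.2) h.dies_nu).cap_B
      (k := p + q) (by convert cross_Z hc hd using 2; omega)
    have h2 := Submodule.smul_mem _ ((-1 : R) ^ ((k + 1) * p))
      (cross_B_right hc (h.dies_nu.cap_B hd))
    rw [LinearMap.sub_comp, cap_sub, cap_snd_cross (nrm_nu _ φ) hc.1] at h1
    rw [cap_sub, map_sub, smul_sub] at h2
    simpa using sub_mem h1 h2

end two

end Pool.Agent.Shared.SingEZ
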