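import Pool.Agent.Shared.Sing.Orient

/-! The two projections agree in homology near the diagonal of a closed manifold. -/

set_option linter.unusedSectionVars false

namespace Pool.Agent.Shared.Sing

open Finsupp Set Topology Metric

variable {R : Type} [CommRing R] {ι : Type*} [Fintype ι]

lemma exists_contr_nhds {M : Type*} [TopologicalSpace M] [Nonempty M] [T2Space M]
    (hM : LocEuc ι M) {x : M} {U : Set M} (hU : U ∈ 𝓝 x) :
    ∃ K, IsOpen K ∧ x ∈ K ∧ K ⊆ U ∧ ∃ h, Contr R K h := by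
  obtain ⟨φ, hx, ht⟩ := exists_chart_univ hM x
  obtain ⟨ε, hε, h3⟩ := Metric.mem_nhds_iff.1
    (φ.image_mem_nhds hx (Filter.inter_mem hU (φ.open_source.mem_nhds hx)))
  have s1 : Continuous φ.symm := continuousOn_univ.1 (ht ▸ φ.continuousOn_symm)
  have s2 : ∀ y, φ (φ.symm y) = y := fun y => φ.right_inv (ht ▸ trivial)
  have s3 : ∀ y, φ.symm y ∈ φ.source := fun y => φ.map_target (ht ▸ trivial)
  have h1 : x ∈ φ.source ∩ φ ⁻¹' ball (φ x) ε := ⟨hx, mem_ball_self hε⟩
  refine ⟨_, φ.isOpen_inter_preimage isOpen_ball, h1, fun y hy => ?_, exists_contr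
    (H := fun q : M × ℝ => φ.symm ((1 - q.2) • φ q.1 + q.2 • φ x))
    (s1.comp_continuousOn (((continuousOn_const.sub continuousOn_snd).smul (φ.continuousOn.comp
      continuousOn_fst fun _ h => h.1.1)).add (by fun_prop))) (fun q hq => ⟨s3 _, ?_⟩) h1
    (fun y hy => by simp [φ.left_inv hy.1]) fun y _ => by simp [φ.left_inv hx]⟩
  · obtain ⟨z, hz, e⟩ := h3 hy.2
    exact φ.injOn hz.2 hy.1 e ▸ hz.1
  · rw [mem_preimage, s2]
    exact convex_ball _ _ hq.1.2 h1.2 (sub_nonneg.2 hq.2.2) hq.2.1 (by simp)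

section metric

variable {M : Type*} [MetricSpace M] [Nonempty M] [CompactSpace M] (hM : LocEuc ι M)
include hM

lemma unif_acyclic {ε : ℝ} (hε : 0 < ε) : ∃ δ > 0, δ ≤ ε ∧ ∀ (x : M) n,
    ∀ c ∈ In R (ball x δ) n, D c = 0 → c ∈ Bd R (ball x ε) n := by
  choose K k1 k2 k3 k4 using fun y : M =>
    exists_contr_nhds (R := R) hM (ball_mem_nhds y (half_pos hε))
  obtain ⟨δ, hδ, h⟩ := lebesgue_number_lemma_of_metric isCompact_univ k1
    fun y _ => mem_iUnion.2 ⟨y, k2 y⟩
  refine ⟨min δ ε, lt_min hδ hε, min_le_right _ _, fun x n c hc h0 => ?_⟩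
  obtain ⟨y, hy⟩ := h x trivial
  obtain ⟨h, H⟩ := k4 y
  refine Submodule.map_mono (In_mono ((k3 y).trans (ball_half_subset x (k3 y (hy
    (mem_ball_self hδ))) |> fun _ => ?_)) _) (H.bd (In_mono ((ball_subset_ball
      (min_le_left _ _)).trans hy) _ hc) h0)
  intro z hz
  have := k3 y (hy (mem_ball_self hδ))
  rw [mem_ball] at *
  linarith [dist_triangle_right z x y]

lemma near_step (j : ℕ) {ε : ℝ} (hε : 0 < ε) : ∃ δ > 0, ∃ h : C R (M × M) →ₗ[R] C R M,
    (∀ c ∈ In R univ 0, h c = 0) ∧ ∀ i ≤ j, ∀ x, ∀ c ∈ In R (ball x δ ×ˢ ball x δ) i,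
      h c ∈ In R (ball x ε) (i + 1) ∧ D (h c) + h (D c) = map Prod.fst c - map Prod.snd c := by
  classical
  induction j generalizing ε with
  | zero =>
    refine ⟨1, one_pos, 0, fun _ _ => rfl, fun i hi x c hc => ⟨zero_mem _, ?_⟩⟩
    obtain rfl : i = 0 := by omega
    rw [map_congr (g := Prod.fst) (g' := Prod.snd) (eqOn_empty _ _) (In_zero hc)]
    simp
  | succ j ih =>
    obtain ⟨η, η1, η2, η3⟩ := unif_acyclic (R := R) hM (half_pos hε)
    obtain ⟨δ, δ1, h, h0, h1⟩ := ih η1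
    have key : ∀ s : Sx (M × M), ∃ w : C R M, ∀ x, single s 1 ∈ In R (ball x (min δ η / 2) ×ˢ
        ball x (min δ η / 2)) (j + 1) → w ∈ In R (ball x ε) (j + 2) ∧
          D w = map Prod.fst (single s 1) - map Prod.snd (single s 1) - h (D (single s 1)) := by
      intro s
      by_cases hs : ∃ x, single s 1 ∈ In R (ball x (min δ η / 2) ×ˢ ball x (min δ η / 2)) (j + 1)
      swap
      · exact ⟨0, fun x hx => absurd ⟨x, hx⟩ hs⟩
      obtain ⟨x, hx⟩ := hs
      have b1 : ball x (min δ η / 2) ⊆ ball x δ :=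
        ball_subset_ball (by linarith [min_le_left δ η, lt_min δ1 η1])
      have b2 : ball x (min δ η / 2) ⊆ ball x η :=
        ball_subset_ball (by linarith [min_le_right δ η, lt_min δ1 η1])
      obtain ⟨a1, a2⟩ := h1 j le_rfl x _ (D_In (In_mono (prod_mono b1 b1) _ hx))
      obtain ⟨w, hw, e⟩ := η3 x _ _ (sub_mem (sub_mem (map_In continuousOn_fst (fun _ h => b2 h.1) hx)
        (map_In continuousOn_snd (fun _ h => b2 h.2) hx)) a1) (by
          rw [D_D, map_zero, add_zero] at a2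
          rw [map_sub, map_sub, a2, map_D continuousOn_fst hx, map_D continuousOn_snd hx, sub_self])
      by_cases h10 : (1 : R) = 0
      · exact ⟨0, fun _ _ => ⟨zero_mem _, by simp [h10]⟩⟩
      refine ⟨w, fun y hy => ⟨In_mono (fun z hz => ?_) _ hw, e⟩⟩
      have m : s ∈ (single s (1 : R)).support := by simpa using h10
      have t : Pi.single 0 1 ∈ Δ s.n := single_mem_Δ (by rw [(hx m).1]; omega)
      have p1 := ((hx m).2 t).1
      have p2 := ((hy m).2 t).1
      rw [mem_ball] at *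
      linarith [dist_triangle z x y, dist_triangle_left x y (s.f (Pi.single 0 1)).1,
        min_le_right δ η]
    choose w hw using key
    let h' : C R (M × M) →ₗ[R] C R M := lc fun s => if s.n = j + 1 then w s else h (single s 1)
    have e1 : ∀ i ≤ j, ∀ c ∈ In R univ i, h' c = h c := fun i hi c hc =>
      map_eq (fun s hs => by simp [h', hs.1, show i ≠ j + 1 by omega]) hc
    refine ⟨min δ η / 2, half_pos (lt_min δ1 η1), h', fun c hc => (e1 0 j.zero_le c hc).trans
      (h0 c hc), fun i hi x c hc => ?_⟩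
    rcases hi.lt_or_eq with hi | rfl
    · have b1 : ball x (min δ η / 2) ⊆ ball x δ :=
        ball_subset_ball (by linarith [min_le_left δ η, lt_min δ1 η1])
      obtain ⟨a1, a2⟩ := h1 i (by omega) x c (In_mono (prod_mono b1 b1) _ hc)
      rw [e1 i (by omega) c (In_univ hc), e1 _ (by omega) _ (In_univ (D_In' hc))]
      exact ⟨In_mono (ball_subset_ball (by linarith)) _ a1, a2⟩
    · refine ⟨map_mem (fun s hs => ?_) hc, ?_⟩
      · simpa [h', hs.1] using (hw s x (single_mem hs)).1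
      · rw [e1 j le_rfl _ (In_univ (D_In hc))]
        refine map_eq (F := D ∘ₗ h' + h ∘ₗ D) (G := map Prod.fst - map Prod.snd) (fun s hs => ?_) hc
        have := (hw s x (single_mem hs)).2
        simp only [h', LinearMap.add_apply, LinearMap.comp_apply, linearCombination_single, hs.1,
          if_true, one_smul, this, LinearMap.sub_apply, sub_add_cancel]

end metric

theorem near_diag {M : Type*} [TopologicalSpace M] [Nonempty M] [T2Space M] [CompactSpace M]
    (hM : LocEuc ι M) (k : ℕ) : ∃ W : Set (M × M), IsOpen W ∧ (∀ x, (x, x) ∈ W) ∧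
      ∀ y ∈ Z R W ∅ k, map Prod.fst y - map Prod.snd y ∈ B R univ ∅ k := by
  letI : ChartedSpace (ι → ℝ) M := ⟨univ, fun x => (hM x).choose, fun x => (hM x).choose_spec,
    fun _ => trivial⟩
  have := ChartedSpace.secondCountable_of_sigmaCompact (ι → ℝ) M
  letI := TopologicalSpace.metrizableSpaceMetric M
  obtain ⟨δ, hδ, h, h0, h1⟩ := near_step (R := R) hM (k + 1) one_pos
  have o : ∀ x : M, IsOpen (ball x δ ×ˢ ball x δ) := fun x => isOpen_ball.prod isOpen_ball
  refine ⟨_, isOpen_iUnion o, fun x => mem_iUnion.2 ⟨x, mem_ball_self hδ, mem_ball_self hδ⟩,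
    fun y hy => ?_⟩
  obtain ⟨m, hm⟩ := (small o hy.1).exists
  have h2 : map Prod.fst ((sd ^ m) y) - map Prod.snd ((sd ^ m) y) - h (D ((sd ^ m) y)) ∈
      B R univ ∅ k := (iSup_le fun x c hc => by
    obtain ⟨a1, a2⟩ := h1 _ le_rfl x c hc
    simpa [← a2] using D_mem_B (In_univ a1) : _ ≤ (B R univ ∅ k).comap
      (map Prod.fst - map Prod.snd - h ∘ₗ D)) hm
  have h3 : h (D ((sd ^ m) y)) = 0 := by
    rcases k with _ | k
    · exact h0 _ (In_univ (D_In (sd_In hy.1 m)))
    · rw [D_sd, Z_D_eq hy, map_zero, map_zero]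
  have h4 := sub_mem (map_B continuousOn_fst (empty_subset _) (mapsTo_univ _ _) (mapsTo_empty _ ∅)
    (sub_sd hy m)) (map_B continuousOn_snd (empty_subset _) (mapsTo_univ _ _) (mapsTo_empty _ ∅)
    (sub_sd hy m))
  convert add_mem h2 h4 using 1
  rw [h3, map_sub, map_sub]
  abel

end Pool.Agent.Shared.Sing
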