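import Pool.Agent.Shared.Sing.Thom
import Pool.Agent.Shared.Sing.Near
import Pool.Agent.Shared.Sing.EZ

/-! Poincare duality over a field for closed topological manifolds. -/

set_option linter.unusedSectionVars false
set_option maxSynthPendingDepth 3

namespace Pool.Agent.Shared.Sing

open Finsupp Set Topology SingEZ

variable {F : Type} [Field F]

lemma finite_of_dual_inj {V W : Type*} [AddCommGroup V] [Module F V] [AddCommGroup W] [Module F W]
    (f : Module.Dual F V →ₗ[F] W) (g : Module.Dual F W →ₗ[F] V) (hf : Function.Injective f)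
    (hg : Function.Injective g) : Module.Finite F V ∧ Function.Surjective g := by
  classical
  have h1 : Module.Finite F V := by
    by_contra h
    have h2 := lift_rank_lt_rank_dual (K := F) (V := V)
      (not_lt.1 fun h' => h (Module.rank_lt_aleph0_iff.1 h'))
    rw [Cardinal.lift_uzero] at h2
    exact h2.not_ge (LinearMap.rank_le_of_injective
      (g ∘ₗ (Module.Basis.ofVectorSpace F W).toDual ∘ₗ f)
      (hg.comp ((Module.Basis.ofVectorSpace F W).toDual_injective.comp hf)))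
  have h2 : Module.Finite F W := (Module.finite_dual_iff F).1 (Module.Finite.of_injective g hg)
  refine ⟨h1, (LinearMap.injective_iff_surjective_of_finrank_eq_finrank (le_antisymm
    (LinearMap.finrank_le_finrank_of_injective hg) ?_)).1 hg⟩
  rw [Subspace.dual_finrank_eq, ← Subspace.dual_finrank_eq (V := V)]
  exact LinearMap.finrank_le_finrank_of_injective hf

section shrink

variable {Y : Type*} [TopologicalSpace Y] [Nonempty Y] {A W : Set Y} {p k : ℕ} {c : C F Y}
  {φ : C F Y →ₗ[F] F}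

theorem cap_shrink' (hA : IsOpen A) (hW : IsOpen W) (h : Coc (A ∪ W) p φ)
    (hd : ∀ z ∈ Z F A ∅ p, φ z = 0) (hc : c ∈ Z F (A ∪ W) ∅ (p + k)) :
    ∃ c' ∈ Z F W ∅ k, cap p φ c - c' ∈ B F (A ∪ W) ∅ k := by
  rcases p with _ | p
  swap
  · exact cap_shrink hA hW h (dies_of_kills hd) hc
  obtain ⟨m, a, ha, hb⟩ := small_ex hA hW hc.1
  have h4 := cap_B h (sub_sd hc m)
  have h5 : cap 0 φ c - cap 0 φ ((sd ^ m) c - a) ∈ B F (A ∪ W) ∅ k := by
    simpa [cap_eq_zero (fun z hz => hd z (mem_Z_zero hz)) ha] using h4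
  refine ⟨_, ⟨cap_In' φ hb, ?_⟩, h5⟩
  simpa using (sub_mem (cap_Z h hc) (B_le_Z (empty_subset _) h5)).2

variable (F) in
/-- Homology of a subset. -/
abbrev Hq (A : Set Y) (k : ℕ) := Z F A ∅ k ⧸ (B F A ∅ k).comap (Z F A ∅ k).subtype

lemma exists_ext (A : Set Y) (k : ℕ) : ∃ e : Module.Dual F (Hq F A k) →ₗ[F] (C F Y →ₗ[F] F),
    ∀ l, Coc A k (e l) ∧ ∀ z : Z F A ∅ k, e l z = l (Submodule.Quotient.mk z) := by
  obtain ⟨r, hr⟩ := (Z F A ∅ k).subtype.exists_leftInverse_of_injective (Submodule.ker_subtype _)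
  have h : ∀ z : Z F A ∅ k, r z = z := LinearMap.congr_fun hr
  refine ⟨(Submodule.mkQ _ ∘ₗ r).dualMap, fun l => ⟨fun w hw => ?_, fun z => by simp [h]⟩⟩
  have := h ⟨D w, B_le_Z (empty_subset _) (D_mem_B hw)⟩
  simp only [LinearMap.dualMap_apply, LinearMap.comp_apply, Submodule.mkQ_apply]
  rw [this, (Submodule.Quotient.mk_eq_zero _).2, map_zero]
  exact D_mem_B hw

end shrink

variable {M : Type*} [TopologicalSpace M] [Nonempty M] {n k m : ℕ} {μ : C F M}
  {τ : C F (M × M) →ₗ[F] F}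

/-- A Thom cocycle of the diagonal for the cycle `μ`. -/
structure IsThom (n : ℕ) (μ : C F M) (τ : C F (M × M) →ₗ[F] F) : Prop where
  cyc : μ ∈ Z F univ ∅ n
  coc : Coc univ n τ
  off : ∀ v ∈ In F (Off M) (n + 1), τ v = 0
  one : ∀ x, τ (map (Prod.mk x) μ) = 1

lemma IsThom.eps (h : IsThom n μ τ) {e : C F M} (he : e ∈ In F univ 1) :
    τ (cross e μ) = eps e :=
  map_eq (F := τ ∘ₗ cross.flip μ) (fun s hs => by
    rw [LinearMap.comp_apply, LinearMap.flip_apply, eps_single, single_eq_pt s hs.1,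
      cross_pt_left _ h.cyc.1]
    exact h.one _) he

/-- The dual of a cycle is a cocycle. -/
lemma IsThom.dual_coc (h : IsThom n μ τ) (hn : k + m = n) {z : C F M} (hz : z ∈ Z F univ ∅ k) :
    Coc univ m (τ ∘ₗ cross z) := fun w hw =>
  h.coc.apply_B (by simpa [hn] using cross_B_right hz (D_mem_B hw))

/-- The dual of a cycle vanishes away from the cycle. -/
lemma IsThom.dual_zero (h : IsThom n μ τ) (hn : k + m = n) {A A' : Set M} (hA : Disjoint A A')
    {z : C F M} (hz : z ∈ In F A (k + 1)) : ∀ y ∈ In F A' (m + 1), (τ ∘ₗ cross z) y = 0 :=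
  fun _ hy => h.off _ (In_mono (A := A ×ˢ A')
    (fun q hq (e : q.1 = q.2) => disjoint_left.1 hA hq.1 (e ▸ hq.2)) _
    (hn ▸ cross_In hz hy))

variable {ι : Type*} [Fintype ι] [T2Space M] [CompactSpace M] (hM : LocEuc ι M)
include hM

theorem exists_isThom (hμ : μ ∈ Z F univ ∅ (Fintype.card ι))
    (h0 : ∀ x, μ ∉ B F univ {x}ᶜ (Fintype.card ι)) : ∃ τ, IsThom (Fintype.card ι) μ τ :=
  (exists_thom hM hμ h0).imp fun _ h => ⟨hμ, h.1, h.2.1, h.2.2⟩

/-- The duality formula. -/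
theorem IsThom.pd (h : IsThom n μ τ) (hn : k + m = n) {a : C F M →ₗ[F] F} (ha : Coc univ k a)
    {z : C F M} (hz : z ∈ Z F univ ∅ k) :
    a z = (-1 : F) ^ (k * k) * τ (cross z (cap k a μ)) := by
  obtain ⟨W, w1, w2, w3⟩ := near_diag (R := F) hM k
  have e : W ∪ Off M = univ := eq_univ_of_forall fun q =>
    (em (q.1 = q.2)).elim (fun h => Or.inl ((Prod.ext rfl h : (q.1, q.1) = q) ▸ w2 q.1)) Or.inr
  obtain ⟨c', h1, h2⟩ := cap_shrink' w1 isOpen_Off (φ := a ∘ₗ map Prod.fst - a ∘ₗ map Prod.snd)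
    ((ha.comp_map continuousOn_fst (mapsTo_univ _ _)).sub
      (ha.comp_map continuousOn_snd (mapsTo_univ _ _)))
    (fun y hy => by simpa using ha.apply_B (w3 y hy)) (c := cross z μ) (k := n)
    (by simpa [e] using cross_Z hz h.cyc)
  rw [e] at h2
  have h3 := h.coc.apply_B h2
  have h4 := h.coc.apply_B (by simpa using cap_fst_B (p := 0) ha hz h.cyc)
  have h5 := h.coc.apply_B (by simpa [hn] using cap_snd_B (q := m) ha hz (hn ▸ h.cyc))
  rw [map_sub, h.off _ h1.1, cap_sub, map_sub] at h3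
  rw [map_sub, h.eps (cap_In' a hz.1), eps_cap a hz.1] at h4
  rw [map_sub, map_smul, smul_eq_mul] at h5
  linear_combination h3 - h4 + h5

theorem IsThom.pd_inj (h : IsThom n μ τ) (hn : k + m = n) {a : C F M →ₗ[F] F} (ha : Coc univ k a)
    (h0 : cap k a μ ∈ B F univ ∅ m) : ∀ z ∈ Z F univ ∅ k, a z = 0 := fun z hz => by
  rw [h.pd hM hn ha hz, ← LinearMap.comp_apply, (h.dual_coc hn hz).apply_B h0, mul_zero]

lemma IsThom.exists_map (h : IsThom n μ τ) (hn : k + m = n) :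
    ∃ g : Module.Dual F (Hq F (univ : Set M) k) →ₗ[F] Hq F (univ : Set M) m, Function.Injective g ∧
      ∀ l, ∃ a, ∃ ha : Coc univ k a, g l = Submodule.Quotient.mk ⟨_, cap_Z ha (hn ▸ h.cyc)⟩ := by
  obtain ⟨e, he⟩ := exists_ext (F := F) (univ : Set M) k
  let f : Module.Dual F (Hq F (univ : Set M) k) →ₗ[F] Z F (univ : Set M) ∅ m :=
    { toFun l := ⟨_, cap_Z (he l).1 (hn ▸ h.cyc)⟩
      map_add' a b := Subtype.ext (by simp [cap_add])
      map_smul' r a := Subtype.ext (by simp [cap_smul]) }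
  refine ⟨Submodule.mkQ _ ∘ₗ f, (injective_iff_map_eq_zero _).2 fun l hl => ?_,
    fun l => ⟨_, (he l).1, rfl⟩⟩
  refine LinearMap.ext fun x => ?_
  obtain ⟨z, rfl⟩ := Submodule.Quotient.mk_surjective _ x
  exact ((he l).2 z).symm.trans
    (h.pd_inj hM hn (he l).1 (Submodule.mem_comap.1
      ((Submodule.Quotient.mk_eq_zero _ (x := f l)).1 hl)) z z.2)

theorem IsThom.finite (h : IsThom n μ τ) (hn : k + m = n) :
    Module.Finite F (Hq F (univ : Set M) k) := by
  obtain ⟨f, hf, -⟩ := h.exists_map hM hn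
  obtain ⟨g, hg, -⟩ := h.exists_map hM ((add_comm m k).trans hn)
  exact (finite_of_dual_inj f g hf hg).1

theorem IsThom.pd_surj (h : IsThom n μ τ) (hn : k + m = n) {z : C F M} (hz : z ∈ Z F univ ∅ m) :
    ∃ a, Coc univ k a ∧ z - cap k a μ ∈ B F univ ∅ m := by
  obtain ⟨g, hg, h1⟩ := h.exists_map hM hn
  obtain ⟨f, hf, -⟩ := h.exists_map hM ((add_comm m k).trans hn)
  obtain ⟨l, hl⟩ := (finite_of_dual_inj f g hf hg).2 (Submodule.Quotient.mk ⟨z, hz⟩)
  obtain ⟨a, ha, h2⟩ := h1 l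
  exact ⟨a, ha, Submodule.mem_comap.1 ((Submodule.Quotient.eq _).1 (hl.symm.trans h2))⟩

end Pool.Agent.Shared.Sing
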