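import Pool.Agent.Shared.Sing.EZ

/-! Products of cochains of degree one and their values on cross products. -/

set_option linter.unusedSectionVars false
set_option maxSynthPendingDepth 3

namespace Pool.Agent.Shared.SingEZ

open Finsupp Set Pool.Agent.Shared.Sing

variable {X Y Y' : Type*} [TopologicalSpace X] [Nonempty X] [TopologicalSpace Y] [Nonempty Y]
  [TopologicalSpace Y'] [Nonempty Y'] {R : Type} [CommRing R] {ι : Type*}

/-- The product of a list of cochains of degree one. -/
noncomputable def ev : List (C R Y →ₗ[R] R) → C R Y →ₗ[R] R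
  | [] => e1
  | u :: us => cup 1 u (ev us)

section glob

variable {W : Type*} [AddCommGroup W] [Module ℝ W] [TopologicalSpace W] [ContinuousAdd W]
  [ContinuousSMul ℝ W] {F : W → Y} (hF : Continuous F)
include hF

lemma cup_real (p : ℕ) (a b : C R Y →ₗ[R] R) (l : List W) : cup p a b (real F (single l 1)) =
    if p < l.length then a (real F (single (l.take (p + 1)) 1)) * b (real F (single (l.drop p) 1))
    else 0 := by
  rw [cup, LinearMap.comp_apply, cap_glob hF, linearCombination_single, one_smul, capL]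
  split_ifs <;> simp [-real_single, -smul_single]

lemma ev_cons (u : C R Y →ₗ[R] R) (us : List (C R Y →ₗ[R] R)) (v w : W) (l : List W) :
    ev (u :: us) (real F (single (v :: w :: l) 1)) =
      u (real F (single [v, w] 1)) * ev us (real F (single (w :: l) 1)) := by
  simp [ev, cup_real hF, -real_single]

lemma ev_ne (us : List (C R Y →ₗ[R] R)) (l : List W) (h : l.length ≠ us.length + 1) :
    ev us (real F (single l 1)) = 0 := by
  induction us generalizing l with
  | nil => rw [ev, e1_real, if_neg (by simpa using h)]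
  | cons u us ih =>
    rw [ev, cup_real hF]
    split_ifs with h0
    · rw [ih _ (by simp at h ⊢; omega), mul_zero]
    · rfl

lemma ev_cone (u : C R Y →ₗ[R] R) (us : List (C R Y →ₗ[R] R)) (v w : W) (c : Ch R W) :
    ev (u :: us) (real F (cone v (cone w c))) =
      u (real F (single [v, w] 1)) * ev us (real F (cone w c)) :=
  map_eq (F := ev (u :: us) ∘ₗ real F ∘ₗ cone v ∘ₗ cone w)
    (G := u (real F (single [v, w] 1)) • ev us ∘ₗ real F ∘ₗ cone w)
    (fun l _ => by simp [ev_cons hF, -real_single]) (mem_top c)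

end glob

variable {A : Set Y} {n p q : ℕ} {c : C R Y} {a a' b b' : C R Y →ₗ[R] R}

lemma ev_In {us : List (C R Y →ₗ[R] R)} (hc : c ∈ In R A (n + 1)) (h : n ≠ us.length) :
    ev us c = 0 := eq_In (g := 0) (fun F hF _ l hl => ev_ne hF us l (by omega)) hc

lemma cup_map {g : Y → Y'} (hg : Continuous g) (a b : C R Y' →ₗ[R] R) :
    cup p a b ∘ₗ map g = cup p (a ∘ₗ map g) (b ∘ₗ map g) :=
  LinearMap.ext (eq_all fun F hF l => by
    simp [map_glob hF, cup_real hF, cup_real (hg.comp hF), -real_single])

lemma ev_map {g : Y → Y'} (hg : Continuous g) (us : List (C R Y' →ₗ[R] R)) :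
    ev us ∘ₗ map g = ev (us.map (· ∘ₗ map g)) := by
  induction us with
  | nil => exact LinearMap.ext (e1_map g)
  | cons u us ih => rw [ev, cup_map hg, ih]; rfl

lemma ev_map' {g : Y → Y'} (hg : Continuous g) (u : ι → C R Y' →ₗ[R] R) (I : List ι) (c : C R Y) :
    ev (I.map u) (map g c) = ev (I.map fun i => u i ∘ₗ map g) c := by
  rw [← LinearMap.comp_apply, ev_map hg, List.map_map]
  rfl

/-- The cup product as a bilinear map. -/
noncomputable def cupB (p : ℕ) : (C R Y →ₗ[R] R) →ₗ[R] (C R Y →ₗ[R] R) →ₗ[R] C R Y →ₗ[R] R :=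
  LinearMap.mk₂ R (cup p) (fun _ _ _ => LinearMap.ext fun _ => by simp [cup, cap_add])
    (fun _ _ _ => LinearMap.ext fun _ => by simp [cup, cap_smul]) (fun _ _ _ => rfl)
    (fun _ _ _ => rfl)

lemma cupB_apply (a b : C R Y →ₗ[R] R) : cupB p a b = cup p a b := rfl

lemma cup_ev (us vs : List (C R Y →ₗ[R] R)) : cup us.length (ev us) (ev vs) = ev (us ++ vs) := by
  refine LinearMap.ext (eq_all fun F hF l => ?_)
  rw [cup_real hF]
  split_ifs with hl
  swap
  · rw [ev_ne hF _ _ (by simp; omega)]
  induction us generalizing l with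
  | nil =>
    obtain _ | ⟨v, l⟩ := l
    · simp at hl
    simp [ev, e1_real, -real_single]
  | cons u us ih =>
    obtain _ | ⟨v, _ | ⟨w, l⟩⟩ := l
    · simp at hl
    · simp at hl
    rw [List.cons_append, ev_cons hF, ← ih _ (by simpa using hl)]
    simp [ev_cons hF, mul_assoc, -real_single]

lemma Coc_add (h : Coc A n a) (h' : Coc A n a') : Coc A n (a + a') := fun x hx => by
  simp [h x hx, h' x hx]

lemma Coc_smul (r : R) (h : Coc A n a) : Coc A n (r • a) := fun x hx => by simp [h x hx]

lemma Coc_sum (s : Finset ι) {f : ι → C R Y →ₗ[R] R} (h : ∀ i, Coc A n (f i)) :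
    Coc A n (∑ i ∈ s, f i) := fun x hx => by
  rw [LinearMap.sum_apply]
  exact Finset.sum_eq_zero fun i _ => h i x hx

lemma Coc_map {g : Y' → Y} (hg : Continuous g) (h : Coc univ n a) : Coc univ n (a ∘ₗ map g) :=
  h.comp_map hg.continuousOn (mapsTo_univ _ _)

lemma Coc_e1 : Coc A 0 (e1 : C R Y →ₗ[R] R) := fun x hx => by rw [e1_eq (D_In hx), coc_eps x hx]

lemma Coc_ev {us : List (C R Y →ₗ[R] R)} (h : ∀ u ∈ us, Coc A 1 u) : Coc A us.length (ev us) := by
  induction us with
  | nil => exact Coc_e1
  | cons u us ih =>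
    rw [List.length_cons, add_comm]
    exact (h u (by simp)).cup (ih fun v hv => h v (by simp [hv]))

lemma Coc_ev' {u : ι → C R Y →ₗ[R] R} (h : ∀ i, Coc A 1 (u i)) (I : List ι) :
    Coc A I.length (ev (I.map u)) := by
  simpa using Coc_ev (us := I.map u) (by simp [h])

lemma Dies_coc (h : Dies A n a) : Coc A n a := fun x hx => by
  obtain ⟨θ, h⟩ := h
  rw [h _ (D_In hx), D_D, map_zero]

lemma Dies_add (h : Dies A n a) (h' : Dies A n a') : Dies A n (a + a') := by
  obtain ⟨θ, h⟩ := h
  obtain ⟨θ', h'⟩ := h'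
  exact ⟨θ + θ', fun x hx => by simp [h x hx, h' x hx]⟩

lemma Dies_cup_left (h : Dies A (p + 1) a) (hb : Coc A q b) :
    Dies A (p + 1 + q) (cup (p + 1) a b) := by
  obtain ⟨θ, h⟩ := h
  refine ⟨cup p θ b, fun x hx => ?_⟩
  have h1 := hb _ (cap_In' (p := p) (k := q + 2) θ (by convert hx using 2; omega))
  rw [D_cap θ hx (by omega), map_smul, map_sub, ← cap_congr (φ := a) (ψ := θ ∘ₗ D) h hx] at h1
  have h2 := congrArg ((-1 : R) ^ p * ·) h1
  simp only [smul_eq_mul, ← mul_assoc, ← mul_pow, neg_mul_neg, one_mul, one_pow, mul_zero] at h2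
  exact (sub_eq_zero.1 h2).symm

lemma Dies_cup_right (ha : Coc A p a) (h : Dies A (q + 1) b) :
    Dies A (p + (q + 1)) (cup p a b) := by
  obtain ⟨θ, h⟩ := h
  refine ⟨(-1 : R) ^ p • cup p a θ, fun x hx => ?_⟩
  rw [cup, LinearMap.comp_apply, h _ (cap_In' a hx), ha.D_cap hx (by omega), map_smul]
  rfl

lemma cup_sub (a a' b b' : C R Y →ₗ[R] R) :
    cup p a b - cup p a' b' = cup p (a - a') b + cup p a' (b - b') := by
  simp [← cupB_apply]

lemma Dies_cup (h : Dies A (p + 1) (a - a')) (h' : Dies A (q + 1) (b - b'))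
    (ha : Coc A (p + 1) a') (hb : Coc A (q + 1) b) :
    Dies A (p + 1 + (q + 1)) (cup (p + 1) a b - cup (p + 1) a' b') := by
  rw [cup_sub]
  exact Dies_add (Dies_cup_left h hb) (Dies_cup_right ha h')

section

variable {u u' : ι → C R Y →ₗ[R] R} (hu : ∀ i, Coc A 1 (u' i)) (h : ∀ i, Dies A 1 (u i - u' i))
include hu h

lemma Dies_ev (i : ι) (I : List ι) :
    Dies A (I.length + 1) (ev ((i :: I).map u) - ev ((i :: I).map u')) := by
  have hu' : ∀ i, Coc A 1 (u i) := fun i => by simpa using Coc_add (Dies_coc (h i)) (hu i)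
  induction I generalizing i with
  | nil => simpa [ev, ← cupB_apply] using Dies_cup_left (h i) Coc_e1
  | cons j I ih =>
    have := Dies_cup (h i) (ih j) (hu i) (Coc_ev' hu' (j :: I))
    rwa [add_comm] at this

lemma ev_eq (I : List ι) (hc : c ∈ Z R A ∅ I.length) : ev (I.map u) c = ev (I.map u') c := by
  obtain _ | ⟨i, I⟩ := I
  · rfl
  exact sub_eq_zero.1 ((Dies_ev hu h i I).apply_Z hc)

end

lemma Coc_nrm (h : Coc univ 1 a) : Nrm 1 a := fun F hF u v w hl => by
  obtain rfl := List.length_eq_zero_iff.1 (show u.length = 0 by omega)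
  obtain rfl := List.length_eq_zero_iff.1 (show w.length = 0 by omega)
  have := h _ (glob_In hF (fun _ => mem_univ _) [v, v, v])
  simpa [D_glob hF, bdL, -real_single] using this

/-- The signed sum over all ways to select `p` entries of a list. -/
def shf {M : Type*} [AddCommGroup M] : ℕ → List ι → (List ι → List ι → M) → M
  | 0, [], f => f [] []
  | _ + 1, [], _ => 0
  | 0, i :: I, f => shf 0 I fun J K => f J (i :: K)
  | p + 1, i :: I, f => shf p I (fun J K => f (i :: J) K) +
      (-1 : ℤ) ^ (p + 1) • shf (p + 1) I fun J K => f J (i :: K)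

lemma map_shf {M M' G : Type*} [AddCommGroup M] [AddCommGroup M'] [FunLike G M M']
    [AddMonoidHomClass G M M'] (φ : G) (p : ℕ) (I : List ι) (f : List ι → List ι → M) :
    φ (shf p I f) = shf p I fun J K => φ (f J K) := by
  induction I generalizing p f with
  | nil => cases p <;> simp [shf]
  | cons i I ih => cases p <;> simp only [shf, map_add, map_zsmul, ih]

lemma shf_mul (r : R) (p : ℕ) (I : List ι) (f : List ι → List ι → R) :
    r * shf p I f = shf p I fun J K => r * f J K := map_shf (AddMonoidHom.mulLeft r) p I f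

lemma shf_zero {M : Type*} [AddCommGroup M] (p : ℕ) (I : List ι) :
    shf p I (fun _ _ => (0 : M)) = 0 := (map_shf (0 : M →+ M) p I fun _ _ => 0).symm

lemma sh_cons {α β : Type*} (a : α) (l : List α) (b : β) (m : List β) : sh R (a :: l) (b :: m) =
    cone (a, b) ((if l.length + m.length = 0 then single [] 1 else 0) +
      sh R l (b :: m) + (-1 : R) ^ l.length • sh R (a :: l) m) := by rw [sh]

lemma fst_real {F : V → X} {G : V → Y} (hF : Continuous F) (hG : Continuous G)
    (c : Ch R (V × V)) : map Prod.fst (real (Prod.map F G) c) = real F (lmap Prod.fst c) := by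
  rw [map_glob (hF.prodMap hG), show (Prod.fst : V × V → V) = LinearMap.fst ℝ V V from rfl,
    real_lmap]
  rfl

lemma snd_real {F : V → X} {G : V → Y} (hF : Continuous F) (hG : Continuous G)
    (c : Ch R (V × V)) : map Prod.snd (real (Prod.map F G) c) = real G (lmap Prod.snd c) := by
  rw [map_glob (hF.prodMap hG), show (Prod.snd : V × V → V) = LinearMap.snd ℝ V V from rfl,
    real_lmap]
  rfl

section

variable {u : ι → C R X →ₗ[R] R} {v : ι → C R Y →ₗ[R] R} (hu : ∀ i, Coc univ 1 (u i))
  (hv : ∀ i, Coc univ 1 (v i))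
include hu hv

lemma ev_sh {F : V → X} {G : V → Y} (hF : Continuous F) (hG : Continuous G) (I : List ι) (x : V)
    (l : List V) (y : V) (m : List V) :
    ev (I.map fun i => u i ∘ₗ map Prod.fst + v i ∘ₗ map Prod.snd)
      (real (Prod.map F G) (sh R (x :: l) (y :: m))) = shf l.length I fun J K =>
        ev (J.map u) (real F (single (x :: l) 1)) * ev (K.map v) (real G (single (y :: m) 1)) := by
  have hH := hF.prodMap hG
  induction I generalizing x l y m with
  | nil =>
    obtain _ | ⟨x', l⟩ := l
    · simp [shf, ev, sh_one, e1_real, -real_single]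
    · rw [List.length_cons, shf, ← cross_single hF hG]
      exact e1_In (cross_In (glob_In hF (fun _ => mem_univ _) _)
        (glob_In hG (fun _ => mem_univ _) _)) (by simp)
  | cons i I ih =>
    have h1 : ev ((i :: I).map fun i => u i ∘ₗ map Prod.fst + v i ∘ₗ map Prod.snd)
        (real (Prod.map F G) (cone (x, y) (sh R (x :: l) m))) = shf l.length I fun J K =>
          ev (J.map u) (real F (single (x :: l) 1)) *
            ev ((i :: K).map v) (real G (single (y :: m) 1)) := by
      obtain _ | ⟨y', m⟩ := m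
      · simp [ev_ne hG, shf_zero, -real_single]
      conv_lhs => rw [sh_cons, List.map_cons, ev_cone hH, ← sh_cons, ih, shf_mul]
      simp only [List.map_cons, ev_cons hG, LinearMap.add_apply, LinearMap.comp_apply,
        fst_real hF hG, snd_real hF hG, lmap_single, List.map_nil]
      rw [show u i (real F (single [x, x] 1)) = 0 from Coc_nrm (hu i) F hF [] x [] rfl, zero_add]
      simp only [mul_left_comm]
    have h0 : ev ((i :: I).map fun i => u i ∘ₗ map Prod.fst + v i ∘ₗ map Prod.snd)
        (real (Prod.map F G) (cone (x, y) (if l.length + m.length = 0 then single [] (1 : R)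
          else 0))) = 0 := by
      split_ifs
      · exact (congrArg _ (congrArg _ (cone_single _ _ _))).trans (ev_ne hH _ _ (by simp))
      · simp
    rw [sh, map_add, map_add, map_add, map_add, map_add, map_add, h0, map_smul, map_smul, map_smul,
      h1, zero_add]
    obtain _ | ⟨x', l⟩ := l
    · simp [shf]
    rw [List.length_cons, shf]
    congr 1
    · conv_lhs => rw [sh_cons, List.map_cons, ev_cone hH, ← sh_cons, ih, shf_mul]
      simp only [List.map_cons, ev_cons hF, LinearMap.add_apply, LinearMap.comp_apply,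
        fst_real hF hG, snd_real hF hG, lmap_single, List.map_nil]
      rw [show v i (real G (single [y, y] 1)) = 0 from Coc_nrm (hv i) G hG [] y [] rfl, add_zero]
      simp only [mul_assoc]
    · simp

/-- The value of a product of cocycles of degree one on a cross product. -/
theorem ev_cross {A : Set X} {B : Set Y} {c : C R X} {d : C R Y} (hc : c ∈ In R A (p + 1))
    (hd : d ∈ In R B (q + 1)) (I : List ι) :
    ev (I.map fun i => u i ∘ₗ map Prod.fst + v i ∘ₗ map Prod.snd) (cross c d) =
      shf p I fun J K => ev (J.map u) c * ev (K.map v) d := by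
  have e : ∀ c d, shf p I (fun J K => (LinearMap.mul R R).compl₁₂ (ev (J.map u)) (ev (K.map v)))
      c d = shf p I fun J K => ev (J.map u) c * ev (K.map v) d := fun c d =>
    map_shf (LinearMap.applyₗ d ∘ₗ LinearMap.applyₗ c) p I _
  rw [← e]
  refine eq_In₂ (f := cross.compr₂ (ev _)) (fun F G hF hG l m hl hm => ?_) hc hd
  obtain _ | ⟨x, l⟩ := l
  · simp at hl
  obtain _ | ⟨y, m⟩ := m
  · simp at hm
  rw [e, LinearMap.compr₂_apply, cross_single hF hG, ev_sh hu hv hF hG,
    show l.length = p by simpa using hl]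

end

/-! ### Change of coefficients for cochains -/

variable {S : Type} [CommRing S] (φ : R →+* S)

/-- Change of coefficients of a cochain. -/
noncomputable def bc (a : C R Y →ₗ[R] R) : C S Y →ₗ[S] S := lc fun s => φ (a (single s 1))

lemma bc_cf (a : C R Y →ₗ[R] R) (c : C R Y) : bc φ a (cf φ c) = φ (a c) := by
  induction c using Finsupp.induction_linear with
  | zero => simp
  | add x y hx hy => simp [hx, hy]
  | single s r => rw [← smul_single_one, cf_smul, map_smul, map_smul]; simp [bc]

lemma bc_real {W : Type*} [AddCommGroup W] [Module ℝ W] (a : C R Y →ₗ[R] R) (F : W → Y)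
    (l : List W) : bc φ a (real F (single l 1)) = φ (a (real F (single l 1))) := by
  simp [bc]

lemma bc_cup (a b : C R Y →ₗ[R] R) : bc φ (cup p a b) = cup p (bc φ a) (bc φ b) :=
  LinearMap.ext (eq_all fun F hF l => by
    simp only [bc_real, cup_real hF]
    split_ifs <;> simp)

lemma bc_ev (u : ι → C R Y →ₗ[R] R) (I : List ι) :
    bc φ (ev (I.map u)) = ev (I.map fun i => bc φ (u i)) := by
  induction I with
  | nil => exact LinearMap.ext (eq_all fun F _ l => by
      simp only [List.map_nil, ev, bc_real, e1_real]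
      split_ifs <;> simp)
  | cons i I ih => simp only [List.map_cons, ev, bc_cup, ih]

lemma bc_coc (h : Coc A n a) : Coc A n (bc φ a) := fun _ hx =>
  map_eq (F := bc φ a ∘ₗ D) (G := 0) (fun s hs => by
    rw [LinearMap.comp_apply, ← map_one φ, ← cf_single, ← cf_D, bc_cf, h _ (single_mem hs),
      map_zero, LinearMap.zero_apply]) hx

lemma bc_map (g : Y' → Y) (a : C R Y →ₗ[R] R) : bc φ (a ∘ₗ map g) = bc φ a ∘ₗ map g :=
  LinearMap.ext fun c => map_eq (fun s _ => by simp [bc]) (mem_top c)

lemma cf_cap (a : C R Y →ₗ[R] R) (c : C R Y) : cf φ (cap p a c) = cap p (bc φ a) (cf φ c) :=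
  cf_comm φ (fun s => by
    obtain ⟨F, hF, h, -⟩ := exists_glob (R := R) s
    have h' : single s (1 : S) = real F (single (std s.n) 1) := by
      simpa [cf_real, -real_single] using congrArg (cf φ) h
    rw [h, h', cap_glob hF, cap_glob hF, cf_real]
    simp only [linearCombination_single, one_smul, capL]
    split_ifs <;> simp [cf_smul, bc_real, -real_single, -smul_single]) c

end Pool.Agent.Shared.SingEZ
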