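import Pool.Agent.Shared.Sing.Local

/-! Top homology of manifolds relative to compact sets; the fundamental cycle mod two. -/

set_option linter.unusedSectionVars false

namespace Pool.Agent.Shared.Sing

open Finsupp Set Topology

variable {Y Y' : Type*} [TopologicalSpace Y] [Nonempty Y] [TopologicalSpace Y'] [Nonempty Y']
  {R : Type} [CommRing R] {d : ℕ}

variable (R) in
/-- Homology relative to the complement of `A` vanishes above `d` and is pointwise in degree `d`. -/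
def Good (d : ℕ) (A : Set Y) : Prop := (∀ n, d < n → Z R univ Aᶜ n ≤ B R univ Aᶜ n) ∧
  ∀ c ∈ Z R univ Aᶜ d, (∀ x ∈ A, c ∈ B R univ {x}ᶜ d) → c ∈ B R univ Aᶜ d

lemma Z_anti {A A' : Set Y} (h : A ⊆ A') {n : ℕ} : Z R univ A'ᶜ n ≤ Z R univ Aᶜ n :=
  Z_mono le_rfl (compl_subset_compl.2 h)

lemma B_anti {A A' : Set Y} (h : A ⊆ A') {n : ℕ} : B R univ A'ᶜ n ≤ B R univ Aᶜ n :=
  B_mono le_rfl (compl_subset_compl.2 h)

lemma good_empty : Good R d (∅ : Set Y) :=
  ⟨fun _ _ _ hc => In_mem_B (compl_empty ▸ hc.1), fun _ hc _ => In_mem_B (compl_empty ▸ hc.1)⟩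

lemma Good.union {A A' : Set Y} (hA : IsClosed A) (hA' : IsClosed A') (h : Good R d A)
    (h' : Good R d A') (h0 : Good R d (A ∩ A')) : Good R d (A ∪ A') :=
  ⟨fun n hn _ hc => mv_inj hA hA' (h0.1 _ (by omega)) (h.1 n hn (Z_anti subset_union_left hc))
    (h'.1 n hn (Z_anti subset_union_right hc)), fun c hc hx => mv_inj hA hA' (h0.1 _ (by omega))
    (h.2 c (Z_anti subset_union_left hc) fun x h => hx x (Or.inl h))
    (h'.2 c (Z_anti subset_union_right hc) fun x h => hx x (Or.inr h))⟩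

variable {ι : Type*} [Fintype ι]

lemma good_convex {K : Set (ι → ℝ)} (hK : Convex ℝ K) (hb : IsCompact K) :
    Good R (Fintype.card ι) K := by
  rcases K.eq_empty_or_nonempty with rfl | ⟨x, hx⟩
  · exact good_empty
  exact ⟨fun n hn c hc => conv_null hK hb.isBounded hx hc ((loc_euc x).1 n hn
    (Z_anti (singleton_subset_iff.2 hx) hc)), fun c hc h => conv_null hK hb.isBounded hx hc (h x hx)⟩

lemma good_biUnion {κ : Type*} (s : Finset κ) (f : κ → Set (ι → ℝ)) (hK : ∀ k, Convex ℝ (f k))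
    (hb : ∀ k, IsCompact (f k)) : Good R (Fintype.card ι) (⋃ k ∈ s, f k) := by
  classical
  induction s using Finset.induction_on generalizing f with
  | empty => simpa using good_empty
  | insert a s _ ih =>
    rw [Finset.set_biUnion_insert]
    refine (good_convex (hK a) (hb a)).union (hb a).isClosed
      (s.isCompact_biUnion fun k _ => hb k).isClosed (ih f hK hb) ?_
    rw [inter_iUnion₂]
    exact ih _ (fun k => (hK a).inter (hK k)) fun k => (hb a).inter (hb k)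

lemma exists_ball {W : Type*} [NormedAddCommGroup W] {L : Set W} (hL : IsCompact L) {x : W}
    (hx : x ∉ L) : ∃ ε > 0, L ⊆ (Metric.closedBall x ε)ᶜ := by
  obtain ⟨ε, hε, h⟩ := Metric.nhds_basis_closedBall.mem_iff.1 (hL.isClosed.isOpen_compl.mem_nhds hx)
  exact ⟨ε, hε, subset_compl_comm.1 h⟩

lemma good_euc {A : Set (ι → ℝ)} (hA : IsCompact A) : Good R (Fintype.card ι) A := by
  have key : ∀ n, ∀ c ∈ Z R univ Aᶜ n, ∃ A', A ⊆ A' ∧ Good R (Fintype.card ι) A' ∧
      c ∈ Z R univ A'ᶜ n ∧ ((∀ x ∈ A, c ∈ B R univ {x}ᶜ n) → ∀ x ∈ A', c ∈ B R univ {x}ᶜ n) := by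
    intro n c hc
    obtain ⟨L, hL, hLA, h⟩ := exists_compact (Z_D hc)
    choose! ε hε hb using fun x (hx : x ∈ A) => exists_ball hL fun h => hLA h hx
    obtain ⟨s, hs, h1⟩ := hA.elim_nhds_subcover (fun x => Metric.closedBall x (ε x))
      fun x hx => Metric.closedBall_mem_nhds x (hε x hx)
    refine ⟨_, h1, good_biUnion s _ (fun _ => convex_closedBall _ _)
      fun _ => isCompact_closedBall _ _, ⟨hc.1, In_mono ?_ _ h⟩, fun h2 y hy => ?_⟩
    · rw [compl_iUnion₂]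
      exact subset_iInter₂ fun x hx => hb x (hs x hx)
    · obtain ⟨x, hx, hy⟩ := mem_iUnion₂.1 hy
      exact B_anti (singleton_subset_iff.2 hy) (conv_null (convex_closedBall _ _)
        Metric.isBounded_closedBall (Metric.mem_closedBall_self (hε x (hs x hx)).le)
        ⟨hc.1, In_mono (hb x (hs x hx)) _ h⟩ (h2 x (hs x hx)))
  refine ⟨fun n hn c hc => ?_, fun c hc hx => ?_⟩
  · obtain ⟨A', h1, h2, h3, -⟩ := key n c hc
    exact B_anti h1 (h2.1 n hn h3)
  · obtain ⟨A', h1, h2, h3, h4⟩ := key _ c hc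
    exact B_anti h1 (h2.2 c h3 (h4 hx))

section chart

variable [T2Space Y] [T2Space Y'] (φ : OpenPartialHomeomorph Y Y')

lemma chart_pt {A : Set Y} {x : Y} (hx : x ∈ A) (hs : x ∈ φ.source) {n : ℕ} {c : C R Y}
    (hc : c ∈ Z R φ.source (φ.source ∩ Aᶜ) n) :
    c ∈ B R univ {x}ᶜ n ↔ map φ c ∈ B R univ {φ x}ᶜ n := by
  rw [← image_singleton]
  exact chart_iff φ isClosed_singleton (singleton_subset_iff.2 hs) (by simp) (Z_mono le_rfl
    (inter_subset_inter_right _ (compl_subset_compl.2 (singleton_subset_iff.2 hx))) hc)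

lemma good_chart {A : Set Y} (hA : IsCompact A) (hs : A ⊆ φ.source) (h : Good R d (φ '' A)) :
    Good R d A := by
  have hA' := (hA.image_of_continuousOn (φ.continuousOn.mono hs)).isClosed
  have key : ∀ n, ∀ c ∈ Z R univ Aᶜ n, ∃ c' ∈ Z R φ.source (φ.source ∩ Aᶜ) n,
      c - c' ∈ B R univ Aᶜ n := fun n c hc => exc_surj φ.open_source hA.isClosed.isOpen_compl
    (by rwa [← compl_subset_iff_union, compl_subset_compl]) hc
  refine ⟨fun n hn c hc => ?_, fun c hc hx => ?_⟩ <;> obtain ⟨c', h1, h2⟩ := key _ c hc <;>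
    have h3 := Z_mono (subset_univ _) inter_subset_right (chart_Z φ hs h1) <;>
    refine (congr_B h2).2 ((chart_iff φ hA.isClosed hs hA' h1).2 ?_)
  · exact h.1 n hn h3
  · refine h.2 _ h3 ?_
    rintro _ ⟨x, hxA, rfl⟩
    exact (chart_pt φ hxA (hs hxA) h1).1
      ((congr_B (B_anti (singleton_subset_iff.2 hxA) h2)).1 (hx x hxA))

lemma two_chart {x : Y} (hs : x ∈ φ.source) (h : Loc (ZMod 2) d (φ x)) {c c' : C (ZMod 2) Y}
    (hc : c ∈ Z _ univ {x}ᶜ d) (hc' : c' ∈ Z _ univ {x}ᶜ d) (h1 : c ∉ B _ univ {x}ᶜ d)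
    (h2 : c' ∉ B _ univ {x}ᶜ d) : c - c' ∈ B _ univ {x}ᶜ d := by
  obtain ⟨z, -, -, hz⟩ := h.2
  have key : ∀ c ∈ Z (ZMod 2) univ {x}ᶜ d, c ∉ B _ univ {x}ᶜ d →
      ∃ a ∈ Z _ φ.source (φ.source ∩ {x}ᶜ) d, c - a ∈ B _ univ {x}ᶜ d ∧
        map φ a - z ∈ B _ univ {φ x}ᶜ d := fun c hc h1 => by
    obtain ⟨a, ha, h3⟩ := exc_surj φ.open_source isOpen_compl_singleton
      (by simpa [← compl_subset_iff_union]) hc
    obtain ⟨r, hr⟩ := hz _ (image_singleton ▸ Z_mono (subset_univ _) inter_subset_right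
      (chart_Z φ (singleton_subset_iff.2 hs) ha))
    refine ⟨a, ha, h3, ?_⟩
    rcases (by decide : ∀ r : ZMod 2, r = 0 ∨ r = 1) r with rfl | rfl
    · exact absurd ((congr_B h3).2 ((chart_pt φ (mem_singleton x) hs ha).2 (by simpa using hr))) h1
    · simpa using hr
  obtain ⟨a, a1, a2, a3⟩ := key c hc h1
  obtain ⟨b, b1, b2, b3⟩ := key c' hc' h2
  have := (chart_pt φ (mem_singleton x) hs (sub_mem a1 b1)).2 (by simpa using sub_mem a3 b3)
  convert add_mem (sub_mem a2 b2) this using 1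
  abel

end chart

/-- `Y` is locally homeomorphic to `ι → ℝ`. -/
def LocEuc (ι : Type*) (Y : Type*) [TopologicalSpace Y] : Prop :=
  ∀ x : Y, ∃ φ : OpenPartialHomeomorph Y (ι → ℝ), x ∈ φ.source

theorem good_mfd [T2Space Y] (hY : LocEuc ι Y) {A : Set Y} (hA : IsCompact A) :
    Good R (Fintype.card ι) A := by
  have := hA.induction_on (p := fun s => ∃ U, IsOpen U ∧ s ⊆ U ∧ ∀ K, IsCompact K → K ⊆ U →
    Good R (Fintype.card ι) K) ⟨∅, isOpen_empty, le_rfl, fun K _ h => by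
      rw [subset_empty_iff.1 h]; exact good_empty⟩
    (fun s t h ⟨U, h1, h2, h3⟩ => ⟨U, h1, h.trans h2, h3⟩) ?_ fun x _ => ?_
  · obtain ⟨U, -, h2, h3⟩ := this
    exact h3 A hA h2
  · rintro s t ⟨U, h1, h2, h3⟩ ⟨U', h1', h2', h3'⟩
    refine ⟨U ∪ U', h1.union h1', union_subset_union h2 h2', fun K hK h => ?_⟩
    obtain ⟨K1, K2, k1, k2, k3, k4, rfl⟩ := hK.binary_compact_cover h1 h1' h
    exact (h3 _ k1 k3).union k1.isClosed k2.isClosed (h3' _ k2 k4)
      (h3 _ (k1.inter k2) (inter_subset_left.trans k3))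
  · obtain ⟨φ, hx⟩ := hY x
    exact ⟨_, mem_nhdsWithin_of_mem_nhds (φ.open_source.mem_nhds hx), _, φ.open_source, le_rfl,
      fun K hK h => good_chart φ hK h (good_euc (hK.image_of_continuousOn (φ.continuousOn.mono h)))⟩

lemma loc_fund [T2Space Y] (hY : LocEuc ι Y) (x : Y) : ∃ K ∈ 𝓝 x, IsCompact K ∧
    ∃ c ∈ Z (ZMod 2) univ Kᶜ (Fintype.card ι), ∀ y ∈ K, c ∉ B _ univ {y}ᶜ (Fintype.card ι) := by
  obtain ⟨φ, hx⟩ := hY x
  obtain ⟨z, hz, h1, -⟩ := (loc_euc (R := ZMod 2) (φ x)).2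
  obtain ⟨L, hL, hLx, h2⟩ := exists_compact (Z_D hz)
  obtain ⟨ε, hε, h3⟩ := Metric.nhds_basis_closedBall.mem_iff.1 (Filter.inter_mem
    (hL.isClosed.isOpen_compl.mem_nhds fun h => hLx h rfl) (φ.open_target.mem_nhds (φ.map_source hx)))
  have h4 := h3.trans inter_subset_right
  have h5 : φ '' (φ.symm '' Metric.closedBall (φ x) ε) = Metric.closedBall (φ x) ε :=
    φ.image_symm_image_of_subset_target h4
  have h6 : z ∈ Z (ZMod 2) univ (Metric.closedBall (φ x) ε)ᶜ (Fintype.card ι) :=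
    ⟨hz.1, In_mono (subset_compl_comm.1 (h3.trans inter_subset_left)) _ h2⟩
  have h7 := (φ.mapsTo_symm.mono_left h4).image_subset
  obtain ⟨c, hc, h8⟩ := chart_surj φ h7 (h5.symm ▸ Metric.isClosed_closedBall) (h5.symm ▸ h6)
  rw [h5] at h8
  refine ⟨φ.symm '' Metric.closedBall (φ x) ε, ?_, (isCompact_closedBall _ _).image_of_continuousOn
    (φ.continuousOn_symm.mono h4), c, Z_mono (subset_univ _) inter_subset_right hc,
    fun y hy h => one_ne_zero (h1 1 ?_)⟩
  · have := φ.symm.image_mem_nhds (φ.map_source hx) (Metric.closedBall_mem_nhds _ hε)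
    rwa [φ.left_inv hx] at this
  have h9 : φ y ∈ Metric.closedBall (φ x) ε := h5 ▸ mem_image_of_mem φ hy
  rw [one_smul]
  exact B_anti (singleton_subset_iff.2 (Metric.mem_closedBall_self hε.le)) (conv_null
    (convex_closedBall _ _) Metric.isBounded_closedBall h9 h6 ((congr_B (B_anti
      (singleton_subset_iff.2 h9) h8)).2 ((chart_pt φ hy (h7 hy) hc).1 h)))

/-- The fundamental cycle modulo two of a closed manifold. -/
theorem exists_fund [T2Space Y] [CompactSpace Y] (hY : LocEuc ι Y) :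
    ∃ c ∈ Z (ZMod 2) univ ∅ (Fintype.card ι), ∀ y : Y, c ∉ B _ univ {y}ᶜ (Fintype.card ι) := by
  have := isCompact_univ.induction_on (p := fun s : Set Y => ∃ K, IsCompact K ∧ s ⊆ K ∧
    ∃ c ∈ Z (ZMod 2) univ Kᶜ (Fintype.card ι), ∀ y ∈ K, c ∉ B _ univ {y}ᶜ (Fintype.card ι))
    ⟨∅, isCompact_empty, le_rfl, 0, zero_mem _, by simp⟩
    (fun s t h ⟨K, h1, h2, h3⟩ => ⟨K, h1, h.trans h2, h3⟩) ?_ fun x _ => ?_
  · obtain ⟨K, -, h2, c, hc, h3⟩ := this
    rw [univ_subset_iff.1 h2] at hc h3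
    exact ⟨c, compl_univ ▸ hc, fun y => h3 y trivial⟩
  · rintro s t ⟨K, h1, h2, c, hc, h3⟩ ⟨K', h1', h2', c', hc', h3'⟩
    have h4 := Z_anti (inter_subset_left (t := K')) hc
    have h5 := Z_anti (inter_subset_right (s := K)) hc'
    obtain ⟨e, he, e1, e2⟩ := mv_glue h1.isClosed h1'.isClosed hc hc'
      ((good_mfd hY (h1.inter h1')).2 _ (sub_mem h4 h5) fun x hx => by
        obtain ⟨φ, hφ⟩ := hY x
        exact two_chart φ hφ (loc_euc _) (Z_anti (singleton_subset_iff.2 hx) h4)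
          (Z_anti (singleton_subset_iff.2 hx) h5) (h3 x hx.1) (h3' x hx.2))
    exact ⟨K ∪ K', h1.union h1', union_subset_union h2 h2', e, he, fun y hy h => hy.elim
      (fun hy => h3 y hy ((congr_B (B_anti (singleton_subset_iff.2 hy) e1)).2 h))
      fun hy => h3' y hy ((congr_B (B_anti (singleton_subset_iff.2 hy) e2)).1 h)⟩
  · obtain ⟨K, h1, h2, h3⟩ := loc_fund hY x
    exact ⟨K, mem_nhdsWithin_of_mem_nhds h1, K, h2, le_rfl, h3⟩

end Pool.Agent.Shared.Sing
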