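import Pool.Agent.Shared.Sing.EZ

/-! The Alexander-Whitney map, the Eilenberg-Zilber homotopy, the Kuenneth theorem over a field. -/

set_option linter.unusedSectionVars false
set_option maxSynthPendingDepth 3

namespace Pool.Agent.Shared.SingEZ

open Finsupp Set Pool.Agent.Shared.Sing
open scoped TensorProduct

variable {R : Type} [CommRing R] {α β : Type*}

/-- Front face with `p + 1` vertices tensor back face from vertex `p`, for lists. -/
noncomputable def awL (p : ℕ) : Ch R α →ₗ[R] Ch R α ⊗[R] Ch R α :=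
  linearCombination R fun l : List α => single (l.take (p + 1)) (1 : R) ⊗ₜ single (l.drop p) (1 : R)

lemma awL_single (p : ℕ) (l : List α) :
    awL p (single l (1 : R)) = single (l.take (p + 1)) 1 ⊗ₜ single (l.drop p) 1 := by simp [awL]

attribute [irreducible] awL

lemma awL_cone (p : ℕ) (a : α) (c : Ch R α) :
    awL (p + 1) (cone a c) = (cone a).rTensor _ (awL p c) :=
  meq (F := awL (p + 1) ∘ₗ cone a) (G := (cone a).rTensor _ ∘ₗ awL p)
    (fun l _ => by simp [awL_single]) (mem_top c)

lemma awL_cone0 (a : α) (c : Ch R α) : awL 0 (cone a c) = single [a] 1 ⊗ₜ cone a c :=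
  meq (F := awL 0 ∘ₗ cone a) (G := TensorProduct.mk R _ _ (single [a] (1 : R)) ∘ₗ cone a)
    (fun l _ => by simp [awL_single]) (mem_top c)

lemma lr_comm {M N P Q : Type*} [AddCommMonoid M] [Module R M] [AddCommMonoid N] [Module R N]
    [AddCommMonoid P] [Module R P] [AddCommMonoid Q] [Module R Q] (f : M →ₗ[R] P) (g : N →ₗ[R] Q)
    (x : M ⊗[R] N) : g.lTensor P (f.rTensor N x) = f.rTensor Q (g.lTensor M x) := by
  rw [← LinearMap.comp_apply, ← LinearMap.comp_apply, LinearMap.lTensor_comp_rTensor,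
    LinearMap.rTensor_comp_lTensor]

lemma awL_bd (p : ℕ) (l : List α) (h : p + 2 ≤ l.length) : awL p (bdL R l) =
    bd.rTensor _ (awL (p + 1) (single l 1)) + (-1 : R) ^ p • bd.lTensor _ (awL p (single l 1)) := by
  induction p generalizing l with
  | zero =>
    obtain _ | ⟨a, _ | ⟨b, l⟩⟩ := l
    · simp at h
    · simp at h
    rw [bdL, map_sub, awL_cone0]
    simp [awL_single, bdL, TensorProduct.sub_tmul, TensorProduct.tmul_sub]
  | succ p ih =>
    obtain _ | ⟨a, l⟩ := l
    · simp at h
    have h1 := fun x => LinearMap.congr_fun (congrArg (LinearMap.rTensor (Ch R α))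
      (LinearMap.ext (bd_cone a) : bd ∘ₗ cone a + cone a ∘ₗ bd = (LinearMap.id : Ch R α →ₗ[R] _))) x
    simp only [LinearMap.rTensor_add, LinearMap.rTensor_comp, LinearMap.add_apply,
      LinearMap.comp_apply, LinearMap.rTensor_id, LinearMap.id_apply] at h1
    rw [bdL, map_sub, awL_cone, ih l (by simpa using h), ← cone_single, awL_cone, awL_cone, map_add,
      map_smul, lr_comm]
    linear_combination (norm := module) -h1 (awL (p + 1) (single l 1))

noncomputable def e1L : Ch R α →ₗ[R] R := lc fun l => if l.length = 1 then 1 else 0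

/-- The reduced boundary of lists. -/
noncomputable def bdr : Ch R α →ₗ[R] Ch R α := bd - e1L.smulRight (single [] 1)

lemma e1L_single (l : List α) : e1L (single l (1 : R)) = if l.length = 1 then 1 else 0 := by
  simp [e1L]

lemma bdr_single (l : List α) : bdr (single l (1 : R)) = if l.length = 1 then 0 else bdL R l := by
  simp only [bdr, LinearMap.sub_apply, bd_single, LinearMap.smulRight_apply, e1L_single]
  split_ifs with h
  · obtain ⟨a, rfl⟩ := List.length_eq_one_iff.1 h
    simp [bdL]
  · simp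

/-- The Alexander-Whitney diagonal of lists of length `n`. -/
noncomputable def AWL (n : ℕ) : Ch R α →ₗ[R] Ch R α ⊗[R] Ch R α := ∑ p ∈ Finset.range n, awL p

lemma AWL_bd {n : ℕ} {l : List α} (h : l.length = n + 1) : AWL n (bdL R l) =
    bdr.rTensor _ (AWL (n + 1) (single l 1)) -
      TensorProduct.map sgL bdr (AWL (n + 1) (single l 1)) := by
  simp only [AWL, LinearMap.sum_apply, map_sum]
  rw [Finset.sum_range_succ', Finset.sum_range_succ, Finset.sum_congr rfl fun p hp =>
    awL_bd p l (by simp at hp; omega), Finset.sum_add_distrib]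
  have h1 : ∀ p ∈ Finset.range n, bdr.rTensor _ (awL (p + 1) (single l (1 : R))) =
      bd.rTensor _ (awL (p + 1) (single l (1 : R))) := fun p hp => by
    simp only [awL_single, LinearMap.rTensor_tmul, bdr_single, bd_single]
    rw [if_neg (by simp at hp ⊢; omega)]
  have h2 : ∀ p ∈ Finset.range n, TensorProduct.map sgL bdr (awL p (single l (1 : R))) =
      -((-1 : R) ^ p • bd.lTensor _ (awL p (single l (1 : R)))) := fun p hp => by
    simp only [awL_single, LinearMap.lTensor_tmul, TensorProduct.map_tmul, bdr_single, bd_single,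
      sgL_single]
    rw [if_neg (by simp at hp ⊢; omega), show (l.take (p + 1)).length = p + 1 by
      simp at hp ⊢; omega, ← TensorProduct.smul_tmul', pow_succ]
    module
  rw [Finset.sum_congr rfl h1, Finset.sum_congr rfl h2, Finset.sum_neg_distrib]
  simp only [awL_single, LinearMap.rTensor_tmul, TensorProduct.map_tmul, bdr_single]
  rw [if_pos (by simp; omega), if_pos (by simp; omega)]
  simp

lemma bd_shB (t : Ch R α ⊗[R] Ch R β) : bd (TensorProduct.lift shB t) =
    TensorProduct.lift shB (bdr.rTensor _ t - TensorProduct.map sgL bdr t) +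
      LinearMap.mul' R R (TensorProduct.map e1L e1L t) • single [] 1 := by
  induction t with
  | zero => simp
  | add x y hx hy => simp only [map_add, map_sub, hx, hy]; module
  | tmul c d =>
    simp only [map_sub, LinearMap.rTensor_tmul, TensorProduct.map_tmul, TensorProduct.lift.tmul,
      LinearMap.mul'_apply]
    refine meq₂ (f := shB.compr₂ bd) (g := shB ∘ₗ bdr - shB.compl₁₂ sgL bdr +
      ((LinearMap.mul R R).compl₁₂ e1L e1L).compr₂ (LinearMap.toSpanSingleton R _ (single [] 1)))
      (fun l m => ?_) c d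
    have z2 : ∀ c : Ch R α, shB c (single ([] : List β) (1 : R)) = 0 := fun c =>
      map_eq (F := shB.flip _) (G := 0) (fun m _ => by simp) (mem_top c)
    simp only [LinearMap.compr₂_apply, LinearMap.add_apply, LinearMap.sub_apply,
      LinearMap.comp_apply, LinearMap.compl₁₂_apply, LinearMap.mul_apply',
      LinearMap.toSpanSingleton_apply, shB_single, bd_sh, bdL_nil, e1L_single, bdr, bd_single,
      LinearMap.smulRight_apply, map_sub, map_smul, LinearMap.smul_apply, sh_nil, z2, smul_zero,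
      sub_zero, sgL_single]

variable (R) in
/-- The shuffle product of the Alexander-Whitney diagonal. -/
noncomputable def ezaw (l : List α) : Ch R (α × α) :=
  single l (1 : R) [] • single [] 1 + TensorProduct.lift shB (AWL l.length (single l 1))

lemma bd_ezaw (l : List α) : bd (ezaw R l) = lc (ezaw R) (bdL R l) := by
  obtain _ | ⟨a, l⟩ := l
  · simp [ezaw, AWL, bdL]
  have h1 := meq (F := lc (ezaw R)) (G := (lapply []).smulRight (single [] 1) +
    TensorProduct.lift shB ∘ₗ AWL l.length) (fun m hm => by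
      simp [ezaw, show m.length = l.length by simpa using hm.1]) (bdL_mem (R := R) (a :: l))
  rw [h1, ezaw, map_add, bd_shB, List.length_cons, ← AWL_bd rfl]
  simp only [AWL, LinearMap.sum_apply, map_sum, awL_single, TensorProduct.map_tmul, e1L_single,
    LinearMap.mul'_apply, LinearMap.add_apply, LinearMap.smulRight_apply, lapply_apply, bdL_nil,
    LinearMap.comp_apply]
  rw [Finset.sum_range_succ', Finset.sum_eq_zero (f := fun p => (ite _ 1 0) * _) fun p hp => by
    rw [if_neg (by
      have := Finset.mem_range.1 hp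
      rw [List.length_take, List.length_cons]
      omega), zero_mul]]
  simp [add_comm]

lemma lmap_ezaw (f : α → β) (l : List α) : lmap (Prod.map f f) (ezaw R l) = ezaw R (l.map f) := by
  simp only [ezaw, AWL, LinearMap.sum_apply, map_sum, awL_single, map_add, map_smul, lmap_single,
    TensorProduct.lift.tmul, shB_single, lmap_sh, single_nil, List.length_map, List.map_take,
    List.map_drop, List.map_nil]

lemma ezaw_Lin {K : Set α} {l : List α} (hl : ∀ x ∈ l, x ∈ K) :
    ezaw R l ∈ Lin R (K ×ˢ K) l.length := by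
  simp only [ezaw, AWL, LinearMap.sum_apply, map_sum, awL_single, TensorProduct.lift.tmul,
    shB_single, single_nil]
  refine add_mem ?_ (Submodule.sum_mem _ fun p hp => ?_)
  · split_ifs with h
    · exact Submodule.smul_mem _ _ (single_mem ⟨h.symm, by simp⟩)
    · simp
  · convert sh_Lin (R := R) (fun x hx => hl x (List.mem_of_mem_take hx))
      fun x hx => hl x (List.mem_of_mem_drop hx) using 2
    simp at hp ⊢
    omega

variable (R) in
/-- The Eilenberg-Zilber homotopy on lists. -/
noncomputable def hL : List V → Ch R (V × V) :=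
  zig 0 (fun l => cone (l.headD 0, l.headD 0))
    (fun l => single (l.map fun x => (x, x)) 1 - ezaw R l) (-1)

lemma bd_hL (l : List V) : bd (hL R l) =
    single (l.map fun x => (x, x)) 1 - ezaw R l - lc (hL R) (bdL R l) := by
  have := zig_spec (b := 0) (h := fun l : List V => cone (R := R) (l.headD 0, l.headD 0))
    (A := fun l => single (l.map fun x => (x, x)) 1 - ezaw R l) (s := -1)
    bd (fun l _ x => bd_cone _ x) (fun l => ?_) (by simp [ezaw, AWL]) l
  · rwa [neg_one_smul, ← sub_eq_add_neg] at this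
  rw [map_sub, bd_single, bd_ezaw, ← lmap_bdL, neg_one_smul, ← sub_eq_add_neg, sub_eq_zero,
    ← LinearMap.sub_apply]
  exact map_eq (fun m _ => by simp) (mem_top _)

lemma lmap_hL (φ : V →ₗ[ℝ] V) (l : List V) : lmap (Prod.map φ φ) (hL R l) = hL R (l.map φ) := by
  refine zig_nat φ _ (fun l hl x => ?_) (fun l => by simp [Function.comp_def, lmap_ezaw])
    (map_zero _) l
  obtain ⟨a, l, rfl⟩ := List.exists_cons_of_ne_nil hl
  simp [lmap_cone]

lemma hL_Lin {K : Set V} {l : List V} (hl : ∀ x ∈ l, x ∈ K) :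
    hL R l ∈ Lin R (K ×ˢ K) (l.length + 1) := by
  have := zig_mem (b := 0) (h := fun l : List V => cone (R := R) (l.headD 0, l.headD 0))
    (A := fun l => single (l.map fun x => (x, x)) 1 - ezaw R l) (s := -1)
    (fun l => ⨅ _ : ∀ x ∈ l, x ∈ K, Lin R (K ×ˢ K) (l.length + 1))
    (fun l => ⨅ _ : ∀ x ∈ l, x ∈ K, Lin R (K ×ˢ K) l.length) (zero_mem _)
    (fun l _ => (Submodule.mem_iInf _).2 fun h => sub_mem (single_mem ⟨by simp, by simpa⟩)
      (ezaw_Lin h))
    (fun l hl x hx => (Submodule.mem_iInf _).2 fun h => cone_Lin (by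
      obtain ⟨a, l, rfl⟩ := List.exists_cons_of_ne_nil hl
      simpa using h a (by simp)) ((Submodule.mem_iInf _).1 hx h))
    (fun l m h1 h2 => le_iInf fun h => iInf_le_of_le (fun x hx => h x (h2 x hx)) (by rw [h1])) l
  exact (Submodule.mem_iInf _).1 this hl

variable {X Y : Type*} [TopologicalSpace X] [Nonempty X] [TopologicalSpace Y] [Nonempty Y]

/-- The reduced boundary. -/
noncomputable def Dr : C R X →ₗ[R] C R X := D - e1.smulRight (emp R X)

/-- The Alexander-Whitney map on simplices with `n` vertices. -/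
noncomputable def AW (n : ℕ) : C R (X × Y) →ₗ[R] C R X ⊗[R] C R Y :=
  linearCombination R fun s : Sx (X × Y) => TensorProduct.map (real (Prod.fst ∘ s.f))
    (real (Prod.snd ∘ s.f)) (AWL n (single (std s.n) (1 : R)))

/-- The Eilenberg-Zilber homotopy. -/
noncomputable def HE : C R (X × Y) →ₗ[R] C R (X × Y) :=
  lc fun s => real (Prod.map (Prod.fst ∘ s.f) (Prod.snd ∘ s.f)) (hL R (std s.n))

lemma Dr_real {F : V → X} (hF : Continuous F) (c : Ch R V) : Dr (real F c) = real F (bdr c) :=
  map_eq (F := Dr ∘ₗ real F) (G := real F ∘ₗ bdr) (fun l _ => by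
    simp only [LinearMap.comp_apply, Dr, bdr, LinearMap.sub_apply, LinearMap.smulRight_apply,
      D_glob hF, e1_real, e1L_single, map_sub, map_smul, real_nil]) (mem_top c)

lemma Dr_In {A : Set X} {n : ℕ} {c : C R X} (hc : c ∈ In R A n) (hn : n ≠ 1) : Dr c = D c := by
  simp [Dr, e1_In hc hn]

lemma Dr_one {A : Set X} {c : C R X} (hc : c ∈ In R A 1) : Dr c = 0 := by simp [Dr, D_one hc]

lemma real_mk {Y' : Type*} [TopologicalSpace Y'] [Nonempty Y'] {F : V → X} (hF : Continuous F)
    (g : X → Y') (l : List V) {m : List V} (hm : ∀ x ∈ m, x ∈ std l.length) :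
    real (g ∘ (mk l.length (F ∘ aff l)).f) (single m (1 : R)) =
      real (g ∘ F) (single (m.map (aff l)) 1) := by
  rw [← lmap_single, real_lmap]
  exact real_congr (convex_Δ _) (fun t ht => congrArg g
    (mk_f (hF.comp (continuous_aff l)).continuousOn ht)) (single_mem ⟨rfl, fun x hx =>
      std_mem x (hm x hx)⟩)

section

variable {F : V → X × Y} (hF : Continuous F)
include hF

lemma AW_real (n : ℕ) (c : Ch R V) : AW n (real F c) =
    TensorProduct.map (real (Prod.fst ∘ F)) (real (Prod.snd ∘ F)) (AWL n c) := by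
  refine meq (F := AW n ∘ₗ real F) (G := TensorProduct.map _ _ ∘ₗ AWL n) (fun l _ => ?_) (mem_top c)
  simp only [LinearMap.comp_apply]
  rw [real_single, AW, linearCombination_single, one_smul]
  simp only [AWL, LinearMap.sum_apply, map_sum, awL_single, TensorProduct.map_tmul, mk_n]
  refine Finset.sum_congr rfl fun p _ => ?_
  rw [real_mk hF _ l fun x hx => List.mem_of_mem_take hx,
    real_mk hF _ l fun x hx => List.mem_of_mem_drop hx, List.map_take, List.map_drop, map_aff_std]

lemma HE_real (c : Ch R V) :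
    HE (real F c) = real (Prod.map (Prod.fst ∘ F) (Prod.snd ∘ F)) (lc (hL R) c) := by
  refine map_eq (F := HE ∘ₗ real F) (G := real _ ∘ₗ lc (hL R)) (fun l _ => ?_) (mem_top c)
  simp only [LinearMap.comp_apply, real_single, HE, linearCombination_single, one_smul, mk_n]
  conv_rhs => rw [← map_aff_std l, ← lmap_hL]
  rw [show Prod.map (aff l) (aff l) = (aff l).prodMap (aff l) from rfl, real_lmap]
  have := mk_f (n := l.length) (hF.comp (continuous_aff l)).continuousOn
  exact real_congr ((convex_Δ _).prod (convex_Δ _)) (fun p hp => by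
    simp only [Prod.map, Function.comp_apply, this hp.1, this hp.2]
    rfl) (hL_Lin std_mem)

end

attribute [irreducible] AW HE Dr

lemma lift_cross_map {F : V → X} {G : V → Y} (hF : Continuous F) (hG : Continuous G)
    (t : Ch R V ⊗[R] Ch R V) : TensorProduct.lift cross (TensorProduct.map (real F) (real G) t) =
      real (Prod.map F G) (TensorProduct.lift shB t) := by
  induction t with
  | zero => simp
  | add x y hx hy => simp only [map_add, hx, hy]
  | tmul c d => simp [cross_real hF hG]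

variable {n : ℕ} {c : C R (X × Y)}

lemma HE_In (hc : c ∈ In R univ (n + 1)) : HE c ∈ In R univ (n + 2) := by
  refine mem_In (fun F hF _ l hl => ?_) hc
  rw [HE_real hF, linearCombination_single, one_smul]
  exact real_In ((convex_univ (𝕜 := ℝ) (E := V)).prod convex_univ)
    (hF.fst.prodMap hF.snd).continuousOn (mapsTo_univ _ _)
    (by simpa [hl] using hL_Lin (R := R) (K := univ) (l := l) fun _ _ => trivial)

theorem D_HE (hc : c ∈ In R univ (n + 1)) :
    D (HE c) + HE (D c) = c - TensorProduct.lift cross (AW (n + 1) c) := by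
  refine eq_In (f := D ∘ₗ HE + HE ∘ₗ D) (g := LinearMap.id - TensorProduct.lift cross ∘ₗ AW (n + 1))
    (fun F hF _ l hl => ?_) hc
  simp only [LinearMap.add_apply, LinearMap.comp_apply, LinearMap.sub_apply, LinearMap.id_apply,
    D_glob hF, HE_real hF, AW_real hF, bd_single, linearCombination_single, one_smul]
  have h1 := continuous_fst.comp hF
  have h2 := continuous_snd.comp hF
  rw [D_glob (h1.prodMap h2), bd_hL, map_sub, map_sub, sub_add_cancel, lift_cross_map h1 h2,
    ezaw, single_nil, if_neg (by omega), zero_smul, zero_add, hl,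
    ← lmap_single, show (fun x : V => (x, x)) = (LinearMap.id : V →ₗ[ℝ] V).prod LinearMap.id
      from rfl, real_lmap]
  rfl

theorem AW_D (hc : c ∈ In R univ (n + 1)) :
    AW n (D c) = Dr.rTensor _ (AW (n + 1) c) - TensorProduct.map sg Dr (AW (n + 1) c) := by
  refine eq_In (f := AW n ∘ₗ D) (g := (Dr.rTensor _ - TensorProduct.map sg Dr) ∘ₗ AW (n + 1))
    (fun F hF _ l hl => ?_) hc
  have h1 : Dr ∘ₗ real _ = real _ ∘ₗ (bdr : Ch R V →ₗ[R] _) :=
    LinearMap.ext (Dr_real (continuous_fst.comp hF))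
  have h1' : Dr ∘ₗ real _ = real _ ∘ₗ (bdr : Ch R V →ₗ[R] _) :=
    LinearMap.ext (Dr_real (continuous_snd.comp hF))
  have h2 : sg ∘ₗ real (Prod.fst ∘ F) = real _ ∘ₗ (sgL : Ch R V →ₗ[R] _) :=
    LinearMap.ext (sg_real _)
  simp only [LinearMap.comp_apply, LinearMap.sub_apply, D_glob hF, AW_real hF, bd_single]
  rw [AWL_bd hl, map_sub, LinearMap.map_rTensor, LinearMap.rTensor_map, TensorProduct.map_map,
    TensorProduct.map_map, h1, h1', h2]

lemma Dr_mem {A : Set X} {c : C R X} (hc : c ∈ In R A (n + 1)) : Dr c ∈ In R A n := by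
  by_cases hn : n = 0
  · rw [Dr_one (hn ▸ hc)]
    exact zero_mem _
  · rw [Dr_In hc (by omega)]
    exact D_In hc

lemma Dr_zero {A : Set X} {c : C R X} (hc : c ∈ In R A 0) : Dr c = 0 := by
  obtain ⟨r, rfl⟩ := In_zero_eq hc
  rw [map_smul, ← real_nil fun _ : V => Classical.arbitrary X, Dr_real continuous_const, bdr_single]
  simp [bdL]

lemma Dr_Dr (c : C R X) : Dr (Dr c) = 0 := by
  refine ext_univ (F := Dr ∘ₗ Dr) (G := 0) (fun n c hc => ?_) c
  obtain _ | _ | _ | n := n
  · simp [Dr_zero hc]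
  · simp [Dr_one hc]
  · exact Dr_one (Dr_mem hc)
  · rw [LinearMap.comp_apply, Dr_In (Dr_mem hc) (by omega), Dr_In hc (by omega), D_D]
    rfl

lemma sg_Dr (c : C R X) : sg (Dr c) = -Dr (sg c) := by
  refine ext_univ (F := sg ∘ₗ Dr) (G := -(Dr ∘ₗ sg : C R X →ₗ[R] _)) (fun n c hc => ?_) c
  obtain _ | n := n
  · simp [sg_In hc, Dr_zero hc]
  · simp [sg_In hc, sg_In (Dr_mem hc), pow_succ]

lemma sg_sg (c : C R X) : sg (sg c) = c :=
  ext_univ (F := sg ∘ₗ sg) (G := LinearMap.id) (fun n c hc => by
    simp [sg_In hc, smul_smul, ← mul_pow]) c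

lemma D_cross' (c : C R X) (d : C R Y) : D (cross c d) =
    cross (Dr c) d - cross (sg c) (Dr d) + (e1 c * e1 d) • emp R (X × Y) := by
  unfold Dr
  simp [D_cross, cross_emp, cross_emp']

/-- The part of a chain with `n` vertices. -/
noncomputable def prj (n : ℕ) : C R X →ₗ[R] C R X := lc fun s => if s.n = n then single s 1 else 0

lemma prj_In {m : ℕ} {c : C R X} (hc : c ∈ In R univ m) : prj n c = if m = n then c else 0 := by
  split_ifs with h
  · exact map_eq (F := prj n) (G := LinearMap.id) (fun s hs => by simp [prj, hs.1, h]) hc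
  · exact map_eq (G := 0) (fun s hs => by simp [prj, hs.1, h]) hc

lemma prj_mem (c : C R X) : prj n c ∈ In R univ n :=
  map_mem (fun s _ => by
    rw [prj_In (single_In s)]
    split_ifs with h
    exacts [h ▸ single_In s, zero_mem _]) (mem_top c)

lemma prj_D (c : C R X) : prj (n + 1) (D c) = D (prj (n + 2) c) :=
  ext_univ (F := prj (n + 1) ∘ₗ D) (G := D ∘ₗ prj (n + 2)) (fun m c hc => by
    simp only [LinearMap.comp_apply, prj_In hc, prj_In (D_In' hc)]
    split_ifs <;> first | rfl | omega) c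

variable {K : Type} [Field K]

lemma exists_retract (X : Type*) [TopologicalSpace X] [Nonempty X] : ∃ h : C K X →ₗ[K] C K X,
    (∀ n, ∀ c ∈ In K univ n, h c ∈ In K univ (n + 1)) ∧ ∀ c, Dr (h (Dr c)) = Dr c := by
  have key : ∀ n, ∃ g : C K X →ₗ[K] In K (univ : Set X) (n + 1), ∀ c ∈ In K univ (n + 1),
      Dr (g (Dr c) : C K X) = Dr c := fun n => by
    obtain ⟨g, hg⟩ := (Dr ∘ₗ (In K (univ : Set X) (n + 1)).subtype).rangeRestrict
      |>.exists_rightInverse_of_surjective (LinearMap.range_rangeRestrict _)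
    obtain ⟨g', hg'⟩ := g.exists_extend
    refine ⟨g', fun c hc => ?_⟩
    have h1 := LinearMap.congr_fun hg' ⟨Dr c, ⟨c, hc⟩, rfl⟩
    have h2 := congrArg Subtype.val (LinearMap.congr_fun hg ⟨Dr c, ⟨c, hc⟩, rfl⟩)
    exact (congrArg (fun x : In K (univ : Set X) (n + 1) => Dr (x : C K X)) h1).trans h2
  choose g hg using key
  have h1 : ∀ n, ∀ c ∈ In K (univ : Set X) n, lc (fun s => (g s.n (single s 1) : C K X)) c = g n c :=
    fun n c hc => map_eq (G := (In K univ (n + 1)).subtype ∘ₗ g n)
      (fun s hs => by obtain ⟨rfl, -⟩ := hs; simp) hc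
  refine ⟨lc fun s => g s.n (single s 1), fun n c hc => h1 n c hc ▸ (g n c).2, fun c =>
    ext_univ (F := Dr ∘ₗ lc _ ∘ₗ Dr) (fun n c hc => ?_) c⟩
  obtain _ | n := n
  · simp [Dr_zero hc]
  · simp only [LinearMap.comp_apply]
    rw [h1 n _ (Dr_mem hc), hg n c hc]

lemma zr {u : C K X →ₗ[K] C K X} (u1 : ∀ n, ∀ c ∈ In K univ n, u c ∈ In K univ (n + 1))
    (u2 : ∀ c, Dr (u (Dr c)) = Dr c) (p : ℕ) (x : C K X) (hx : x ∈ In K univ (p + 1)) :
    x - Dr (u x) - u (Dr x) ∈ Z K univ ∅ p := by
  have h1 := sub_mem (sub_mem hx (Dr_mem (u1 _ x hx))) (u1 _ _ (Dr_mem hx))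
  obtain _ | p := p
  · exact mem_Z_zero h1
  · exact mem_Z h1 (by rw [← Dr_In h1 (by omega)]; simp [Dr_Dr, u2])

lemma z0 {u : C K X →ₗ[K] C K X} (u1 : ∀ n, ∀ c ∈ In K univ n, u c ∈ In K univ (n + 1))
    (x : C K X) (hx : x ∈ In K univ 0) : x - Dr (u x) - u (Dr x) ∈ In K univ 0 := by
  simpa [Dr_zero hx, Dr_one (u1 _ x hx)] using hx

/-- The Kuenneth theorem: a cocycle that kills cross products of cycles kills all cycles. -/
theorem kunneth {φ : C K (X × Y) →ₗ[K] K} (hφ : Coc univ (n + 1) φ)
    (h : ∀ p q, p + q = n + 1 → ∀ z ∈ Z K univ ∅ p, ∀ w ∈ Z K univ ∅ q, φ (cross z w) = 0)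
    {c : C K (X × Y)} (hc : c ∈ Z K univ ∅ (n + 1)) : φ c = 0 := by
  obtain ⟨u, u1, u2⟩ := exists_retract (K := K) X
  obtain ⟨v, v1, v2⟩ := exists_retract (K := K) Y
  let β := (φ ∘ₗ prj (n + 2)) ∘ₗ TensorProduct.lift (cross : C K X →ₗ[K] C K Y →ₗ[K] _)
  let d : C K X ⊗[K] C K Y →ₗ[K] _ := Dr.rTensor _ - TensorProduct.map sg Dr
  have su : ∀ c, sg (u c) = -u (sg c) := fun c => ext_univ (F := sg ∘ₗ u) (G := -(u ∘ₗ sg))
    (fun n c hc => by simp [sg_In hc, sg_In (u1 n c hc), pow_succ]) c
  have b1 : β ∘ₗ d = 0 := TensorProduct.ext' fun x y => by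
    have := hφ _ (prj_mem (cross x y))
    rw [← prj_D, D_cross', map_add, map_smul, prj_In (emp_In _), if_neg (by omega)] at this
    simpa [β, d] using this
  have b2 : β ∘ₗ TensorProduct.map (LinearMap.id - Dr ∘ₗ u - u ∘ₗ Dr)
      (LinearMap.id - Dr ∘ₗ v - v ∘ₗ Dr) = 0 := TensorProduct.ext' fun x y => by
    refine meq₂ (f := (cross.compl₁₂ (LinearMap.id - Dr ∘ₗ u - u ∘ₗ Dr)
      (LinearMap.id - Dr ∘ₗ v - v ∘ₗ Dr)).compr₂ (φ ∘ₗ prj (n + 2))) (g := 0) (fun s t => ?_) x y
    simp only [LinearMap.compr₂_apply, LinearMap.compl₁₂_apply, LinearMap.comp_apply,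
      LinearMap.sub_apply, LinearMap.id_apply, LinearMap.zero_apply]
    have hs := single_In (R := K) s
    have ht := single_In (R := K) t
    generalize s.n = p at hs
    generalize t.n = q at ht
    obtain _ | p := p
    · rw [cross_zero_left (z0 u1 _ hs), map_zero, map_zero]
    obtain _ | q := q
    · rw [cross_zero_right _ (z0 v1 _ ht), map_zero, map_zero]
    rw [prj_In (cross_In' (zr u1 u2 p _ hs).1 (zr v1 v2 q _ ht).1)]
    split_ifs with h1
    · exact h p q (by omega) _ (zr u1 u2 p _ hs) _ (zr v1 v2 q _ ht)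
    · exact map_zero _
  have key : (LinearMap.id : C K X ⊗[K] C K Y →ₗ[K] _) = TensorProduct.map
      (LinearMap.id - Dr ∘ₗ u - u ∘ₗ Dr) (LinearMap.id - Dr ∘ₗ v - v ∘ₗ Dr) +
      d ∘ₗ (TensorProduct.map u (LinearMap.id - Dr ∘ₗ v - v ∘ₗ Dr) - TensorProduct.map sg v) +
      (TensorProduct.map u (LinearMap.id - Dr ∘ₗ v - v ∘ₗ Dr) - TensorProduct.map sg v) ∘ₗ d :=
    TensorProduct.ext' fun x y => by
      simp only [d, LinearMap.add_apply, LinearMap.comp_apply, LinearMap.sub_apply,
        LinearMap.id_apply, TensorProduct.map_tmul, LinearMap.rTensor_tmul, map_sub, Dr_Dr, v2,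
        su, sg_sg, sg_Dr, map_zero, TensorProduct.sub_tmul, TensorProduct.tmul_sub,
        TensorProduct.neg_tmul, TensorProduct.tmul_zero]
      abel
  have h1 := D_HE hc.1
  have h2 := AW_D hc.1
  rw [Z_D_eq hc, map_zero] at h1 h2
  have h3 := congrArg β (LinearMap.congr_fun key (AW (n + 2) c))
  have h4 := congrArg (φ ∘ₗ prj (n + 2)) h1
  have h5 : d (AW (n + 2) c) = 0 := h2.symm
  simp only [LinearMap.id_apply, LinearMap.add_apply, map_add, LinearMap.comp_apply _ d, h5,
    map_zero, add_zero, ← LinearMap.comp_apply β, ← LinearMap.comp_assoc, b1, b2,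
    LinearMap.zero_comp, LinearMap.zero_apply] at h3
  rw [add_zero, map_sub, LinearMap.comp_apply, LinearMap.comp_apply, prj_D, hφ _ (prj_mem _),
    prj_In hc.1, if_pos rfl] at h4
  exact (sub_eq_zero.1 h4.symm).trans h3

end Pool.Agent.Shared.SingEZ
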