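import Pool.Agent.Shared.Sing.Cup

/-! Natural chain maps homotopic to the identity: normalisation and alternation. -/

set_option linter.unusedSectionVars false

namespace Pool.Agent.Shared.Sing

open Finsupp Set

section lists

variable {R : Type} [CommRing R] {α β : Type*} {M : Type*} [AddCommGroup M] [Module R M]

section ret

variable (h : List α → Ch R α →ₗ[R] Ch R α)

/-- The chain map built from a family of contractions. -/
noncomputable def retL : List α → Ch R α := zig (single [] 1) h 0 1

/-- The homotopy from the identity to `retL`. -/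
noncomputable def retT : List α → Ch R α := zig 0 h (fun l => single l 1 - retL h l) (-1)

lemma retL_ne {l : List α} (hl : l ≠ []) : retL h l = h l (lc (retL h) (bdL R l)) := by
  simpa [retL] using zig_ne (single [] 1) h 0 1 hl

variable {h}

lemma bd_retL (hh : ∀ l, l ≠ [] → ∀ x, bd (h l x) + h l (bd x) = x) (l : List α) :
    bd (retL h l) = lc (retL h) (bdL R l) := by
  simpa [retL] using zig_spec (b := single [] 1) (h := h) (A := 0) (s := 1)
    bd hh (fun l => by simp) (by simp [bdL]) l

lemma bd_retT (hh : ∀ l, l ≠ [] → ∀ x, bd (h l x) + h l (bd x) = x) (l : List α) :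
    bd (retT h l) = single l 1 - retL h l - lc (retT h) (bdL R l) := by
  have := zig_spec (b := 0) (h := h) (A := fun l => single l 1 - retL h l) (s := -1) bd hh
    (fun l => ?_) (by simp [retL, zig_nil]) l
  · rwa [neg_one_smul, ← sub_eq_add_neg] at this
  rw [map_sub, bd_single, bd_retL hh, neg_one_smul, ← sub_eq_add_neg, sub_eq_zero]
  exact map_eq (F := LinearMap.id - lc (retL h)) (G := lc fun l => single l 1 - retL h l)
    (fun m _ => by simp) (mem_top (bdL R l))

lemma bd_lc_retT (hh : ∀ l, l ≠ [] → ∀ x, bd (h l x) + h l (bd x) = x) (c : Ch R α) :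
    bd (lc (retT h) c) + lc (retT h) (bd c) = c - lc (retL h) c :=
  map_eq (F := bd ∘ₗ lc (retT h) + lc (retT h) ∘ₗ bd) (G := LinearMap.id - lc (retL h))
    (fun l _ => by simp [bd_retT hh]) (mem_top c)

lemma bd_lc_retL (hh : ∀ l, l ≠ [] → ∀ x, bd (h l x) + h l (bd x) = x) (c : Ch R α) :
    bd (lc (retL h) c) = lc (retL h) (bd c) :=
  map_eq (F := bd ∘ₗ lc (retL h)) (G := lc (retL h) ∘ₗ bd)
    (fun l _ => by simp [bd_retL hh]) (mem_top c)

variable {h' : List β → Ch R β →ₗ[R] Ch R β} {f : α → β}

lemma lmap_retL (hn : ∀ l, l ≠ [] → ∀ x, lmap f (h l x) = h' (l.map f) (lmap f x)) (l : List α) :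
    lmap f (retL h l) = retL h' (l.map f) :=
  zig_nat f _ hn (fun _ => map_zero _) (by simp) l

lemma lmap_retT (hn : ∀ l, l ≠ [] → ∀ x, lmap f (h l x) = h' (l.map f) (lmap f x)) (l : List α) :
    lmap f (retT h l) = retT h' (l.map f) :=
  zig_nat f _ hn (fun l => by simp [lmap_retL hn]) (map_zero _) l

variable {K : Set α}
  (hK : ∀ l, (∀ x ∈ l, x ∈ K) → ∀ n, ∀ c ∈ Lin R K n, h l c ∈ Lin R K (n + 1))
include hK

lemma retL_Lin {l : List α} (hl : ∀ x ∈ l, x ∈ K) : retL h l ∈ Lin R K l.length := by
  have := zig_mem (b := single [] 1) (h := h) (A := 0) (s := 1)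
    (fun l => ⨅ _ : ∀ x ∈ l, x ∈ K, Lin R K l.length)
    (fun l => ⨅ _ : ∀ x ∈ l, x ∈ K, Lin R K (l.length - 1))
    ((Submodule.mem_iInf _).2 fun h => single_mem ⟨rfl, h⟩) (fun l _ => zero_mem _)
    (fun l hl x hx => (Submodule.mem_iInf _).2 fun h => by
      have := hK l h _ _ ((Submodule.mem_iInf _).1 hx h)
      rwa [Nat.sub_add_cancel (List.length_pos_iff.2 hl)] at this)
    (fun l m h1 h2 => le_iInf fun h => iInf_le_of_le (fun x hx => h x (h2 x hx))
      (by rw [← h1]; rfl)) l
  exact (Submodule.mem_iInf _).1 this hl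

lemma retT_Lin {l : List α} (hl : ∀ x ∈ l, x ∈ K) : retT h l ∈ Lin R K (l.length + 1) := by
  have := zig_mem (b := 0) (h := h) (A := fun l => single l 1 - retL h l) (s := -1)
    (fun l => ⨅ _ : ∀ x ∈ l, x ∈ K, Lin R K (l.length + 1))
    (fun l => ⨅ _ : ∀ x ∈ l, x ∈ K, Lin R K l.length) (zero_mem _)
    (fun l _ => (Submodule.mem_iInf _).2 fun h => sub_mem (single_mem ⟨rfl, h⟩) (retL_Lin hK h))
    (fun l _ x hx => (Submodule.mem_iInf _).2 fun h => hK l h _ _ ((Submodule.mem_iInf _).1 hx h))
    (fun l m h1 h2 => le_iInf fun h => iInf_le_of_le (fun x hx => h x (h2 x hx)) (by rw [h1])) l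
  exact (Submodule.mem_iInf _).1 this hl

end ret

lemma lc_cone (G : List α → M) (a : α) (c : Ch R α) :
    lc G (cone a c) = lc (fun l => G (a :: l)) c :=
  map_eq (F := lc G ∘ₗ cone a) (fun l _ => by simp) (mem_top c)

lemma lc_bdL_swap (G : List α → M) (u : List α) (a b : α) (w : List α)
    (hG : ∀ u' w', u'.length + w'.length + 1 = u.length + w.length →
      G (u' ++ a :: b :: w') + G (u' ++ b :: a :: w') = 0) :
    lc G (bdL R (u ++ a :: b :: w)) + lc G (bdL R (u ++ b :: a :: w)) = 0 := by
  induction u generalizing G with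
  | nil =>
    have := map_eq (F := lc (fun l => G (a :: b :: l)) + lc (fun l => G (b :: a :: l))) (G := 0)
      (fun m hm => by simpa using hG [] m (by simpa using hm.1)) (bdL_mem (R := R) w)
    simp only [LinearMap.add_apply, LinearMap.zero_apply] at this
    simp only [List.nil_append, bdL, map_sub, lc_cone, linearCombination_single, one_smul]
    linear_combination (norm := abel1) this
  | cons x u ih =>
    have h1 := ih (fun l => G (x :: l)) fun u' w' h => hG (x :: u') w' (by simp; omega)
    have h2 := hG u w (by simp; omega)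
    simp only [List.cons_append, bdL, map_sub, lc_cone, linearCombination_single, one_smul]
    linear_combination (norm := abel1) h2 - h1

lemma lc_bdL_deg (G : List α → M) (u : List α) (a : α) (w : List α)
    (hG : ∀ u' w', u'.length + w'.length + 1 = u.length + w.length → G (u' ++ a :: a :: w') = 0) :
    lc G (bdL R (u ++ a :: a :: w)) = 0 := by
  induction u generalizing G with
  | nil =>
    have := map_eq (F := lc (fun l => G (a :: a :: l))) (G := 0)
      (fun m hm => by simpa using hG [] m (by simpa using hm.1)) (bdL_mem (R := R) w)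
    simp only [List.nil_append, bdL, map_sub, lc_cone, linearCombination_single, one_smul, this]
    simp
  | cons x u ih =>
    have h1 := ih (fun l => G (x :: l)) fun u' w' h => hG (x :: u') w' (by simp; omega)
    have h2 := hG u w (by simp; omega)
    simp only [List.cons_append, bdL, map_sub, lc_cone, linearCombination_single, one_smul, h1, h2,
      sub_zero]

variable (R) in
/-- The cone on the first entry. -/
noncomputable def hdc : List α → Ch R α →ₗ[R] Ch R α
  | [] => 0
  | a :: _ => cone a

lemma hdc_spec (l : List α) (hl : l ≠ []) (x : Ch R α) :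
    bd (hdc R l x) + hdc R l (bd x) = x := by
  obtain ⟨a, l, rfl⟩ := List.exists_cons_of_ne_nil hl
  exact bd_cone a x

lemma hdc_nat (f : α → β) (l : List α) (_ : l ≠ []) (x : Ch R α) :
    lmap f (hdc R l x) = hdc R (l.map f) (lmap f x) := by
  rcases l with _ | ⟨a, l⟩
  · simp [hdc]
  · exact lmap_cone f a x

lemma hdc_Lin {K : Set α} (l : List α) (hl : ∀ x ∈ l, x ∈ K) (n : ℕ) (c : Ch R α)
    (hc : c ∈ Lin R K n) : hdc R l c ∈ Lin R K (n + 1) := by
  rcases l with _ | ⟨a, l⟩
  · exact zero_mem _
  · exact cone_Lin (hl a (by simp)) hc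

lemma retL_deg (h : List α → Ch R α →ₗ[R] Ch R α) (u : List α) (a : α) (w : List α) :
    retL h (u ++ a :: a :: w) = 0 := by
  induction hn : u.length + w.length using Nat.strong_induction_on generalizing u w with
  | _ n ih =>
    rw [retL_ne _ (by simp), lc_bdL_deg _ u a w fun u' w' h => ih _ (by omega) u' w' rfl, map_zero]

variable {F : Type} [Field F] [CharZero F]

variable (F) in
/-- The average of the cones on the entries. -/
noncomputable def avc (l : List α) : Ch F α →ₗ[F] Ch F α := (l.length : F)⁻¹ • (l.map cone).sum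

lemma avc_spec (l : List α) (hl : l ≠ []) (x : Ch F α) :
    bd (avc F l x) + avc F l (bd x) = x := by
  have : ∀ l : List α, bd ((l.map cone).sum x) + (l.map cone).sum (bd x) = (l.length : F) • x := by
    intro l
    induction l with
    | nil => simp
    | cons a l ih =>
      simp only [List.map_cons, List.sum_cons, LinearMap.add_apply, map_add, List.length_cons,
        Nat.cast_succ, add_smul, one_smul]
      linear_combination (norm := abel1) ih + bd_cone a x
  simp only [avc, LinearMap.smul_apply, map_smul, ← smul_add, this, smul_smul]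
  rw [inv_mul_cancel₀ (by simpa using hl), one_smul]

lemma avc_nat (f : α → β) (l : List α) (_ : l ≠ []) (x : Ch F α) :
    lmap f (avc F l x) = avc F (l.map f) (lmap f x) := by
  have : ∀ l : List α, lmap f ((l.map cone).sum x) = ((l.map f).map cone).sum (lmap f x) := by
    intro l
    induction l with
    | nil => simp
    | cons a l ih => simp only [List.map_cons, List.sum_cons, LinearMap.add_apply, map_add, ih,
        lmap_cone]
  simp only [avc, LinearMap.smul_apply, map_smul, this, List.length_map]

lemma avc_Lin {K : Set α} (l : List α) (hl : ∀ x ∈ l, x ∈ K) (n : ℕ) (c : Ch F α)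
    (hc : c ∈ Lin F K n) : avc F l c ∈ Lin F K (n + 1) := by
  refine Submodule.smul_mem _ _ ?_
  induction l with
  | nil => exact zero_mem _
  | cons a l ih =>
    exact add_mem (cone_Lin (hl a (by simp)) hc) (ih fun x hx => hl x (by simp [hx]))

lemma alt_swap (u : List α) (a b : α) (w : List α) :
    retL (avc F) (u ++ a :: b :: w) + retL (avc F) (u ++ b :: a :: w) = 0 := by
  induction hn : u.length + w.length using Nat.strong_induction_on generalizing u w with
  | _ n ih =>
    have e : avc F (u ++ b :: a :: w) = avc F (u ++ a :: b :: w) := by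
      simp [avc, add_left_comm]
    rw [retL_ne _ (by simp), retL_ne (l := u ++ b :: a :: w) _ (by simp), e, ← map_add,
      lc_bdL_swap _ u a b w fun u' w' h => ih _ (by omega) u' w' rfl, map_zero]

/-- Alternation kills lists with a repeated entry. -/
theorem alt_dup {l : List α} (hl : ¬ l.Nodup) : retL (avc F) l = 0 := by
  have key : ∀ {l l' : List α}, l.Perm l' → ∀ u, retL (avc F) (u ++ l') = 0 →
      retL (avc F) (u ++ l) = 0 := by
    intro l l' h
    induction h with
    | nil => exact fun _ => id
    | cons x _ ih => exact fun u h => by simpa using ih (u ++ [x]) (by simpa using h)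
    | swap x y l => exact fun u h => by simpa [h] using alt_swap (F := F) u y x l
    | trans _ _ ih ih' => exact fun u h => ih u (ih' u h)
  obtain ⟨a, ha⟩ := List.exists_duplicate_iff_not_nodup.2 hl
  obtain ⟨w, hw⟩ := (List.duplicate_iff_sublist.1 ha).exists_perm_append
  exact key hw [] (retL_deg _ [] a w)

end lists

variable {Y Y' : Type*} [TopologicalSpace Y] [Nonempty Y] [TopologicalSpace Y'] [Nonempty Y']
  {R : Type} [CommRing R] {A : Set Y} {n k : ℕ} {c : C R Y} {φ : C R Y →ₗ[R] R}

lemma nuL_std (n : ℕ) : retL (hdc R) (std n) ∈ Lin R (Δ n) (id n) := by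
  simpa using retL_Lin (h := hdc R) hdc_Lin (std_mem (n := n))

lemma nuT_std (n : ℕ) : retT (hdc R) (std n) ∈ Lin R (Δ n) (n + 1) := by
  simpa using retT_Lin (h := hdc R) hdc_Lin (std_mem (n := n))

/-- Normalisation. -/
noncomputable def nu : C R Y →ₗ[R] C R Y := op (retL (hdc R))

/-- The homotopy from the identity to the normalisation. -/
noncomputable def nuT : C R Y →ₗ[R] C R Y := op (retT (hdc R))

lemma nu_In (hc : c ∈ In R A n) : nu c ∈ In R A n := op_In nuL_std hc

lemma nuT_In (hc : c ∈ In R A n) : nuT c ∈ In R A (n + 1) := op_In nuT_std hc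

lemma D_nu (c : C R Y) : D (nu c) = nu (D c) :=
  map_eq (F := D ∘ₗ nu) (G := nu ∘ₗ D) (fun s _ => by
    simp only [LinearMap.comp_apply, D_single, nu, op_single]
    rw [D_real (convex_Δ _) s.cont (nuL_std _), bd_retL hdc_spec,
      op_real nuL_std (convex_Δ _) s.cont (fun φ => lmap_retL (hdc_nat φ)) (bdL_std _)]) (mem_top c)

lemma D_nuT (c : C R Y) : D (nuT c) + nuT (D c) = c - nu c :=
  map_eq (F := D ∘ₗ nuT + nuT ∘ₗ D) (G := LinearMap.id - nu) (fun s _ => by
    simp only [LinearMap.comp_apply, LinearMap.add_apply, LinearMap.sub_apply, D_single, nu, nuT,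
      op_single, LinearMap.id_apply]
    rw [D_real (convex_Δ _) s.cont (nuT_std _), bd_retT hdc_spec,
      op_real nuT_std (convex_Δ _) s.cont (fun φ => lmap_retT (hdc_nat φ)) (bdL_std _), map_sub,
      map_sub, real_std, sub_add_cancel]) (mem_top c)

lemma map_nu {g : Y → Y'} (hg : ContinuousOn g A) (hc : c ∈ In R A n) :
    map g (nu c) = nu (map g c) := map_op nuL_std hg hc

/-- Normalisation kills affine simplices with two equal neighbouring vertices. -/
lemma nu_deg {E : Type*} [AddCommGroup E] [Module ℝ E] [TopologicalSpace E] [ContinuousAdd E]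
    [ContinuousSMul ℝ E] {K : Set E} (hK : Convex ℝ K) {F : E → Y} (hF : ContinuousOn F K)
    {u w : List E} {a : E} (hl : ∀ x ∈ u ++ a :: a :: w, x ∈ K) :
    nu (real F (single (u ++ a :: a :: w) (1 : R))) = 0 := by
  rw [nu, op_real nuL_std hK hF (fun φ => lmap_retL (hdc_nat φ)) (single_mem ⟨rfl, hl⟩),
    linearCombination_single, retL_deg, smul_zero, map_zero]

lemma Coc.comp_nu (h : Coc A k φ) : Coc A k (φ ∘ₗ nu) := fun c hc => by
  rw [LinearMap.comp_apply, ← D_nu, h _ (nu_In hc)]

lemma Coc.dies_nu (h : Coc A k φ) : Dies A k (φ - φ ∘ₗ nu) :=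
  ⟨φ ∘ₗ nuT, fun c hc => by
    rw [LinearMap.sub_apply, LinearMap.comp_apply, ← map_sub, ← D_nuT, map_add, h _ (nuT_In hc),
      zero_add, LinearMap.comp_apply]⟩

end Pool.Agent.Shared.Sing
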