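import Pool.Agent.Shared.Sing.Fund
import Pool.Agent.Shared.Sing.Alt

/-! Global models of simplices, change of coefficients, the reduced boundary. -/

set_option linter.unusedSectionVars false

namespace Pool.Agent.Shared.SingEZ

open Finsupp Set Pool.Agent.Shared.Sing

variable {Y Y' Y'' : Type*} [TopologicalSpace Y] [Nonempty Y] [TopologicalSpace Y'] [Nonempty Y']
  [TopologicalSpace Y''] [Nonempty Y''] {R : Type} [CommRing R]
  {M : Type*} [AddCommMonoid M] [Module R M]

lemma mmem {α : Type*} {S : Set α} {F : (α →₀ R) →ₗ[R] M} {P : Submodule R M}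
    (h : ∀ a ∈ S, F (single a 1) ∈ P) {c : α →₀ R} (hc : c ∈ supported R R S) : F c ∈ P := by
  rw [supported_eq_span_single] at hc
  refine (Submodule.span_le (p := P.comap F)).2 ?_ hc
  rintro _ ⟨a, ha, rfl⟩
  exact h a ha

lemma meq {α : Type*} {S : Set α} {F G : (α →₀ R) →ₗ[R] M}
    (h : ∀ a ∈ S, F (single a 1) = G (single a 1)) {c : α →₀ R} (hc : c ∈ supported R R S) :
    F c = G c := mmem (F := LinearMap.id) (P := LinearMap.eqLocus F G) h hc

lemma exists_retr {n : ℕ} (hn : n ≠ 0) :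
    ∃ ρ : V → V, Continuous ρ ∧ (∀ t, ρ t ∈ Δ n) ∧ ∀ t ∈ Δ n, ρ t = t := by
  let S : V → ℝ := fun t => ∑ i ∈ Finset.range n, max (t i) 0
  have hS : Continuous S := by fun_prop
  have h1 : ∀ t, (0 : ℝ) < max (S t) 1 := fun t => lt_max_of_lt_right one_pos
  refine ⟨fun t i => if i < n then (max (t i) 0 + if i = 0 then max (1 - S t) 0 else 0) /
    max (S t) 1 else 0, continuous_pi fun i => ?_, fun t => ⟨fun i => ?_, fun i hi => ?_, ?_⟩,
    fun t ht => ?_⟩
  · split_ifs
    · exact Continuous.div (by fun_prop) (by fun_prop) fun t => (h1 t).ne'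
    · exact Continuous.div (by fun_prop) (by fun_prop) fun t => (h1 t).ne'
    · fun_prop
  · have := h1 t
    dsimp only
    split_ifs <;> positivity
  · exact if_neg (by omega)
  · rw [Finset.sum_congr rfl fun i hi => if_pos (Finset.mem_range.1 hi), ← Finset.sum_div,
      Finset.sum_add_distrib, Finset.sum_ite_eq' , if_pos (by simp; omega), div_eq_one_iff_eq (h1 t).ne']
    rcases le_total (S t) 1 with h | h
    · rw [max_eq_left (sub_nonneg.2 h), max_eq_right h]; ring
    · rw [max_eq_right (sub_nonpos.2 h), max_eq_left h]; ring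
  · have h2 : S t = 1 := by
      rw [← ht.2.2]
      exact Finset.sum_congr rfl fun i _ => max_eq_left (ht.1 i)
    funext i
    by_cases hi : i < n
    · simp [hi, h2, ht.1 i]
    · simp [hi, ht.2.1 i (by omega)]

lemma std_Lin (n : ℕ) : single (std n) (1 : R) ∈ Lin R (Δ n) n :=
  single_mem ⟨length_std n, std_mem⟩

lemma exists_glob (s : Sx Y) : ∃ F : V → Y, Continuous F ∧
    single s (1 : R) = real F (single (std s.n) 1) ∧ (s.n ≠ 0 → ∀ t, F t ∈ s.f '' Δ s.n) := by
  by_cases hn : s.n = 0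
  · refine ⟨fun _ => Classical.arbitrary Y, continuous_const, ?_, fun h => absurd hn h⟩
    rw [← real_std]
    exact real_congr (convex_Δ _) (fun t ht => by simp [hn, Δ_zero] at ht) (std_Lin _)
  obtain ⟨ρ, h1, h2, h3⟩ := exists_retr hn
  refine ⟨s.f ∘ ρ, s.cont.comp_continuous h1 h2, ?_, fun _ t => ⟨ρ t, h2 t, rfl⟩⟩
  rw [← real_std]
  exact real_congr (convex_Δ _) (fun t ht => by simp [h3 t ht]) (std_Lin _)

lemma mem_In {A : Set Y} {n : ℕ} {f : C R Y →ₗ[R] M} {P : Submodule R M}
    (h : ∀ F : V → Y, Continuous F → (∀ t, F t ∈ A) → ∀ l : List V, l.length = n + 1 →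
      f (real F (single l 1)) ∈ P) {c : C R Y} (hc : c ∈ In R A (n + 1)) : f c ∈ P := by
  refine mmem (fun s hs => ?_) hc
  obtain ⟨F, h1, h2, h3⟩ := exists_glob (R := R) s
  rw [h2]
  exact h F h1 (fun t => hs.2.image_subset (h3 (by rw [hs.1]; omega) t)) _ (by simp [hs.1])

lemma eq_In {A : Set Y} {n : ℕ} {f g : C R Y →ₗ[R] M}
    (h : ∀ F : V → Y, Continuous F → (∀ t, F t ∈ A) → ∀ l : List V, l.length = n + 1 →
      f (real F (single l 1)) = g (real F (single l 1))) {c : C R Y} (hc : c ∈ In R A (n + 1)) :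
    f c = g c := mem_In (f := LinearMap.id) (P := LinearMap.eqLocus f g) h hc

lemma eq_all {f g : C R Y →ₗ[R] M}
    (h : ∀ F : V → Y, Continuous F → ∀ l : List V,
      f (real F (single l 1)) = g (real F (single l 1))) (c : C R Y) : f c = g c := by
  refine meq (fun s _ => ?_) (mem_top c)
  obtain ⟨F, h1, h2, -⟩ := exists_glob (R := R) s
  rw [h2, h F h1]

lemma Lin_univ {W : Type*} (l : List W) : single l (1 : R) ∈ Lin R univ l.length :=
  single_mem ⟨rfl, fun _ _ => trivial⟩

section glob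

variable {W : Type*} [AddCommGroup W] [Module ℝ W] [TopologicalSpace W] [ContinuousAdd W]
  [ContinuousSMul ℝ W] {F : W → Y} (hF : Continuous F)
include hF

lemma D_glob (c : Ch R W) : D (real F c) = real F (bd c) :=
  map_eq (F := D ∘ₗ real F) (G := real F ∘ₗ bd)
    (fun l _ => D_real convex_univ hF.continuousOn (Lin_univ l)) (mem_top c)

lemma map_glob (g : Y → Y') (c : Ch R W) : map g (real F c) = real (g ∘ F) c :=
  map_eq (F := map g ∘ₗ real F) (fun l _ => map_real convex_univ hF.continuousOn g (Lin_univ l))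
    (mem_top c)

lemma glob_In {A : Set Y} (hA : ∀ t, F t ∈ A) (l : List W) :
    real F (single l (1 : R)) ∈ In R A l.length :=
  real_In convex_univ hF.continuousOn (fun t _ => hA t) (Lin_univ l)

end glob

lemma map_D' {g : Y → Y'} (hg : Continuous g) (c : C R Y) : map g (D c) = D (map g c) :=
  ext_univ (F := map g ∘ₗ D) (G := D ∘ₗ map g) (fun _ _ hc => map_D hg.continuousOn hc) c

lemma map_map' {g : Y → Y'} (hg : Continuous g) (g' : Y' → Y'') (c : C R Y) :
    map g' (map g c) = map (g' ∘ g) c :=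
  ext_univ (F := map g' ∘ₗ map g) (fun _ _ hc => map_map hg.continuousOn hc) c

lemma map_id' (c : C R Y) : map id c = c :=
  ext_univ (G := LinearMap.id) (fun _ _ hc => map_self (fun _ _ => rfl) hc) c

lemma map_In' {g : Y → Y'} (hg : Continuous g) {n : ℕ} {c : C R Y} (hc : c ∈ In R univ n) :
    map g c ∈ In R univ n := map_In hg.continuousOn (mapsTo_univ _ _) hc

lemma map_Bd {g : Y → Y'} {A : Set Y} {A' : Set Y'} (hg : ContinuousOn g A) (h : MapsTo g A A')
    {n : ℕ} {c : C R Y} (hc : c ∈ Bd R A n) : map g c ∈ Bd R A' n := by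
  obtain ⟨w, hw, rfl⟩ := hc
  exact ⟨map g w, map_In hg h hw, (map_D hg hw).symm⟩

lemma Bd_mono {A A' : Set Y} (h : A ⊆ A') (n : ℕ) : Bd R A n ≤ Bd R A' n :=
  Submodule.map_mono (In_mono h _)

lemma D_mem_Bd {A : Set Y} {n : ℕ} {c : C R Y} (hc : c ∈ In R A (n + 1)) : D c ∈ Bd R A n :=
  ⟨c, hc, rfl⟩

/-- The augmentation, on simplices with one vertex only. -/
noncomputable def e1 : C R Y →ₗ[R] R := lc fun s => if s.n = 1 then 1 else 0

lemma e1_real {W : Type*} [AddCommGroup W] [Module ℝ W] (F : W → Y) (l : List W) :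
    e1 (real F (single l (1 : R))) = if l.length = 1 then 1 else 0 := by simp [e1]

lemma e1_map (g : Y → Y') (c : C R Y) : e1 (map g c) = e1 c :=
  map_eq (F := e1 ∘ₗ map g) (fun s _ => by simp [e1]) (mem_top c)

lemma e1_In {A : Set Y} {n : ℕ} {c : C R Y} (hc : c ∈ In R A n) (hn : n ≠ 1) : e1 c = 0 :=
  map_eq (G := 0) (fun s hs => by simp [e1, hs.1, hn]) hc

lemma e1_eq {A : Set Y} {c : C R Y} (hc : c ∈ In R A 1) : e1 c = eps c :=
  map_eq (fun s hs => by simp [e1, hs.1]) hc

/-- The empty simplex. -/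
noncomputable def emp (R : Type) [CommRing R] (Y : Type*) [TopologicalSpace Y] [Nonempty Y] :
    C R Y := single (mk 0 fun _ => Classical.arbitrary Y) 1

lemma real_nil {W : Type*} [AddCommGroup W] [Module ℝ W] (F : W → Y) :
    real F (single [] (1 : R)) = emp R Y := by
  rw [real_single, emp]
  exact congrArg (single · 1) (mk_congr fun t ht => by simp [Δ_zero] at ht)

lemma emp_In (A : Set Y) : emp R Y ∈ In R A 0 :=
  single_mem ⟨rfl, fun t ht => by simp [Δ_zero] at ht⟩

lemma D_one {A : Set Y} {c : C R Y} (hc : c ∈ In R A 1) : D c = e1 c • emp R Y :=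
  eq_In (g := e1.smulRight (emp R Y)) (fun F hF _ l hl => by
    obtain _ | ⟨v, _ | _⟩ := l <;> simp at hl
    simp [D_glob hF, bdL, e1_real, real_nil, -real_single]) hc

lemma In_zero_eq {A : Set Y} {c : C R Y} (hc : c ∈ In R A 0) : ∃ r : R, c = r • emp R Y := by
  refine (Submodule.mem_span_singleton.1 (map_mem (F := LinearMap.id)
    (P := Submodule.span R {emp R Y}) (fun s hs => ?_) hc)).imp fun r h => h.symm
  rw [LinearMap.id_apply, ← real_std, hs.1, show std 0 = [] from rfl, real_nil]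
  exact Submodule.mem_span_singleton_self _

lemma cap_glob {W : Type*} [AddCommGroup W] [Module ℝ W] [TopologicalSpace W] [ContinuousAdd W]
    [ContinuousSMul ℝ W] {F : W → Y} (hF : Continuous F) (p : ℕ) (φ : C R Y →ₗ[R] R) (c : Ch R W) :
    cap p φ (real F c) = real F (lc (capL p (φ ∘ₗ real F)) c) :=
  map_eq (F := cap p φ ∘ₗ real F) (G := real F ∘ₗ lc (capL p (φ ∘ₗ real F)))
    (fun l _ => cap_real convex_univ hF.continuousOn p φ (Lin_univ l)) (mem_top c)

/-! ### Change of coefficients -/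

section cf

variable {S : Type} [CommRing S] (φ : R →+* S)

/-- Change of coefficients. -/
noncomputable def cf {α : Type*} : (α →₀ R) →+ (α →₀ S) := mapRange.addMonoidHom φ.toAddMonoidHom

@[simp] lemma cf_single {α : Type*} (a : α) (r : R) : cf φ (single a r) = single a (φ r) := by
  simp [cf]

lemma cf_apply {α : Type*} (c : α →₀ R) (a : α) : cf φ c a = φ (c a) := rfl

lemma cf_smul {α : Type*} (r : R) (c : α →₀ R) : cf φ (r • c) = φ r • cf φ c := by
  ext a
  simp [cf_apply]

lemma cf_supported {α : Type*} {T : Set α} {c : α →₀ R} (hc : c ∈ supported R R T) :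
    cf φ c ∈ supported S S T := fun _ ha => hc (support_mapRange (hf := map_zero φ) ha)

lemma cf_comm {α β : Type*} {f : (α →₀ R) →ₗ[R] (β →₀ R)} {g : (α →₀ S) →ₗ[S] (β →₀ S)}
    (h : ∀ a, cf φ (f (single a 1)) = g (single a 1)) (c : α →₀ R) : cf φ (f c) = g (cf φ c) := by
  induction c using Finsupp.induction_linear with
  | zero => simp
  | add a b ha hb => simp [ha, hb]
  | single a r => rw [← smul_single_one, map_smul, cf_smul, cf_smul, h, cf_single, map_one, map_smul]

lemma cf_cone {α : Type*} (a : α) (c : Ch R α) : cf φ (cone a c) = cone a (cf φ c) :=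
  cf_comm φ (fun l => by simp) c

lemma cf_bdL {α : Type*} (l : List α) : cf φ (bdL R l) = bdL S l := by
  induction l with
  | nil => simp [bdL]
  | cons a l ih => simp [bdL, cf_cone, ih]

lemma cf_real {W : Type*} [AddCommGroup W] [Module ℝ W] (F : W → Y) (c : Ch R W) :
    cf φ (real F c) = real F (cf φ c) := cf_comm φ (fun l => by simp) c

lemma cf_D (c : C R Y) : cf φ (D c) = D (cf φ c) :=
  cf_comm φ (fun s => by rw [D_single, D_single, cf_real, cf_bdL]) c

lemma cf_map (g : Y → Y') (c : C R Y) : cf φ (map g c) = map g (cf φ c) :=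
  cf_comm φ (fun s => by simp) c

lemma cf_In {A : Set Y} {n : ℕ} {c : C R Y} (hc : c ∈ In R A n) : cf φ c ∈ In S A n :=
  cf_supported φ hc

lemma cf_Z {O U : Set Y} {n : ℕ} {c : C R Y} (hc : c ∈ Z R O U n) : cf φ c ∈ Z S O U n :=
  ⟨cf_In φ hc.1, show D _ ∈ _ from cf_D φ c ▸ cf_In φ hc.2⟩

lemma cf_Bd {O : Set Y} {n : ℕ} {c : C R Y} (hc : c ∈ Bd R O n) : cf φ c ∈ Bd S O n := by
  obtain ⟨w, hw, rfl⟩ := hc
  exact ⟨_, cf_In φ hw, (cf_D φ w).symm⟩

lemma cf_B {O U : Set Y} {n : ℕ} {c : C R Y} (hc : c ∈ B R O U n) : cf φ c ∈ B S O U n := by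
  obtain ⟨w, hw, h⟩ := mem_B hc
  refine B_of (cf_In φ hw) ?_
  rw [← cf_D, ← map_sub]
  exact cf_In φ h

lemma cf_lift {α : Type*} (hφ : Function.Surjective φ) {T : Set α} {c : α →₀ S}
    (hc : c ∈ supported S S T) : ∃ c' ∈ supported R R T, cf φ c' = c := by
  classical
  choose ψ hψ using hφ
  refine ⟨mapRange (fun x => if x = 0 then 0 else ψ x) (if_pos rfl) c,
    fun _ ha => hc (support_mapRange ha), ?_⟩
  ext a
  rw [cf_apply, mapRange_apply]
  split_ifs with h
  · simp [h]
  · exact hψ _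

end cf

end Pool.Agent.Shared.SingEZ
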