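import Pool.Agent.Shared.Sing.Lists

/-! Augmented singular chains, realisation of affine chains, natural operators. -/

set_option linter.unusedSectionVars false

namespace Pool.Agent.Shared.Sing

open Finsupp Set

abbrev V := ℕ → ℝ

/-- The standard simplex with `n` vertices. -/
def Δ (n : ℕ) : Set V :=
  {t | (∀ i, 0 ≤ t i) ∧ (∀ i, n ≤ i → t i = 0) ∧ ∑ i ∈ Finset.range n, t i = 1}

lemma convex_Δ (n : ℕ) : Convex ℝ (Δ n) := by
  rintro x ⟨x1, x2, x3⟩ y ⟨y1, y2, y3⟩ a b ha hb hab
  refine ⟨fun i => add_nonneg (mul_nonneg ha (x1 i)) (mul_nonneg hb (y1 i)),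
    fun i hi => by simp [x2 i hi, y2 i hi], ?_⟩
  simp [Finset.sum_add_distrib, ← Finset.mul_sum, x3, y3, hab]

lemma Δ_le {n : ℕ} {t : V} (h : t ∈ Δ n) (i : ℕ) : t i ≤ 1 := by
  by_cases hi : n ≤ i
  · simp [h.2.1 i hi]
  · rw [← h.2.2]
    exact Finset.single_le_sum (fun j _ => h.1 j) (by simpa using hi)

lemma isCompact_Δ (n : ℕ) : IsCompact (Δ n) := by
  refine (isCompact_Icc (a := (0 : V)) (b := 1)).of_isClosed_subset ?_ fun t h => ⟨h.1, Δ_le h⟩
  simp only [Δ, ofPred_and, ofPred_forall]
  refine (isClosed_iInter fun i => isClosed_le (by fun_prop) (by fun_prop)).inter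
    ((isClosed_iInter fun i => isClosed_iInter fun _ => isClosed_eq (by fun_prop)
      (by fun_prop)).inter (isClosed_eq (by fun_prop) (by fun_prop)))

lemma single_mem_Δ {n i : ℕ} (h : i < n) : Pi.single i 1 ∈ Δ n :=
  ⟨fun j => by by_cases hj : j = i <;> simp [hj], fun j hj => by
    rw [Pi.single_eq_of_ne (by omega)], by simp [Finset.sum_pi_single', h]⟩

lemma Δ_zero : Δ 0 = ∅ := by
  ext t
  simp [Δ]

section aff

variable {W W' : Type*} [AddCommGroup W] [Module ℝ W] [AddCommGroup W'] [Module ℝ W']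

/-- The affine simplex with given vertices. -/
noncomputable def aff (l : List W) : V →ₗ[ℝ] W :=
  ∑ i ∈ Finset.range l.length, (LinearMap.proj i : V →ₗ[ℝ] ℝ).smulRight (l.getD i 0)

lemma aff_apply (l : List W) (t : V) :
    aff l t = ∑ i ∈ Finset.range l.length, t i • l.getD i 0 := by
  simp [aff, LinearMap.sum_apply]

lemma aff_map (φ : W →ₗ[ℝ] W') (l : List W) (t : V) : aff (l.map φ) t = φ (aff l t) := by
  simp only [aff_apply, map_sum, map_smul, List.length_map]
  refine Finset.sum_congr rfl fun i _ => ?_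
  rw [← List.getD_map (f := φ), map_zero]

lemma aff_mem {K : Set W} (hK : Convex ℝ K) {l : List W} (hl : ∀ x ∈ l, x ∈ K) {t : V}
    (ht : t ∈ Δ l.length) : aff l t ∈ K := by
  rw [aff_apply]
  refine hK.sum_mem (fun i _ => ht.1 i) ht.2.2 fun i hi => hl _ ?_
  rw [List.getD_eq_getElem _ _ (by simpa using hi)]
  exact List.getElem_mem _

lemma continuous_aff [TopologicalSpace W] [ContinuousAdd W] [ContinuousSMul ℝ W] (l : List W) :
    Continuous (aff l) := by
  rw [show ⇑(aff l) = _ from funext (aff_apply l)]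
  fun_prop

/-- The vertices of the standard simplex. -/
def std (n : ℕ) : List V := (List.range n).map fun i => Pi.single i 1

@[simp] lemma length_std (n : ℕ) : (std n).length = n := by simp [std]

lemma std_mem {n : ℕ} : ∀ x ∈ std n, x ∈ Δ n := by
  intro x hx
  obtain ⟨i, hi, rfl⟩ := List.mem_map.1 hx
  exact single_mem_Δ (by simpa using hi)

lemma map_aff_std (l : List W) : (std l.length).map (aff l) = l := by
  refine List.ext_getElem (by simp) fun i h1 h2 => ?_
  simp [std, aff_apply, Pi.single_apply, h2]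

lemma aff_std {n : ℕ} {t : V} (ht : t ∈ Δ n) : aff (std n) t = t := by
  ext j
  rw [aff_apply, Finset.sum_apply, length_std,
    Finset.sum_congr rfl (g := fun i => if i = j then t j else 0) fun i hi => by
      rw [List.getD_eq_getElem _ _ (by simpa using hi)]
      by_cases h : i = j <;> simp [std, h]]
  by_cases h : j < n
  · simp [h]
  · simp [ht.2.1 j (by omega)]

lemma aff_pair (l : List W) (c : ℝ) {t : V} (ht : t ∈ Δ l.length) :
    aff (l.map fun x => (x, c)) t = (aff l t, c) := by
  refine Prod.ext ?_ ?_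
  · rw [← LinearMap.fst_apply (R := ℝ), ← aff_map]
    simp [Function.comp_def]
  · refine aff_mem (K := {p : W × ℝ | p.2 = c}) ((convex_singleton c).linear_preimage
      (LinearMap.snd ℝ W ℝ)) (fun x hx => ?_) (by simpa using ht)
    obtain ⟨y, -, rfl⟩ := List.mem_map.1 hx
    rfl

end aff

/-- A singular simplex with `n` vertices; `n = 0` gives the empty simplex. -/
@[ext] structure Sx (Y : Type*) [TopologicalSpace Y] [Nonempty Y] where
  n : ℕ
  f : V → Y
  cont : ContinuousOn f (Δ n)
  junk : ∀ t, t ∉ Δ n → f t = Classical.arbitrary Y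

variable {Y Y' Y'' : Type*} [TopologicalSpace Y] [Nonempty Y] [TopologicalSpace Y'] [Nonempty Y']
  [TopologicalSpace Y''] [Nonempty Y''] {R : Type} [CommRing R]

open Classical in
noncomputable def mk (n : ℕ) (f : V → Y) : Sx Y where
  n := n
  f t := if t ∈ Δ n ∧ ContinuousOn f (Δ n) then f t else Classical.arbitrary Y
  cont := by
    by_cases h : ContinuousOn f (Δ n)
    · exact h.congr fun t ht => if_pos ⟨ht, h⟩
    · simpa [h] using continuousOn_const
  junk t ht := if_neg fun h => ht h.1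

@[simp] lemma mk_n (n : ℕ) (f : V → Y) : (mk n f).n = n := rfl

lemma mk_f {n : ℕ} {f : V → Y} (h : ContinuousOn f (Δ n)) : EqOn (mk n f).f f (Δ n) :=
  fun _ ht => if_pos ⟨ht, h⟩

lemma mk_congr {n : ℕ} {f g : V → Y} (h : EqOn f g (Δ n)) : mk n f = mk n g := by
  refine Sx.ext rfl (funext fun t => ?_)
  by_cases h1 : t ∈ Δ n ∧ ContinuousOn f (Δ n)
  · exact (mk_f h1.2 h1.1).trans ((h h1.1).trans (mk_f (h1.2.congr h.symm) h1.1).symm)
  · exact (if_neg h1).trans (if_neg (by rwa [← continuousOn_congr h])).symm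

lemma mk_eq (s : Sx Y) {f : V → Y} (h : EqOn f s.f (Δ s.n)) : mk s.n f = s := by
  rw [mk_congr h]
  refine Sx.ext rfl (funext fun t => ?_)
  by_cases ht : t ∈ Δ s.n
  · exact mk_f s.cont ht
  · rw [s.junk t ht, (mk s.n s.f).junk t ht]

abbrev C (R : Type) [CommRing R] (Y : Type*) [TopologicalSpace Y] [Nonempty Y] := Sx Y →₀ R

variable (R) in
/-- Chains of simplices with `n` vertices inside `A`. -/
noncomputable def In (A : Set Y) (n : ℕ) : Submodule R (C R Y) :=
  supported R R {s | s.n = n ∧ MapsTo s.f (Δ s.n) A}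

lemma In_mono {A B : Set Y} (h : A ⊆ B) (n : ℕ) : In R A n ≤ In R B n :=
  supported_mono fun _ hs => ⟨hs.1, hs.2.mono_right h⟩

lemma In_inter {A B : Set Y} {n : ℕ} {c : C R Y} (h : c ∈ In R A n) (h' : c ∈ In R B n) :
    c ∈ In R (A ∩ B) n := fun _ hs => ⟨(h hs).1, (h hs).2.inter (h' hs).2⟩

lemma In_univ {A : Set Y} {n : ℕ} {c : C R Y} (h : c ∈ In R A n) : c ∈ In R univ n :=
  In_mono (subset_univ A) n h

noncomputable def map (g : Y → Y') : C R Y →ₗ[R] C R Y' :=
  lmapDomain R R fun s => mk s.n (g ∘ s.f)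

@[simp] lemma map_single (g : Y → Y') (s : Sx Y) (r : R) :
    map g (single s r) = single (mk s.n (g ∘ s.f)) r := by simp [map]

lemma map_In {g : Y → Y'} {A : Set Y} {B : Set Y'} (hg : ContinuousOn g A) (hB : MapsTo g A B)
    {n : ℕ} {c : C R Y} (hc : c ∈ In R A n) : map g c ∈ In R B n := by
  refine map_mem (fun s hs => ?_) hc
  rw [map_single]
  refine single_mem ⟨hs.1, fun t ht => ?_⟩
  rw [mk_f (hg.comp s.cont hs.2) ht]
  exact hB (hs.2 ht)

lemma map_map {g : Y → Y'} {g' : Y' → Y''} {A : Set Y} (hg : ContinuousOn g A) {n : ℕ}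
    {c : C R Y} (hc : c ∈ In R A n) : map g' (map g c) = map (g' ∘ g) c := by
  refine map_eq (F := map g' ∘ₗ map g) (fun s hs => ?_) hc
  simp only [LinearMap.comp_apply, map_single, mk_n]
  exact congrArg (single · 1) (mk_congr fun t ht => congrArg g' (mk_f (hg.comp s.cont hs.2) ht))

lemma map_congr {g g' : Y → Y'} {A : Set Y} (hg : EqOn g g' A) {n : ℕ} {c : C R Y}
    (hc : c ∈ In R A n) : map g c = map g' c := by
  refine map_eq (fun s hs => ?_) hc
  simp only [map_single]
  exact congrArg (single · 1) (mk_congr fun t ht => hg (hs.2 ht))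

lemma map_self {g : Y → Y} {A : Set Y} (hg : EqOn g id A) {n : ℕ} {c : C R Y}
    (hc : c ∈ In R A n) : map g c = c := by
  refine map_eq (G := LinearMap.id) (fun s hs => ?_) hc
  simp only [map_single]
  exact congrArg (single · 1) (mk_eq s fun t ht => hg (hs.2 ht))

lemma single_In (s : Sx Y) : single s (1 : R) ∈ In R univ s.n :=
  single_mem ⟨rfl, mapsTo_univ _ _⟩

lemma ext_univ {M : Type*} [AddCommGroup M] [Module R M] {F G : C R Y →ₗ[R] M}
    (h : ∀ n, ∀ c ∈ In R univ n, F c = G c) (c : C R Y) : F c = G c :=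
  map_eq (fun s _ => h _ _ (single_In s)) (mem_top c)

section real

variable {W : Type*} [AddCommGroup W] [Module ℝ W] [TopologicalSpace W] [ContinuousAdd W]
  [ContinuousSMul ℝ W]

variable (R) in
/-- Affine chains with vertices in `K`. -/
noncomputable def Lin (K : Set W) (n : ℕ) : Submodule R (Ch R W) :=
  supported R R {l | l.length = n ∧ ∀ x ∈ l, x ∈ K}

/-- Realisation of affine chains. -/
noncomputable def real (F : W → Y) : Ch R W →ₗ[R] C R Y :=
  lmapDomain R R fun l => mk l.length (F ∘ aff l)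

omit [TopologicalSpace W] [ContinuousAdd W] [ContinuousSMul ℝ W] in
@[simp] lemma real_single (F : W → Y) (l : List W) (r : R) :
    real F (single l r) = single (mk l.length (F ∘ aff l)) r := by simp [real]

variable {K : Set W} (hK : Convex ℝ K) {F : W → Y} (hF : ContinuousOn F K)
include hK

omit [TopologicalSpace W] [ContinuousAdd W] [ContinuousSMul ℝ W] in
lemma real_congr {F' : W → Y} (h : EqOn F F' K) {n : ℕ} {c : Ch R W} (hc : c ∈ Lin R K n) :
    real F c = real F' c := by
  refine map_eq (fun l hl => ?_) hc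
  simp only [real_single]
  exact congrArg (single · 1) (mk_congr fun t ht => h (aff_mem hK hl.2 ht))

include hF

lemma cont_aff {l : List W} (hl : ∀ x ∈ l, x ∈ K) : ContinuousOn (F ∘ aff l) (Δ l.length) :=
  hF.comp (continuous_aff l).continuousOn fun _ ht => aff_mem hK hl ht

lemma real_In {A : Set Y} (hA : MapsTo F K A) {n : ℕ} {c : Ch R W} (hc : c ∈ Lin R K n) :
    real F c ∈ In R A n := by
  refine map_mem (fun l hl => ?_) hc
  rw [real_single]
  refine single_mem ⟨hl.1, fun t ht => ?_⟩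
  rw [mk_f (cont_aff hK hF hl.2) ht]
  exact hA (aff_mem hK hl.2 ht)

lemma map_real (g : Y → Y') {n : ℕ} {c : Ch R W} (hc : c ∈ Lin R K n) :
    map g (real F c) = real (g ∘ F) c := by
  refine map_eq (F := map g ∘ₗ real F) (fun l hl => ?_) hc
  simp only [LinearMap.comp_apply, map_single, real_single, mk_n]
  exact congrArg (single · 1) (mk_congr fun t ht => congrArg g (mk_f (cont_aff hK hF hl.2) ht))

end real

lemma real_lmap {W W' : Type*} [AddCommGroup W] [Module ℝ W] [AddCommGroup W'] [Module ℝ W']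
    (φ : W →ₗ[ℝ] W') (F : W' → Y) (c : Ch R W) : real F (lmap φ c) = real (F ∘ φ) c := by
  refine map_eq (F := real F ∘ₗ lmap φ) (fun l _ => ?_) (mem_top c)
  simp only [LinearMap.comp_apply, lmap_single, real_single, List.length_map]
  exact congrArg (single · 1) (mk_congr fun t _ => congrArg F (aff_map φ l t))

lemma real_std (s : Sx Y) : real s.f (single (std s.n) (1 : R)) = single s 1 := by
  rw [real_single, length_std]
  exact congrArg (single · 1) (mk_eq s fun t ht => congrArg s.f (aff_std ht))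

/-- The operator on singular chains given by affine models. -/
noncomputable def op (O : List V → Ch R V) : C R Y →ₗ[R] C R Y :=
  lc fun s => real s.f (O (std s.n))

lemma op_single (O : List V → Ch R V) (s : Sx Y) :
    op O (single s 1) = real s.f (O (std s.n)) := by simp [op]

section op

variable {O : List V → Ch R V} {d : ℕ → ℕ} (hO : ∀ n, O (std n) ∈ Lin R (Δ n) (d n))
include hO

lemma op_In {A : Set Y} {n : ℕ} {c : C R Y} (hc : c ∈ In R A n) : op O c ∈ In R A (d n) := by
  refine map_mem (fun s hs => ?_) hc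
  rw [op_single, ← hs.1]
  exact real_In (convex_Δ _) s.cont hs.2 (hO _)

lemma map_op {g : Y → Y'} {A : Set Y} (hg : ContinuousOn g A) {n : ℕ} {c : C R Y}
    (hc : c ∈ In R A n) : map g (op O c) = op O (map g c) := by
  refine map_eq (F := map g ∘ₗ op O) (G := op O ∘ₗ map g) (fun s hs => ?_) hc
  simp only [LinearMap.comp_apply, map_single, op_single, mk_n]
  rw [map_real (convex_Δ _) s.cont g (hO _)]
  exact real_congr (convex_Δ _) (mk_f (hg.comp s.cont hs.2)).symm (hO _)

lemma op_real {W : Type*} [AddCommGroup W] [Module ℝ W] [TopologicalSpace W] [ContinuousAdd W]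
    [ContinuousSMul ℝ W] {K : Set W} (hK : Convex ℝ K) {F : W → Y} (hF : ContinuousOn F K)
    {O' : List W → Ch R W} (hn : ∀ (φ : V →ₗ[ℝ] W) l, lmap φ (O l) = O' (l.map φ)) {n : ℕ}
    {c : Ch R W} (hc : c ∈ Lin R K n) : op O (real F c) = real F (lc O' c) := by
  refine map_eq (F := op O ∘ₗ real F) (G := real F ∘ₗ lc O') (fun l hl => ?_) hc
  simp only [LinearMap.comp_apply, real_single, op_single, mk_n, linearCombination_single,
    one_smul]
  rw [real_congr (convex_Δ _) (mk_f (cont_aff hK hF hl.2)) (hO _), ← real_lmap, hn, map_aff_std]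

end op

lemma bdL_Lin {W : Type*} {K : Set W} {l : List W} (hl : ∀ x ∈ l, x ∈ K) :
    bdL R l ∈ Lin R K (l.length - 1) :=
  fun _ hm => ⟨by have := (bdL_mem l hm).1; omega, fun x hx => hl x ((bdL_mem l hm).2 x hx)⟩

lemma bdL_std (n : ℕ) : bdL R (std n) ∈ Lin R (Δ n) (n - 1) := by
  simpa using bdL_Lin (R := R) (std_mem (n := n))

/-- The boundary operator. -/
noncomputable def D : C R Y →ₗ[R] C R Y := op (bdL R)

lemma D_In' {A : Set Y} {n : ℕ} {c : C R Y} (hc : c ∈ In R A n) : D c ∈ In R A (n - 1) :=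
  op_In bdL_std hc

lemma D_In {A : Set Y} {n : ℕ} {c : C R Y} (hc : c ∈ In R A (n + 1)) : D c ∈ In R A n := D_In' hc

lemma map_D {g : Y → Y'} {A : Set Y} (hg : ContinuousOn g A) {n : ℕ} {c : C R Y}
    (hc : c ∈ In R A n) : map g (D c) = D (map g c) := map_op bdL_std hg hc

lemma D_real {W : Type*} [AddCommGroup W] [Module ℝ W] [TopologicalSpace W] [ContinuousAdd W]
    [ContinuousSMul ℝ W] {K : Set W} (hK : Convex ℝ K) {F : W → Y} (hF : ContinuousOn F K)
    {n : ℕ} {c : Ch R W} (hc : c ∈ Lin R K n) : D (real F c) = real F (bd c) :=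
  op_real bdL_std hK hF (fun φ l => lmap_bdL φ l) hc

lemma D_single (s : Sx Y) : D (single s (1 : R)) = real s.f (bdL R (std s.n)) := op_single _ s

@[simp] lemma D_D (c : C R Y) : D (D c) = 0 :=
  map_eq (F := D ∘ₗ D) (G := 0) (fun s _ => by
    simp [D_single, D_real (convex_Δ _) s.cont (bdL_std _), bd_bdL]) (mem_top c)

end Pool.Agent.Shared.Sing
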