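import Mathlib

/-! Singular chains, cochains, homology, cup and cap products over a commutative ring. -/

set_option maxSynthPendingDepth 3

namespace Pool.Agent.Sing

/-- The standard topological `n`-simplex. -/
def Std (n : ℕ) : Type := stdSimplex ℝ (Fin (n + 1))

instance stdTop (n : ℕ) : TopologicalSpace (Std n) := instTopologicalSpaceSubtype

/-- The affine map of standard simplices induced by a map of vertices. -/
noncomputable def vmap {p n : ℕ} (f : Fin (p + 1) → Fin (n + 1)) : C(Std p, Std n) :=
  ⟨stdSimplex.map f, stdSimplex.continuous_map f⟩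

variable (R : Type) [CommRing R] (X : Type) [TopologicalSpace X]

/-- Singular `n`-chains. -/
abbrev Ch (n : ℕ) : Type := C(Std n, X) →₀ R

/-- The singular boundary. -/
noncomputable def bd (n : ℕ) : Ch R X (n + 1) →ₗ[R] Ch R X n :=
  Finsupp.linearCombination R fun σ : C(Std (n + 1), X) =>
    ∑ i : Fin (n + 2), Finsupp.single (σ.comp (vmap i.succAbove)) ((-1 : R) ^ (i : ℕ))

/-- Singular cycles. -/
noncomputable def cyc : (n : ℕ) → Submodule R (Ch R X n)
  | 0 => ⊤
  | n + 1 => LinearMap.ker (bd R X n)

/-- Singular boundaries. -/
noncomputable def bdry (n : ℕ) : Submodule R (Ch R X n) := LinearMap.range (bd R X n)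

/-- Singular homology. -/
def Hml (n : ℕ) : Type := cyc R X n ⧸ (bdry R X n).comap (cyc R X n).subtype

noncomputable instance hmlGroup (n : ℕ) : AddCommGroup (Hml R X n) :=
  Submodule.Quotient.addCommGroup _

noncomputable instance hmlModule (n : ℕ) : Module R (Hml R X n) := Submodule.Quotient.module _

/-- The homology class of a cycle. -/
noncomputable def hcl (n : ℕ) : cyc R X n →ₗ[R] Hml R X n := Submodule.mkQ _

/-- Chains supported in a subset. -/
noncomputable def chIn (A : Set X) (n : ℕ) : Submodule R (Ch R X n) :=
  Finsupp.supported R R {σ | Set.range σ ⊆ A}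

/-- Singular `n`-cochains. -/
abbrev Co (n : ℕ) : Type := Module.Dual R (Ch R X n)

/-- Singular cocycles. -/
noncomputable def cocyc (n : ℕ) : Submodule R (Co R X n) := LinearMap.ker (bd R X n).dualMap

/-- Singular coboundaries. -/
noncomputable def cobdry : (n : ℕ) → Submodule R (Co R X n)
  | 0 => ⊥
  | n + 1 => LinearMap.range (bd R X n).dualMap

/-- Singular cohomology. -/
def Coh (n : ℕ) : Type := cocyc R X n ⧸ (cobdry R X n).comap (cocyc R X n).subtype

noncomputable instance cohGroup (n : ℕ) : AddCommGroup (Coh R X n) :=
  Submodule.Quotient.addCommGroup _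

noncomputable instance cohModule (n : ℕ) : Module R (Coh R X n) := Submodule.Quotient.module _

/-- The cohomology class of a cocycle. -/
noncomputable def ccl (n : ℕ) : cocyc R X n →ₗ[R] Coh R X n := Submodule.mkQ _

variable {X}

/-- The chain map induced by a continuous map. -/
noncomputable def push {Y : Type} [TopologicalSpace Y] (f : C(X, Y)) (n : ℕ) :
    Ch R X n →ₗ[R] Ch R Y n :=
  Finsupp.lmapDomain R R fun σ => f.comp σ

/-- The front `p`-face of the `n`-simplex, `p + q = n`. -/
noncomputable def front {p q n : ℕ} (h : p + q = n) : C(Std p, Std n) :=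
  vmap fun i => ⟨i, by omega⟩

/-- The back `q`-face of the `n`-simplex, `p + q = n`. -/
noncomputable def back {p q n : ℕ} (h : p + q = n) : C(Std q, Std n) :=
  vmap fun i => ⟨p + i, by omega⟩

variable {R}

/-- The cup product of cochains. -/
noncomputable def cup {p q n : ℕ} (h : p + q = n) (a : Co R X p) (b : Co R X q) : Co R X n :=
  Finsupp.linearCombination R fun σ : C(Std n, X) =>
    a (Finsupp.single (σ.comp (front h)) 1) * b (Finsupp.single (σ.comp (back h)) 1)

/-- The cap product: evaluate the cochain on the front face, keep the back face. -/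
noncomputable def cap {p q n : ℕ} (h : p + q = n) (a : Co R X p) : Ch R X n →ₗ[R] Ch R X q :=
  Finsupp.linearCombination R fun σ : C(Std n, X) =>
    Finsupp.single (σ.comp (back h)) (a (Finsupp.single (σ.comp (front h)) 1))

end Pool.Agent.Sing
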