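import Mathlib

/-! Chains of lists, cones, and the recursion used for acyclic models. -/

namespace Pool.Agent.Shared.Sing

open Finsupp

variable {R : Type} [CommRing R] {α β : Type*} {M M' : Type*} [AddCommGroup M] [Module R M]
  [AddCommGroup M'] [Module R M']

/-- Chains of lists. -/
abbrev Ch (R : Type) [CommRing R] (α : Type*) := List α →₀ R

/-- Linear extension of a function on a basis. -/
noncomputable abbrev lc (f : α → M) : (α →₀ R) →ₗ[R] M := linearCombination R f

lemma map_mem {S : Set α} {F : (α →₀ R) →ₗ[R] M} {P : Submodule R M}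
    (h : ∀ a ∈ S, F (single a 1) ∈ P) {c : α →₀ R} (hc : c ∈ supported R R S) : F c ∈ P := by
  rw [supported_eq_span_single] at hc
  refine (Submodule.span_le (p := P.comap F)).2 ?_ hc
  rintro _ ⟨a, ha, rfl⟩
  exact h a ha

lemma map_eq {S : Set α} {F G : (α →₀ R) →ₗ[R] M}
    (h : ∀ a ∈ S, F (single a 1) = G (single a 1)) {c : α →₀ R} (hc : c ∈ supported R R S) :
    F c = G c := by
  have := map_mem (F := F - G) (P := ⊥) (fun a ha => by simp [h a ha]) hc
  simpa [sub_eq_zero] using this

lemma mem_top (c : α →₀ R) : c ∈ supported R R (Set.univ : Set α) := by simp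

lemma single_mem {S : Set α} {a : α} (h : a ∈ S) : single a (1 : R) ∈ supported R R S :=
  single_mem_supported R 1 h

noncomputable def cone (a : α) : Ch R α →ₗ[R] Ch R α := lmapDomain R R (List.cons a)

noncomputable def lmap (f : α → β) : Ch R α →ₗ[R] Ch R β := lmapDomain R R (List.map f)

@[simp] lemma cone_single (a : α) (l : List α) (r : R) :
    cone a (single l r) = single (a :: l) r := by simp [cone]

@[simp] lemma lmap_single (f : α → β) (l : List α) (r : R) :
    lmap f (single l r) = single (l.map f) r := by simp [lmap]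

variable (R) in
/-- The boundary of a list. -/
noncomputable def bdL : List α → Ch R α
  | [] => 0
  | a :: l => single l 1 - cone a (bdL l)

noncomputable def bd : Ch R α →ₗ[R] Ch R α := lc (bdL R)

@[simp] lemma bd_single (l : List α) : bd (single l (1 : R)) = bdL R l := by simp [bd]

lemma bd_cone (a : α) (c : Ch R α) : bd (cone a c) + cone a (bd c) = c :=
  map_eq (F := bd ∘ₗ cone a + cone a ∘ₗ bd) (G := LinearMap.id)
    (fun l _ => by simp [bdL]) (mem_top c)

lemma bd_bdL (l : List α) : bd (bdL R l) = 0 := by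
  induction l with
  | nil => simp [bdL]
  | cons a l ih =>
    have := bd_cone a (bdL R l)
    rw [ih, map_zero, add_zero] at this
    simp [bdL, this]

lemma lmap_cone (f : α → β) (a : α) (c : Ch R α) : lmap f (cone a c) = cone (f a) (lmap f c) :=
  map_eq (F := lmap f ∘ₗ cone a) (G := cone (f a) ∘ₗ lmap f) (fun l _ => by simp) (mem_top c)

lemma lmap_bdL (f : α → β) (l : List α) : lmap f (bdL R l) = bdL R (l.map f) := by
  induction l with
  | nil => simp [bdL]
  | cons a l ih => simp [bdL, lmap_cone, ih]

lemma bdL_mem (l : List α) :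
    bdL R l ∈ supported R R {m | m.length + 1 = l.length ∧ ∀ x ∈ m, x ∈ l} := by
  induction l with
  | nil => simp [bdL]
  | cons a l ih =>
    refine sub_mem (single_mem ⟨rfl, fun x hx => by simp [hx]⟩) (map_mem ?_ ih)
    rintro m ⟨h1, h2⟩
    rw [cone_single]
    refine single_mem ⟨by simp [h1], fun x hx => ?_⟩
    rcases List.mem_cons.1 hx with rfl | hx
    · simp
    · simp [h2 x hx]

lemma lc_lmap (f : α → β) (g : List β → M) (c : Ch R α) :
    lc g (lmap f c) = lc (fun l => g (l.map f)) c :=
  map_eq (F := lc g ∘ₗ lmap f) (fun l _ => by simp) (mem_top c)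

lemma map_lc (ψ : M →ₗ[R] M') (g : α → M) (c : α →₀ R) : ψ (lc g c) = lc (fun l => ψ (g l)) c :=
  map_eq (F := ψ ∘ₗ lc g) (fun l _ => by simp) (mem_top c)

section zig

variable (b : M) (h : List α → M →ₗ[R] M) (A : List α → M) (s : R)

noncomputable def zigN : ℕ → List α → M
  | 0, _ => b
  | n + 1, l => h l (A l + s • lc (zigN n) (bdL R l))

/-- The recursion behind all acyclic model arguments. -/
noncomputable def zig (l : List α) : M := zigN b h A s l.length l

lemma zig_nil : zig b h A s [] = b := rfl

lemma zig_ne {l : List α} (hl : l ≠ []) :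
    zig b h A s l = h l (A l + s • lc (zig b h A s) (bdL R l)) := by
  obtain ⟨a, l, rfl⟩ := List.exists_cons_of_ne_nil hl
  rw [zig, List.length_cons, zigN]
  congr 3
  refine map_eq (fun m hm => ?_) (bdL_mem _)
  have : m.length = l.length := by simpa using hm.1
  simp [zig, this]

variable {b h A s}

lemma len_ind {P : List α → Prop} (h0 : P [])
    (h1 : ∀ l, l ≠ [] → (∀ m, m.length + 1 = l.length → P m) → P l) (l : List α) : P l := by
  induction hn : l.length generalizing l with
  | zero => rwa [List.length_eq_zero_iff.1 hn]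
  | succ n ih => exact h1 l (by rintro rfl; simp at hn) fun m hm => ih m (by omega)

theorem zig_spec (d : M →ₗ[R] M) (hh : ∀ l, l ≠ [] → ∀ x, d (h l x) + h l (d x) = x)
    (hA : ∀ l, d (A l) + s • lc A (bdL R l) = 0) (hb : d b = A []) (l : List α) :
    d (zig b h A s l) = A l + s • lc (zig b h A s) (bdL R l) := by
  induction l using len_ind with
  | h0 => simp [zig_nil, hb, bdL]
  | h1 l hl ih =>
    have h1 : d (lc (zig b h A s) (bdL R l)) = lc A (bdL R l) := by
      have := map_eq (F := d ∘ₗ lc (zig b h A s)) (G := lc A + s • lc (zig b h A s) ∘ₗ bd)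
        (fun m hm => by simp [ih m hm.1]) (bdL_mem (R := R) l)
      simpa [bd_bdL] using this
    have h2 := hh l hl (A l + s • lc (zig b h A s) (bdL R l))
    rw [map_add d, map_smul d, h1, hA, map_zero, add_zero, ← zig_ne _ _ _ _ hl] at h2
    exact h2

theorem zig_nat {b' : M'} {h' : List β → M' →ₗ[R] M'} {A' : List β → M'} (φ : α → β)
    (ψ : M →ₗ[R] M') (hh : ∀ l, l ≠ [] → ∀ x, ψ (h l x) = h' (l.map φ) (ψ x))
    (hA : ∀ l, ψ (A l) = A' (l.map φ)) (hb : ψ b = b') (l : List α) :
    ψ (zig b h A s l) = zig b' h' A' s (l.map φ) := by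
  induction l using len_ind with
  | h0 => exact hb
  | h1 l hl ih =>
    rw [zig_ne _ _ _ _ hl, zig_ne _ _ _ _ (by simpa using hl), hh l hl, map_add, map_smul, hA,
      ← lmap_bdL, lc_lmap, map_lc]
    congr 3
    exact map_eq (fun m hm => by simp [ih m hm.1]) (bdL_mem _)

theorem zig_mem (S T : List α → Submodule R M) (hb : b ∈ S []) (hA : ∀ l, l ≠ [] → A l ∈ T l)
    (hh : ∀ l, l ≠ [] → ∀ x ∈ T l, h l x ∈ S l)
    (hS : ∀ l m : List α, m.length + 1 = l.length → (∀ x ∈ m, x ∈ l) → S m ≤ T l) (l : List α) :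
    zig b h A s l ∈ S l := by
  induction l using len_ind with
  | h0 => exact hb
  | h1 l hl ih =>
    rw [zig_ne _ _ _ _ hl]
    refine hh l hl _ (add_mem (hA l hl) (Submodule.smul_mem _ _ (map_mem (fun m hm => ?_)
      (bdL_mem _))))
    simpa using hS l m hm.1 hm.2 (ih m hm.1)

end zig

end Pool.Agent.Shared.Sing
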