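import Pool.Agent.Shared.Sing.Rel

/-! Local homology of Euclidean space. -/

set_option linter.unusedSectionVars false

namespace Pool.Agent.Shared.Sing

open Finsupp Set

variable {Y : Type*} [TopologicalSpace Y] [Nonempty Y] {R : Type} [CommRing R]

variable (R) in
/-- All cycles with `n` vertices in `U` are multiples of `z` up to boundaries. -/
def Span (U : Set Y) (n : ℕ) (z : C R Y) : Prop :=
  z ∈ In R U n ∧ D z = 0 ∧ ∀ c ∈ In R U n, D c = 0 → ∃ r : R, c - r • z ∈ Bd R U n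

variable (R) in
/-- `U` has the homology of a sphere, in `m` vertices and above. -/
def Sph (U : Set Y) (m : ℕ) : Prop :=
  (∀ n, m < n → Span R U n 0) ∧ ∃ z, Span R U m z ∧ ∀ r : R, r • z ∈ Bd R U m → r = 0

variable (R) in
def Contr (U : Set Y) (h : C R Y →ₗ[R] C R Y) : Prop :=
  ∀ n, ∀ c ∈ In R U n, h c ∈ In R U (n + 1) ∧ D (h c) + h (D c) = c

lemma Contr.D_h {U : Set Y} {h : C R Y →ₗ[R] C R Y} (H : Contr R U h) {n : ℕ} {c : C R Y}
    (hc : c ∈ In R U n) (h0 : D c = 0) : D (h c) = c := by simpa [h0] using (H n c hc).2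

lemma Contr.bd {U : Set Y} {h : C R Y →ₗ[R] C R Y} (H : Contr R U h) {n : ℕ} {c : C R Y}
    (hc : c ∈ In R U n) (h0 : D c = 0) : c ∈ Bd R U n := ⟨h c, (H n c hc).1, H.D_h hc h0⟩

section step

variable {U U' : Set Y} (hU : IsOpen U) (hU' : IsOpen U') {h h' : C R Y →ₗ[R] C R Y}
  (H : Contr R U h) (H' : Contr R U' h') {n : ℕ} {z : C R Y}
include hU hU' H H'

lemma span_step (hz : Span R (U ∩ U') n z) : Span R (U ∪ U') (n + 1) (h z - h' z) := by
  have z1 := In_mono inter_subset_left _ hz.1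
  have z2 := In_mono inter_subset_right _ hz.1
  have e1 := H.D_h z1 hz.2.1
  have e2 := H'.D_h z2 hz.2.1
  refine ⟨sub_mem (In_mono subset_union_left _ (H _ _ z1).1)
    (In_mono subset_union_right _ (H' _ _ z2).1), by simp [e1, e2], fun c hc h0 => ?_⟩
  obtain ⟨m, a, ha, hb⟩ := small_ex hU hU' hc
  obtain ⟨r, w, hw, h1⟩ := hz.2.2 (D a) (In_inter (D_In ha)
    (by simpa [D_sd, h0] using D_In hb)) (D_D a)
  refine ⟨r, ?_⟩
  have b1 := H.bd (sub_mem (sub_mem ha (In_mono inter_subset_left _ hw))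
    (Submodule.smul_mem _ r (H _ _ z1).1)) (by simp [e1, h1])
  have b2 := H'.bd (add_mem (add_mem hb (In_mono inter_subset_right _ hw))
    (Submodule.smul_mem _ r (H' _ _ z2).1)) (by simp [e2, h1, D_sd, h0, sub_eq_add_neg])
  convert add_mem (sub_sd_Bd hc h0 m) (add_mem
    (Submodule.map_mono (In_mono subset_union_left _) b1)
    (Submodule.map_mono (In_mono subset_union_right _) b2)) using 1
  rw [smul_sub]
  abel

lemma sph_step {m : ℕ} (hs : Sph R (U ∩ U') m) : Sph R (U ∪ U') (m + 1) := by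
  obtain ⟨h1, z, hz, h2⟩ := hs
  refine ⟨fun n hn => ?_, _, span_step hU hU' H H' hz, fun r ⟨w, hw, h3⟩ => h2 r ?_⟩
  · obtain ⟨n, rfl⟩ := Nat.exists_eq_add_one_of_ne_zero (n := n) (by omega)
    simpa using span_step hU hU' H H' (h1 n (by omega))
  have z1 := In_mono inter_subset_left _ hz.1
  have z2 := In_mono inter_subset_right _ hz.1
  obtain ⟨k, a, ha, hb⟩ := small_ex hU hU' hw
  have b1 : (sd ^ k) (r • h z) - D a ∈ In R (U ∩ U') (m + 1) := by
    refine In_inter (sub_mem (sd_In (Submodule.smul_mem _ r (H _ _ z1).1) k) (D_In ha)) ?_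
    convert add_mem (sd_In (Submodule.smul_mem _ r (H' _ _ z2).1) k) (D_In hb) using 1
    rw [map_sub, D_sd, h3, smul_sub, map_sub]
    abel
  have b2 : (sd ^ k) (r • z) ∈ Bd R (U ∩ U') m :=
    ⟨_, b1, by rw [map_sub, D_D, D_sd, map_smul D, H.D_h z1 hz.2.1, sub_zero]⟩
  simpa using add_mem (sub_sd_Bd (Submodule.smul_mem _ r hz.1) (by simp [hz.2.1]) k) b2

end step

lemma sph_empty : Sph R (∅ : Set Y) 0 := by
  let e : Sx Y := mk 0 fun _ => Classical.arbitrary Y
  refine ⟨fun n hn => ⟨zero_mem _, map_zero _, fun c hc _ => ⟨0, ?_⟩⟩, single e 1,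
    ⟨single_mem ⟨rfl, fun t ht => by simp [e, Δ_zero] at ht⟩, by simp [D_single, e, std, bdL],
      fun c hc _ => ⟨c e, ?_⟩⟩, fun r ⟨w, hw, h⟩ => ?_⟩
  · obtain ⟨n, rfl⟩ := Nat.exists_eq_add_one_of_ne_zero hn.ne'
    simp [In_empty hc]
  · convert (Bd R (∅ : Set Y) 0).zero_mem
    rw [sub_eq_zero, smul_single, smul_eq_mul, mul_one, eq_single_iff]
    refine ⟨fun s hs => Finset.mem_singleton.2 ?_, rfl⟩
    have h0 : s.n = 0 := (hc hs).1
    rw [← mk_eq s (f := fun _ => Classical.arbitrary Y) (by simp [h0, Δ_zero]), h0]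
  · rw [In_empty hw, map_zero, smul_single, smul_eq_mul, mul_one, eq_comm, single_eq_zero] at h
    exact h

lemma contr_star {W : Type*} [NormedAddCommGroup W] [NormedSpace ℝ W] {U : Set W} {p : W}
    (hp : p ∈ U) (hU : StarConvex ℝ p U) : ∃ h, Contr R U h :=
  exists_contr (H := fun q => q.2 • p + (1 - q.2) • q.1) (by fun_prop)
    (fun q hq => hU hq.1 hq.2.1 (sub_nonneg.2 hq.2.2) (by simp)) hp (by simp) (by simp)

variable {ι : Type*} [Fintype ι]

lemma sph_compl (x : ι → ℝ) : Sph R {x}ᶜ (Fintype.card ι) := by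
  classical
  have key : ∀ J : Finset ι, Sph R {y : ι → ℝ | ∃ i ∈ J, y i ≠ x i} J.card := by
    intro J
    induction J using Finset.induction_on with
    | empty => simpa using sph_empty
    | insert j J hj ih =>
      let U : ℝ → Set (ι → ℝ) := fun ε => {y | (∃ i ∈ J, y i ≠ x i) ∨ 0 < ε * (y j - x j)}
      have h1 : ∀ ε, IsOpen (U ε) := fun ε => by
        simp only [U, ofPred_or, ofPred_exists, ← exists_prop]
        exact (isOpen_iUnion fun i => isOpen_iUnion fun _ => isOpen_ne_fun (by fun_prop)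
          (by fun_prop)).union (isOpen_lt (by fun_prop) (by fun_prop))
      have h2 : ∀ ε, ε ≠ 0 → ∃ h, Contr R (U ε) h := fun ε hε => by
        refine contr_star (p := x + Pi.single j ε) (Or.inr (by simpa using hε))
          fun y hy a b ha hb hab => ?_
        obtain rfl : a = 1 - b := by linarith
        rcases hb.eq_or_lt with rfl | hb
        · exact Or.inr (by simpa using hε)
        rcases hy with ⟨i, hi, h⟩ | h
        · refine Or.inl ⟨i, hi, fun h' => h ?_⟩
          have : i ≠ j := fun h => hj (h ▸ hi)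
          simp only [Pi.add_apply, Pi.smul_apply, Pi.single_eq_of_ne this, smul_eq_mul] at h'
          exact mul_left_cancel₀ hb.ne' (by linarith)
        · right
          simp only [Pi.add_apply, Pi.smul_apply, Pi.single_eq_same, smul_eq_mul]
          nlinarith [mul_pos hb h, mul_nonneg ha (mul_self_nonneg ε)]
      obtain ⟨h, H⟩ := h2 1 one_ne_zero
      obtain ⟨h', H'⟩ := h2 (-1) (by simp)
      have := sph_step (h1 1) (h1 (-1)) H H' (m := J.card) (by
        convert ih using 1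
        ext y
        exact ⟨fun h => h.1.elim id fun h1 => h.2.elim id fun h2 => by linarith,
          fun h => ⟨Or.inl h, Or.inl h⟩⟩)
      rw [Finset.card_insert_of_notMem hj]
      convert this using 1
      ext y
      simp only [U, mem_union, mem_ofPred_eq, Finset.mem_insert, exists_eq_or_imp]
      refine ⟨fun h => h.elim (fun h => (lt_or_gt_of_ne h).elim (fun h => Or.inr (Or.inr
        (by linarith))) fun h => Or.inl (Or.inr (by linarith))) fun h => Or.inl (Or.inl h),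
        fun h => h.elim (fun h => h.elim Or.inr fun h => Or.inl fun h' => by simp [h'] at h)
          fun h => h.elim Or.inr fun h => Or.inl fun h' => by simp [h'] at h⟩
  convert key Finset.univ using 1
  · ext y
    simp [funext_iff]
  · rfl

variable (R) in
/-- The local homology at `x` is that of a manifold of dimension `d`. -/
def Loc (d : ℕ) (x : Y) : Prop := (∀ n, d < n → Z R univ {x}ᶜ n ≤ B R univ {x}ᶜ n) ∧
  ∃ z ∈ Z R univ {x}ᶜ d, (∀ r : R, r • z ∈ B R univ {x}ᶜ d → r = 0) ∧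
    ∀ c ∈ Z R univ {x}ᶜ d, ∃ r : R, c - r • z ∈ B R univ {x}ᶜ d

theorem loc_euc (x : ι → ℝ) : Loc R (Fintype.card ι) x := by
  obtain ⟨h, H⟩ := contr_star (R := R) (mem_univ x) (starConvex_univ x)
  obtain ⟨h1, z, hz, h2⟩ := sph_compl (R := R) x
  have key : ∀ n z, Span R {x}ᶜ n z → ∀ c ∈ Z R univ {x}ᶜ n, ∃ r : R,
      c - r • h z ∈ B R univ {x}ᶜ n := fun n z hz c hc => by
    obtain ⟨r, v, hv, h3⟩ := hz.2.2 _ (Z_D hc) (D_D c)
    have := H.bd (sub_mem (sub_mem hc.1 (Submodule.smul_mem _ r (H _ _ (In_univ hz.1)).1))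
      (In_univ hv)) (by simp [H.D_h (In_univ hz.1) hz.2.1, h3])
    exact ⟨r, by simpa [B] using add_mem (Submodule.mem_sup_left this) (In_mem_B hv)⟩
  have e1 := H.D_h (In_univ hz.1) hz.2.1
  refine ⟨fun n hn c hc => by simpa using key n 0 (h1 n hn) c hc, h z,
    ⟨(H _ _ (In_univ hz.1)).1, show D _ ∈ _ from e1.symm ▸ hz.1⟩, fun r hr => h2 r ?_, key _ z hz⟩
  obtain ⟨w, -, hv⟩ := mem_B hr
  exact ⟨_, hv, by simp [e1]⟩

theorem conv_null {W : Type*} [NormedAddCommGroup W] [NormedSpace ℝ W] {K : Set W}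
    (hK : Convex ℝ K) (hb : Bornology.IsBounded K) {x : W} (hx : x ∈ K) {n : ℕ} {c : C R W}
    (hc : c ∈ Z R univ Kᶜ n) (h : c ∈ B R univ {x}ᶜ n) : c ∈ B R univ Kᶜ n := by
  obtain ⟨w, hw, hv⟩ := mem_B h
  obtain ⟨L, hL, hLx, hv⟩ := exists_compact hv
  obtain ⟨ε, hε, h1⟩ := Metric.isOpen_iff.1 hL.isClosed.isOpen_compl x fun h => hLx h rfl
  obtain ⟨ρ, hρ, h2⟩ := hb.subset_ball_lt 0 x
  let H : W × ℝ → W := fun q => x + (1 + q.2 * (ρ / ε)) • (q.1 - x)
  have hH : Continuous H := by fun_prop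
  have h3 : MapsTo H (Kᶜ ×ˢ Icc 0 1) Kᶜ := fun q hq h => hq.1 (by
    have h0 : 0 ≤ q.2 * (ρ / ε) := mul_nonneg hq.2.1 (by positivity)
    have := hK.add_smul_sub_mem hx h (t := (1 + q.2 * (ρ / ε))⁻¹)
      ⟨by positivity, inv_le_one_of_one_le₀ (by linarith)⟩
    rwa [add_sub_cancel_left, inv_smul_smul₀ (by positivity), add_sub_cancel] at this)
  have h4 : MapsTo (fun y => H (y, 1)) L Kᶜ := fun y hy h => by
    have h5 : ε ≤ ‖y - x‖ := not_lt.1 fun h => h1 (mem_ball_iff_norm.2 h) hy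
    have h6 := mem_ball_iff_norm.1 (h2 h)
    rw [add_sub_cancel_left, norm_smul, Real.norm_of_nonneg (by positivity), one_mul] at h6
    have h7 : ρ / ε * ε ≤ ρ / ε * ‖y - x‖ := by gcongr
    rw [div_mul_cancel₀ _ hε.ne'] at h7
    nlinarith
  have h1c : Continuous fun y => H (y, 1) := by fun_prop
  have h5 := D_P hH.continuousOn hc.1
  rw [map_self (g := fun y => H (y, 0)) (fun y _ => by simp [H]) hc.1] at h5
  have h6 := add_mem (D_mem_B (U := Kᶜ) (P_In hH.continuousOn (mapsTo_univ _ _) hc.1))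
    (In_mem_B (P_In hH.continuousOn h3 (Z_D hc)))
  rw [h5] at h6
  refine (congr_B h6).1 (B_of (map_In h1c.continuousOn (mapsTo_univ _ _) hw) ?_)
  rw [← map_D h1c.continuousOn hw, ← map_sub]
  exact map_In h1c.continuousOn h4 hv

end Pool.Agent.Shared.Sing
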