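import Pool.Agent.Shared.Sing.Basic

/-! The prism operator and contractions. -/

set_option linter.unusedSectionVars false

namespace Pool.Agent.Shared.Sing

open Finsupp Set

variable {Y Y' Y'' : Type*} [TopologicalSpace Y] [Nonempty Y] [TopologicalSpace Y'] [Nonempty Y']
  [TopologicalSpace Y''] [Nonempty Y''] {R : Type} [CommRing R]

lemma cone_Lin {W : Type*} {K : Set W} {a : W} (ha : a ∈ K) {n : ℕ} {c : Ch R W}
    (hc : c ∈ Lin R K n) : cone a c ∈ Lin R K (n + 1) := by
  refine map_mem (fun l hl => ?_) hc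
  rw [cone_single]
  exact single_mem ⟨by simp [hl.1], by simpa [ha] using hl.2⟩

variable (R) in
/-- The affine prism over a list. -/
noncomputable def prL : List V → Ch R (V × ℝ) :=
  zig 0 (fun l => cone (l.headD 0, 0))
    (fun l => single (l.map fun x => (x, 1)) 1 - single (l.map fun x => (x, 0)) 1) (-1)

lemma bd_prL (l : List V) : bd (prL R l) = single (l.map fun x => (x, 1)) 1 -
    single (l.map fun x => (x, 0)) 1 - lc (prL R) (bdL R l) := by
  have := zig_spec (b := 0) (h := fun l : List V => cone (R := R) (l.headD 0, (0 : ℝ)))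
    (A := fun l => single (l.map fun x => (x, 1)) 1 - single (l.map fun x => (x, 0)) 1) (s := -1)
    bd (fun l _ x => bd_cone _ x) (fun l => ?_) (by simp) l
  · rwa [neg_one_smul, ← sub_eq_add_neg] at this
  rw [map_sub, bd_single, bd_single, ← lmap_bdL, ← lmap_bdL, neg_one_smul, ← sub_eq_add_neg,
    sub_eq_zero]
  rw [← LinearMap.sub_apply]
  exact map_eq (fun m _ => by simp) (mem_top _)

lemma lmap_prL (φ : V →ₗ[ℝ] V) (l : List V) :
    lmap (φ.prodMap (LinearMap.id : ℝ →ₗ[ℝ] ℝ)) (prL R l) = prL R (l.map φ) := by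
  refine zig_nat φ _ (fun l hl x => ?_) (fun l => by simp [Function.comp_def]) (map_zero _) l
  obtain ⟨a, l, rfl⟩ := List.exists_cons_of_ne_nil hl
  simp [lmap_cone]

lemma prL_Lin {K : Set V} {l : List V} (hl : ∀ x ∈ l, x ∈ K) :
    prL R l ∈ Lin R (K ×ˢ Icc 0 1) (l.length + 1) := by
  have := zig_mem (b := 0) (h := fun l : List V => cone (R := R) (l.headD 0, (0 : ℝ)))
    (A := fun l => single (l.map fun x => (x, 1)) 1 - single (l.map fun x => (x, 0)) 1) (s := -1)
    (fun l => ⨅ _ : ∀ x ∈ l, x ∈ K, Lin R (K ×ˢ Icc 0 1) (l.length + 1))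
    (fun l => ⨅ _ : ∀ x ∈ l, x ∈ K, Lin R (K ×ˢ Icc 0 1) l.length) (zero_mem _)
    (fun l _ => (Submodule.mem_iInf _).2 fun h => sub_mem (single_mem ⟨by simp, by simpa⟩)
      (single_mem ⟨by simp, by simpa⟩))
    (fun l hl x hx => (Submodule.mem_iInf _).2 fun h => cone_Lin (by
      obtain ⟨a, l, rfl⟩ := List.exists_cons_of_ne_nil hl
      simpa using h a (by simp)) ((Submodule.mem_iInf _).1 hx h))
    (fun l m h1 h2 => le_iInf fun h => iInf_le_of_le (fun x hx => h x (h2 x hx)) (by rw [h1])) l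
  exact (Submodule.mem_iInf _).1 this hl

lemma prL_std (n : ℕ) : prL R (std n) ∈ Lin R (Δ n ×ˢ Icc 0 1) (n + 1) := by
  simpa using prL_Lin (R := R) (std_mem (n := n))

lemma convex_pr (n : ℕ) : Convex ℝ (Δ n ×ˢ Icc (0 : ℝ) 1) := (convex_Δ n).prod (convex_Icc 0 1)

/-- The prism operator of a homotopy. -/
noncomputable def P (H : Y × ℝ → Y') : C R Y →ₗ[R] C R Y' :=
  lc fun s => real (fun p : V × ℝ => H (s.f p.1, p.2)) (prL R (std s.n))

lemma P_single (H : Y × ℝ → Y') (s : Sx Y) :
    P H (single s (1 : R)) = real (fun p : V × ℝ => H (s.f p.1, p.2)) (prL R (std s.n)) := by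
  simp [P]

section

variable {H : Y × ℝ → Y'} {A : Set Y} (hH : ContinuousOn H (A ×ˢ Icc 0 1)) {n : ℕ} {c : C R Y}
include hH

lemma cont_pr {s : Sx Y} (hs : MapsTo s.f (Δ s.n) A) :
    ContinuousOn (fun p : V × ℝ => H (s.f p.1, p.2)) (Δ s.n ×ˢ Icc 0 1) :=
  hH.comp ((s.cont.comp continuousOn_fst fun _ hp => hp.1).prodMk continuousOn_snd)
    fun _ hp => ⟨hs hp.1, hp.2⟩

lemma P_In {B : Set Y'} (hB : MapsTo H (A ×ˢ Icc 0 1) B) (hc : c ∈ In R A n) :
    P H c ∈ In R B (n + 1) := by
  refine map_mem (fun s hs => ?_) hc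
  rw [P_single, ← hs.1]
  exact real_In (convex_pr _) (cont_pr hH hs.2) (fun _ hp => hB ⟨hs.2 hp.1, hp.2⟩) (prL_std _)

lemma map_P (g : Y' → Y'') (hc : c ∈ In R A n) : map g (P H c) = P (g ∘ H) c := by
  refine map_eq (F := map g ∘ₗ P H) (fun s hs => ?_) hc
  simp only [LinearMap.comp_apply, P_single]
  exact map_real (convex_pr _) (cont_pr hH hs.2) g (prL_std _)

theorem D_P (hc : c ∈ In R A n) :
    D (P H c) + P H (D c) = map (fun y => H (y, 1)) c - map (fun y => H (y, 0)) c := by
  refine map_eq (F := D ∘ₗ P H + P H ∘ₗ D) (G := map _ - map _) (fun s hs => ?_) hc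
  have h1 : ∀ r : ℝ, real (fun p : V × ℝ => H (s.f p.1, p.2))
      (single ((std s.n).map fun x => (x, r)) (1 : R)) = map (fun y => H (y, r)) (single s 1) := by
    intro r
    simp only [real_single, map_single, List.length_map, length_std]
    refine congrArg (single · 1) (mk_congr fun t ht => ?_)
    simp only [Function.comp_apply]
    rw [aff_pair _ _ (by simpa using ht), aff_std ht]
  have h2 : P H (real s.f (bdL R (std s.n))) =
      real (fun p : V × ℝ => H (s.f p.1, p.2)) (lc (prL R) (bdL R (std s.n))) := by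
    refine map_eq (F := P H ∘ₗ real s.f) (G := real _ ∘ₗ lc (prL R)) (fun l hl => ?_) (bdL_std _)
    simp only [LinearMap.comp_apply, real_single, P_single, mk_n, linearCombination_single,
      one_smul]
    conv_rhs => rw [← map_aff_std l, ← lmap_prL, real_lmap]
    exact real_congr (convex_pr _) (fun p hp => congrArg (fun y => H (y, p.2))
      (mk_f (cont_aff (convex_Δ _) s.cont hl.2) hp.1)) (prL_std _)
  simp only [LinearMap.add_apply, LinearMap.comp_apply, LinearMap.sub_apply, P_single, D_single,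
    h2]
  rw [D_real (convex_pr _) (cont_pr hH hs.2) (prL_std _), bd_prL, map_sub, map_sub, h1, h1,
    sub_add_cancel]

end

lemma P_map (H : Y' × ℝ → Y'') {g : Y → Y'} {A : Set Y} (hg : ContinuousOn g A) {n : ℕ}
    {c : C R Y} (hc : c ∈ In R A n) : P H (map g c) = P (fun p => H (g p.1, p.2)) c := by
  refine map_eq (F := P H ∘ₗ map g) (fun s hs => ?_) hc
  simp only [LinearMap.comp_apply, P_single, map_single, mk_n]
  exact real_congr (convex_pr _) (fun p hp => congrArg (fun y => H (y, p.2))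
    (mk_f (hg.comp s.cont hs.2) hp.1)) (prL_std _)

/-- A contractible subset has a chain contraction. -/
theorem exists_contr {H : Y × ℝ → Y} {A : Set Y} (hH : ContinuousOn H (A ×ˢ Icc 0 1))
    (hA : MapsTo H (A ×ˢ Icc 0 1) A) {y₀ : Y} (hy : y₀ ∈ A) (h0 : ∀ y ∈ A, H (y, 0) = y)
    (h1 : ∀ y ∈ A, H (y, 1) = y₀) : ∃ h : C R Y →ₗ[R] C R Y, ∀ n, ∀ c ∈ In R A n,
      h c ∈ In R A (n + 1) ∧ D (h c) + h (D c) = c := by
  let k : C R Y →ₗ[R] C R Y := lc fun s => real (fun _ : V => y₀) (cone 0 (single (std s.n) 1))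
  have k0 : ∀ n, cone 0 (single (std n) (1 : R)) ∈ Lin R univ (n + 1) := fun n =>
    cone_Lin (Set.mem_univ _) (single_mem ⟨length_std n, fun _ _ => trivial⟩)
  refine ⟨k - P H, fun n c hc => ⟨sub_mem (map_mem (fun s hs => ?_) hc) (P_In hH hA hc), ?_⟩⟩
  · simp only [k, linearCombination_single, one_smul, hs.1]
    exact real_In convex_univ continuousOn_const (fun _ _ => hy) (k0 n)
  have k1 : D (k c) + k (D c) = map (fun _ => y₀) c := by
    refine map_eq (F := D ∘ₗ k + k ∘ₗ D) (fun s _ => ?_) hc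
    have k2 : k (real s.f (bdL R (std s.n))) = real (fun _ : V => y₀) (cone 0 (bdL R (std s.n))) :=
      map_eq (F := k ∘ₗ real s.f) (G := real _ ∘ₗ cone 0)
        (fun l _ => by simp [k, Function.comp_def]) (mem_top _)
    simp only [LinearMap.add_apply, LinearMap.comp_apply, D_single, k2]
    simp only [k, linearCombination_single, one_smul]
    rw [D_real convex_univ continuousOn_const (k0 _), ← bd_single, ← map_add, bd_cone]
    simp [Function.comp_def]
  have k3 := D_P hH hc
  rw [map_congr (g' := fun _ => y₀) h1 hc, map_self h0 hc, ← k1] at k3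
  simp only [LinearMap.sub_apply, map_sub]
  linear_combination (norm := abel1) -k3

end Pool.Agent.Shared.Sing
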