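import Pool.Agent.Shared.Sing.Subd

/-! Relative cycles and boundaries, excision, Mayer-Vietoris arguments. -/

set_option linter.unusedSectionVars false

namespace Pool.Agent.Shared.Sing

open Finsupp Set

variable {Y Y' : Type*} [TopologicalSpace Y] [Nonempty Y] [TopologicalSpace Y'] [Nonempty Y']
  {R : Type} [CommRing R]

variable (R) in
/-- Relative cycles of dimension `n` of the pair `(O, U)`. -/
noncomputable def Z (O U : Set Y) (n : ℕ) : Submodule R (C R Y) :=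
  In R O (n + 1) ⊓ (In R U n).comap D

variable (R) in
/-- Boundaries with `n` vertices. -/
noncomputable def Bd (O : Set Y) (n : ℕ) : Submodule R (C R Y) := (In R O (n + 1)).map D

variable (R) in
/-- Relative boundaries of dimension `n` of the pair `(O, U)`. -/
noncomputable def B (O U : Set Y) (n : ℕ) : Submodule R (C R Y) := Bd R O (n + 1) ⊔ In R U (n + 1)

variable {O U U' : Set Y} {n : ℕ} {c : C R Y}

lemma Z_D (h : c ∈ Z R O U n) : D c ∈ In R U n := h.2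

lemma D_mem_B {w : C R Y} (h : w ∈ In R O (n + 2)) : D w ∈ B R O U n :=
  Submodule.mem_sup_left ⟨w, h, rfl⟩

lemma In_mem_B (h : c ∈ In R U (n + 1)) : c ∈ B R O U n := Submodule.mem_sup_right h

lemma mem_B (h : c ∈ B R O U n) : ∃ w ∈ In R O (n + 2), c - D w ∈ In R U (n + 1) := by
  obtain ⟨_, ⟨w, hw, rfl⟩, v, hv, rfl⟩ := Submodule.mem_sup.1 h
  exact ⟨w, hw, by simpa using hv⟩

lemma B_of {w : C R Y} (h : w ∈ In R O (n + 2)) (h' : c - D w ∈ In R U (n + 1)) :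
    c ∈ B R O U n := by simpa using add_mem (D_mem_B h) (In_mem_B h')

lemma Z_mono {O' : Set Y} (h : O ⊆ O') (h' : U ⊆ U') : Z R O U n ≤ Z R O' U' n :=
  fun _ hc => ⟨In_mono h _ hc.1, In_mono h' _ hc.2⟩

lemma B_mono {O' : Set Y} (h : O ⊆ O') (h' : U ⊆ U') : B R O U n ≤ B R O' U' n :=
  sup_le_sup (Submodule.map_mono (In_mono h _)) (In_mono h' _)

lemma congr_B {c' : C R Y} (h : c - c' ∈ B R O U n) : c ∈ B R O U n ↔ c' ∈ B R O U n :=
  ⟨fun h1 => by simpa using sub_mem h1 h, fun h1 => by simpa using add_mem h h1⟩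

section map

variable {g : Y → Y'} {O' W : Set Y'} (hg : ContinuousOn g O) (hU : U ⊆ O) (h1 : MapsTo g O O')
  (h2 : MapsTo g U W)
include hg hU h1 h2

lemma map_Z (hc : c ∈ Z R O U n) : map g c ∈ Z R O' W n :=
  ⟨map_In hg h1 hc.1, show D _ ∈ _ from map_D hg hc.1 ▸ map_In (hg.mono hU) h2 hc.2⟩

lemma map_B (hc : c ∈ B R O U n) : map g c ∈ B R O' W n := by
  obtain ⟨w, hw, h⟩ := mem_B hc
  refine B_of (map_In hg h1 hw) ?_
  rw [← map_D hg hw, ← map_sub]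
  exact map_In (hg.mono hU) h2 h

end map

lemma sub_sd (hc : c ∈ Z R O U n) (m : ℕ) : c - (sd ^ m) c ∈ B R O U n := by
  obtain ⟨T, h1, h2⟩ := exists_T (R := R) (Y := Y) m
  rw [← h2]
  exact add_mem (D_mem_B (h1 _ _ _ hc.1)) (In_mem_B (h1 _ _ _ hc.2))

lemma sub_sd_Bd (hc : c ∈ In R O n) (h0 : D c = 0) (m : ℕ) : c - (sd ^ m) c ∈ Bd R O n := by
  obtain ⟨T, h1, h2⟩ := exists_T (R := R) (Y := Y) m
  rw [← h2, h0, map_zero, add_zero]
  exact ⟨_, h1 _ _ _ hc, rfl⟩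

lemma small_ex (hU : IsOpen U) (hU' : IsOpen U') (hc : c ∈ In R (U ∪ U') n) :
    ∃ m, ∃ a ∈ In R U n, (sd ^ m) c - a ∈ In R U' n := by
  obtain ⟨m, hm⟩ := (small₂ hU hU' hc).exists
  obtain ⟨a, ha, b, hb, h⟩ := Submodule.mem_sup.1 hm
  exact ⟨m, a, ha, by simpa [← h] using hb⟩

theorem exc_surj (hO : IsOpen O) (hU : IsOpen U) (h : O ∪ U = univ) (hc : c ∈ Z R univ U n) :
    ∃ c' ∈ Z R O (O ∩ U) n, c - c' ∈ B R univ U n := by
  obtain ⟨m, a, ha, hb⟩ := small_ex hO hU (h ▸ hc.1)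
  refine ⟨a, ⟨ha, In_inter (D_In ha) ?_⟩, ?_⟩
  · simpa [D_sd] using sub_mem (sd_In (Z_D hc) m) (D_In hb)
  · simpa using add_mem (sub_sd hc m) (In_mem_B hb)

theorem exc_inj (hO : IsOpen O) (hU : IsOpen U) (h : O ∪ U = univ) (hc : c ∈ Z R O (O ∩ U) n)
    (hB : c ∈ B R univ U n) : c ∈ B R O (O ∩ U) n := by
  obtain ⟨w, hw, hv⟩ := mem_B hB
  obtain ⟨m, a, ha, hb⟩ := small_ex hO hU (h ▸ hw)
  refine (congr_B (sub_sd hc m)).2 (B_of ha (In_inter (sub_mem (sd_In hc.1 m) (D_In ha)) ?_))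
  simpa [D_sd] using add_mem (sd_In hv m) (D_In hb)

theorem split (hU : IsOpen U) (hU' : IsOpen U') (hc : c ∈ In R (U ∪ U') (n + 1))
    (h : D c ∈ In R U n ⊔ In R U' n) : ∃ w ∈ In R (U ∪ U') (n + 2), ∃ a ∈ In R U (n + 1),
      c - D w - a ∈ In R U' (n + 1) := by
  obtain ⟨m, a, ha, hb⟩ := small_ex hU hU' hc
  obtain ⟨T, h1, h2⟩ := exists_T (R := R) (Y := Y) m
  obtain ⟨x, hx, y, hy, h3⟩ := Submodule.mem_sup.1 h
  refine ⟨T c, h1 _ _ _ hc, a + T x, add_mem ha (h1 _ _ _ hx), ?_⟩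
  convert add_mem hb (h1 _ _ _ hy) using 1
  have := h2 c
  rw [← h3, map_add] at this
  linear_combination (norm := abel1) -this

section mv

variable {A A' : Set Y} (hA : IsClosed A) (hA' : IsClosed A')
include hA hA'

theorem mv_inj (h : Z R univ (A ∩ A')ᶜ (n + 1) ≤ B R univ (A ∩ A')ᶜ (n + 1))
    (h1 : c ∈ B R univ Aᶜ n) (h2 : c ∈ B R univ A'ᶜ n) : c ∈ B R univ (A ∪ A')ᶜ n := by
  obtain ⟨a, ha, h1⟩ := mem_B h1
  obtain ⟨b, hb, h2⟩ := mem_B h2
  have h3 : D (a - b) ∈ In R Aᶜ (n + 1) ⊔ In R A'ᶜ (n + 1) := by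
    simpa using sub_mem (Submodule.mem_sup_right h2) (Submodule.mem_sup_left h1)
  rw [compl_inter] at h
  have h4 : In R Aᶜ (n + 1) ⊔ In R A'ᶜ (n + 1) ≤ In R (Aᶜ ∪ A'ᶜ) (n + 1) :=
    sup_le (In_mono subset_union_left _) (In_mono subset_union_right _)
  obtain ⟨w, -, hv⟩ := mem_B (h ⟨sub_mem ha hb, h4 h3⟩)
  obtain ⟨w', -, x, hx, hy⟩ := split hA.isOpen_compl hA'.isOpen_compl hv (by simpa using h3)
  rw [compl_union]
  refine B_of (sub_mem ha (In_univ hx)) (In_inter ?_ ?_)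
  · simpa [sub_add, map_sub] using add_mem h1 (D_In hx)
  · convert sub_mem h2 (D_In hy) using 1
    simp only [map_sub, D_D]
    abel

theorem mv_glue {c' : C R Y} (h1 : c ∈ Z R univ Aᶜ n) (h2 : c' ∈ Z R univ A'ᶜ n)
    (h : c - c' ∈ B R univ (A ∩ A')ᶜ n) :
    ∃ e ∈ Z R univ (A ∪ A')ᶜ n, c - e ∈ B R univ Aᶜ n ∧ e - c' ∈ B R univ A'ᶜ n := by
  rw [compl_inter] at h
  obtain ⟨w, hw, hv⟩ := mem_B h
  obtain ⟨w', hw', x, hx, hy⟩ := split hA.isOpen_compl hA'.isOpen_compl hv (by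
    simpa using sub_mem (Submodule.mem_sup_left (Z_D h1)) (Submodule.mem_sup_right (Z_D h2)))
  rw [compl_union]
  refine ⟨c - x, ⟨sub_mem h1.1 (In_univ hx), In_inter (map_sub D c x ▸ sub_mem (Z_D h1) (D_In hx))
    ?_⟩,
    In_mem_B (by simpa using hx), B_of (add_mem hw (In_univ hw')) ?_⟩
  · convert add_mem (Z_D h2) (D_In hy) using 1
    simp only [map_sub, D_D]
    abel
  · convert hy using 1
    rw [map_add]
    abel

end mv

section chart

variable (φ : OpenPartialHomeomorph Y Y') {A : Set Y} (hA : IsClosed A) (hs : A ⊆ φ.source)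
  (hA' : IsClosed (φ '' A))
include hs

lemma chart_maps : MapsTo φ (φ.source ∩ Aᶜ) (φ.target ∩ (φ '' A)ᶜ) := fun _ hx =>
  ⟨φ.map_source hx.1, fun ⟨_, hy, h⟩ => hx.2 (φ.injOn (hs hy) hx.1 h ▸ hy)⟩

omit hs in
lemma chart_maps' : MapsTo φ.symm (φ.target ∩ (φ '' A)ᶜ) (φ.source ∩ Aᶜ) := fun _ hx =>
  ⟨φ.map_target hx.1, fun h => hx.2 ⟨_, h, φ.right_inv hx.1⟩⟩

lemma chart_Z (hc : c ∈ Z R φ.source (φ.source ∩ Aᶜ) n) :
    map φ c ∈ Z R φ.target (φ.target ∩ (φ '' A)ᶜ) n :=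
  map_Z φ.continuousOn inter_subset_left φ.mapsTo (chart_maps φ hs) hc

include hA hA'

theorem chart_iff (hc : c ∈ Z R φ.source (φ.source ∩ Aᶜ) n) :
    c ∈ B R univ Aᶜ n ↔ map φ c ∈ B R univ (φ '' A)ᶜ n := by
  refine ⟨fun h => B_mono (subset_univ _) inter_subset_right (map_B φ.continuousOn
    inter_subset_left φ.mapsTo (chart_maps φ hs) (exc_inj φ.open_source hA.isOpen_compl
      (by rwa [← compl_subset_iff_union, compl_subset_compl]) hc h)), fun h => ?_⟩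
  have := map_B φ.continuousOn_symm inter_subset_left φ.mapsTo_symm (chart_maps' φ)
    (exc_inj φ.open_target hA'.isOpen_compl (by
      rw [← compl_subset_iff_union, compl_subset_compl]
      exact (φ.mapsTo.mono_left hs).image_subset) (chart_Z φ hs hc) h)
  rw [map_map φ.continuousOn hc.1, map_self (g := φ.symm ∘ φ) (fun x hx => φ.left_inv hx) hc.1]
    at this
  exact B_mono (subset_univ _) inter_subset_right this

omit hA in
theorem chart_surj {e : C R Y'} (he : e ∈ Z R univ (φ '' A)ᶜ n) :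
    ∃ c ∈ Z R φ.source (φ.source ∩ Aᶜ) n, e - map φ c ∈ B R univ (φ '' A)ᶜ n := by
  obtain ⟨e', h1, h2⟩ := exc_surj φ.open_target hA'.isOpen_compl (by
    rw [← compl_subset_iff_union, compl_subset_compl]
    exact (φ.mapsTo.mono_left hs).image_subset) he
  refine ⟨map φ.symm e', map_Z φ.continuousOn_symm inter_subset_left φ.mapsTo_symm
    (chart_maps' φ) h1, ?_⟩
  rwa [map_map φ.continuousOn_symm h1.1, 
    map_self (g := φ ∘ φ.symm) (fun x hx => φ.right_inv hx) h1.1]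

end chart

lemma exists_compact (hc : c ∈ In R U n) : ∃ K, IsCompact K ∧ K ⊆ U ∧ c ∈ In R K n :=
  ⟨⋃ s ∈ c.support, s.f '' Δ s.n, c.support.isCompact_biUnion fun s _ =>
    (isCompact_Δ _).image_of_continuousOn s.cont, iUnion₂_subset fun _ hs => (hc hs).2.image_subset,
    fun _ hs => ⟨(hc hs).1, fun t ht => mem_biUnion hs ⟨t, ht, rfl⟩⟩⟩

lemma In_empty (hc : c ∈ In R ∅ (n + 1)) : c = 0 := by
  by_contra h
  obtain ⟨s, hs⟩ := support_nonempty_iff.2 h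
  exact (hc hs).2 (single_mem_Δ (i := 0) (by rw [(hc hs).1]; omega))

end Pool.Agent.Shared.Sing
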