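import Pool.Agent.Shared.Sing.Prism

/-! Barycentric subdivision and small simplices. -/

set_option linter.unusedSectionVars false

namespace Pool.Agent.Shared.Sing

open Finsupp Set

variable {Y Y' : Type*} [TopologicalSpace Y] [Nonempty Y] [TopologicalSpace Y'] [Nonempty Y']
  {R : Type} [CommRing R]

noncomputable def bary (l : List V) : V :=
  aff l fun i => if i < l.length then (l.length : ℝ)⁻¹ else 0

lemma bary_mem {K : Set V} (hK : Convex ℝ K) {l : List V} (h0 : l ≠ []) (hl : ∀ x ∈ l, x ∈ K) :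
    bary l ∈ K := by
  refine aff_mem hK hl ⟨fun i => by positivity, fun i hi => if_neg (by omega), ?_⟩
  rw [Finset.sum_congr rfl fun i hi => if_pos (Finset.mem_range.1 hi)]
  simp [h0]

lemma bary_map (φ : V →ₗ[ℝ] V) (l : List V) : bary (l.map φ) = φ (bary l) := by
  simp [bary, aff_map]

variable (R) in
noncomputable def sdL : List V → Ch R V := zig (single [] 1) (fun l => cone (bary l)) 0 1

variable (R) in
noncomputable def tL : List V → Ch R V :=
  zig 0 (fun l => cone (bary l)) (fun l => single l 1 - sdL R l) (-1)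

lemma bd_sdL (l : List V) : bd (sdL R l) = lc (sdL R) (bdL R l) := by
  simpa [sdL] using zig_spec (b := single [] 1) (h := fun l => cone (R := R) (bary l)) (A := 0) (s := 1)
    bd (fun l _ x => bd_cone _ x) (fun l => by simp) (by simp [bdL]) l

lemma bd_tL (l : List V) : bd (tL R l) = single l 1 - sdL R l - lc (tL R) (bdL R l) := by
  have := zig_spec (b := 0) (h := fun l => cone (R := R) (bary l))
    (A := fun l => single l 1 - sdL R l) (s := -1) bd (fun l _ x => bd_cone _ x) (fun l => ?_)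
    (by simp [sdL, zig_nil]) l
  · rwa [neg_one_smul, ← sub_eq_add_neg] at this
  rw [map_sub, bd_single, bd_sdL, neg_one_smul, ← sub_eq_add_neg, sub_eq_zero]
  exact map_eq (F := LinearMap.id - lc (sdL R)) (G := lc fun l => single l 1 - sdL R l)
    (fun m _ => by simp) (mem_top (bdL R l))

lemma lmap_sdL (φ : V →ₗ[ℝ] V) (l : List V) : lmap φ (sdL R l) = sdL R (l.map φ) :=
  zig_nat φ _ (fun l _ x => by rw [lmap_cone, bary_map]) (fun l => map_zero _) (by simp) l

lemma lmap_tL (φ : V →ₗ[ℝ] V) (l : List V) : lmap φ (tL R l) = tL R (l.map φ) :=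
  zig_nat φ _ (fun l _ x => by rw [lmap_cone, bary_map]) (fun l => by simp [lmap_sdL])
    (map_zero _) l

lemma sdL_Lin {K : Set V} (hK : Convex ℝ K) {l : List V} (hl : ∀ x ∈ l, x ∈ K) :
    sdL R l ∈ Lin R K l.length := by
  have := zig_mem (b := single [] 1) (h := fun l => cone (R := R) (bary l)) (A := 0) (s := 1)
    (fun l => ⨅ _ : ∀ x ∈ l, x ∈ K, Lin R K l.length)
    (fun l => ⨅ _ : ∀ x ∈ l, x ∈ K, Lin R K (l.length - 1))
    ((Submodule.mem_iInf _).2 fun h => single_mem ⟨rfl, h⟩) (fun l _ => zero_mem _)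
    (fun l hl x hx => (Submodule.mem_iInf _).2 fun h => by
      have := cone_Lin (bary_mem hK hl h) ((Submodule.mem_iInf _).1 hx h)
      rwa [Nat.sub_add_cancel (List.length_pos_iff.2 hl)] at this)
    (fun l m h1 h2 => le_iInf fun h => iInf_le_of_le (fun x hx => h x (h2 x hx))
      (by rw [← h1]; rfl)) l
  exact (Submodule.mem_iInf _).1 this hl

lemma tL_Lin {K : Set V} (hK : Convex ℝ K) {l : List V} (hl : ∀ x ∈ l, x ∈ K) :
    tL R l ∈ Lin R K (l.length + 1) := by
  have := zig_mem (b := 0) (h := fun l => cone (R := R) (bary l))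
    (A := fun l => single l 1 - sdL R l) (s := -1)
    (fun l => ⨅ _ : ∀ x ∈ l, x ∈ K, Lin R K (l.length + 1))
    (fun l => ⨅ _ : ∀ x ∈ l, x ∈ K, Lin R K l.length) (zero_mem _)
    (fun l _ => (Submodule.mem_iInf _).2 fun h => sub_mem (single_mem ⟨rfl, h⟩) (sdL_Lin hK h))
    (fun l hl x hx => (Submodule.mem_iInf _).2 fun h =>
      cone_Lin (bary_mem hK hl h) ((Submodule.mem_iInf _).1 hx h))
    (fun l m h1 h2 => le_iInf fun h => iInf_le_of_le (fun x hx => h x (h2 x hx)) (by rw [h1])) l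
  exact (Submodule.mem_iInf _).1 this hl

/-- All coordinates vary by at most `δ` on the list. -/
def Dm (δ : ℝ) (l : List V) : Prop := ∀ v ∈ l, ∀ w ∈ l, ∀ j, |v j - w j| ≤ δ

lemma convex_box (x : V) (δ : ℝ) : Convex ℝ {y : V | ∀ j, |y j - x j| ≤ δ} := by
  simp only [ofPred_forall]
  exact convex_iInter fun j =>
    (convex_closedBall (x j) δ).linear_preimage (LinearMap.proj j : V →ₗ[ℝ] ℝ)

lemma bary_near {N : ℕ} {δ : ℝ} (hδ : 0 ≤ δ) {l : List V} (hN : l.length ≤ N) (h : Dm δ l) {v : V}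
    (hv : v ∈ l) (j : ℕ) : |v j - bary l j| ≤ (1 - (N : ℝ)⁻¹) * δ := by
  obtain ⟨i0, hi, rfl⟩ := List.getElem_of_mem hv
  have h0 : (0 : ℝ) < l.length := by exact_mod_cast (by omega : 0 < l.length)
  have h1 : l[i0] j - bary l j =
      ∑ i ∈ Finset.range l.length, (l.length : ℝ)⁻¹ * (l[i0] j - l.getD i 0 j) := by
    rw [bary, aff_apply, Finset.sum_apply, Finset.sum_congr rfl fun i hi => by
      rw [if_pos (Finset.mem_range.1 hi)]]
    simp [mul_sub, Finset.sum_sub_distrib, h0.ne']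
  rw [h1, ← Finset.sum_erase _ (a := i0) (by simp [hi])]
  refine (Finset.abs_sum_le_sum_abs _ _).trans ((Finset.sum_le_card_nsmul _ _
    ((l.length : ℝ)⁻¹ * δ) fun i hi => ?_).trans ?_)
  · rw [abs_mul, abs_of_pos (inv_pos.2 h0), List.getD_eq_getElem _ _ (by simp at hi; omega)]
    exact mul_le_mul_of_nonneg_left (h _ hv _ (List.getElem_mem _) j) (by positivity)
  · rw [Finset.card_erase_of_mem (by simpa using hi), Finset.card_range, nsmul_eq_mul,
      Nat.cast_pred (by omega), ← mul_assoc, sub_mul, mul_inv_cancel₀ h0.ne', one_mul]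
    gcongr

lemma sdL_Dm {N : ℕ} {δ : ℝ} (hδ : 0 ≤ δ) {l : List V} (hN : l.length ≤ N) (h : Dm δ l)
    (hq : 0 ≤ 1 - (N : ℝ)⁻¹) : sdL R l ∈ supported R R {m | Dm ((1 - (N : ℝ)⁻¹) * δ) m} := by
  let S : List V → Submodule R (Ch R V) := fun l => ⨅ _ : l.length ≤ N ∧ Dm δ l,
    supported R R {m | Dm ((1 - (N : ℝ)⁻¹) * δ) m ∧ ∀ x ∈ m, x ∈ convexHull ℝ {y | y ∈ l}}
  have := zig_mem (b := single [] 1) (h := fun l => cone (R := R) (bary l)) (A := 0) (s := 1) S S
    ((Submodule.mem_iInf _).2 fun h => single_mem ⟨by simp [Dm], by simp⟩) (fun l _ => zero_mem _)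
    (fun l hl x hx => (Submodule.mem_iInf _).2 fun h => map_mem (fun m hm => by
      rw [cone_single]
      have h1 : ∀ x ∈ m, ∀ j, |x j - bary l j| ≤ (1 - (N : ℝ)⁻¹) * δ := fun x hx =>
        convexHull_min (fun v hv => bary_near hδ h.1 h.2 hv) (convex_box _ _) (hm.2 x hx)
      refine single_mem ⟨fun v hv w hw j => ?_, fun x hx => ?_⟩
      · rcases List.mem_cons.1 hv with rfl | hv <;> rcases List.mem_cons.1 hw with rfl | hw
        · simpa using mul_nonneg hq hδ
        · rw [abs_sub_comm]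
          exact h1 w hw j
        · exact h1 v hv j
        · exact hm.1 v hv w hw j
      · rcases List.mem_cons.1 hx with rfl | hx
        · exact bary_mem (convex_convexHull _ _) hl fun x hx => subset_convexHull _ _ hx
        · exact hm.2 x hx) ((Submodule.mem_iInf _).1 hx h))
    (fun l m h1 h2 => le_iInf fun h => iInf_le_of_le
      ⟨by omega, fun v hv w hw => h.2 v (h2 v hv) w (h2 w hw)⟩
      (supported_mono fun _ hx => ⟨hx.1, fun x hx' => convexHull_mono h2 (hx.2 x hx')⟩)) l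
  exact supported_mono (fun _ hx => hx.1) ((Submodule.mem_iInf _).1 this ⟨hN, h⟩)

lemma sdL_std (n : ℕ) : sdL R (std n) ∈ Lin R (Δ n) (id n) := by
  simpa using sdL_Lin (R := R) (convex_Δ n) std_mem

lemma tL_std (n : ℕ) : tL R (std n) ∈ Lin R (Δ n) (n + 1) := by
  simpa using tL_Lin (R := R) (convex_Δ n) std_mem

/-- Barycentric subdivision. -/
noncomputable def sd : C R Y →ₗ[R] C R Y := op (sdL R)

lemma sd_In {A : Set Y} {n : ℕ} {c : C R Y} (hc : c ∈ In R A n) (m : ℕ) :
    (sd ^ m) c ∈ In R A n := by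
  induction m with
  | zero => exact hc
  | succ m ih => rw [pow_succ']; exact op_In sdL_std ih

lemma D_sd (m : ℕ) (c : C R Y) : D ((sd ^ m) c) = (sd ^ m) (D c) := by
  have : ∀ c : C R Y, D (sd c) = sd (D c) := fun c =>
    map_eq (F := D ∘ₗ sd) (G := sd ∘ₗ D) (fun s _ => by
      simp only [LinearMap.comp_apply, D_single, sd, op_single]
      rw [D_real (convex_Δ _) s.cont (sdL_std _), bd_sdL,
        op_real sdL_std (convex_Δ _) s.cont lmap_sdL (bdL_std _)]) (mem_top c)
  induction m with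
  | zero => rfl
  | succ m ih => rw [pow_succ', Module.End.mul_apply, this, ih, Module.End.mul_apply]

lemma map_sd {g : Y → Y'} {A : Set Y} (hg : ContinuousOn g A) {n : ℕ} {c : C R Y}
    (hc : c ∈ In R A n) (m : ℕ) : map g ((sd ^ m) c) = (sd ^ m) (map g c) := by
  induction m with
  | zero => rfl
  | succ m ih =>
    rw [pow_succ', pow_succ', Module.End.mul_apply, Module.End.mul_apply, ← ih]
    exact map_op sdL_std hg (sd_In hc m)

theorem exists_T (m : ℕ) : ∃ T : C R Y →ₗ[R] C R Y,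
    (∀ A n, ∀ c ∈ In R A n, T c ∈ In R A (n + 1)) ∧ ∀ c, D (T c) + T (D c) = c - (sd ^ m) c := by
  induction m with
  | zero => exact ⟨0, fun _ _ _ _ => zero_mem _, fun c => by simp⟩
  | succ m ih =>
    obtain ⟨T, h1, h2⟩ := ih
    have h3 : ∀ c : C R Y, D (op (tL R) c) + op (tL R) (D c) = c - sd c := fun c =>
      map_eq (F := D ∘ₗ op (tL R) + op (tL R) ∘ₗ D) (G := LinearMap.id - sd) (fun s _ => by
        simp only [LinearMap.comp_apply, LinearMap.add_apply, LinearMap.sub_apply, D_single, sd,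
          op_single, LinearMap.id_apply]
        rw [D_real (convex_Δ _) s.cont (tL_std _), bd_tL,
          op_real tL_std (convex_Δ _) s.cont lmap_tL (bdL_std _), map_sub, map_sub, real_std,
          sub_add_cancel]) (mem_top c)
    refine ⟨T + op (tL R) ∘ₗ (sd ^ m), fun A n c hc => add_mem (h1 A n c hc)
      (op_In tL_std (sd_In hc m)), fun c => ?_⟩
    have h4 := h3 ((sd ^ m) c)
    simp only [LinearMap.add_apply, LinearMap.comp_apply, map_add, pow_succ', Module.End.mul_apply,
      ← D_sd]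
    linear_combination (norm := abel1) h2 c + h4

lemma lebesgue {ι : Type*} {U : ι → Set Y} (hU : ∀ i, IsOpen (U i)) (s : Sx Y)
    (hs : MapsTo s.f (Δ s.n) (⋃ i, U i)) : ∃ δ > 0, ∀ x ∈ Δ s.n, ∃ i, ∀ y ∈ Δ s.n,
      (∀ j, |y j - x j| ≤ δ) → s.f y ∈ U i := by
  let r : V → Fin s.n → ℝ := fun t i => t i
  let e : (Fin s.n → ℝ) → V := fun u i => if h : i < s.n then u ⟨i, h⟩ else 0
  have he : Continuous e := continuous_pi fun i => by
    by_cases h : i < s.n <;> simp only [e, h, dite_true, dite_false] <;> fun_prop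
  have her : ∀ t ∈ Δ s.n, e (r t) = t := fun t ht => funext fun i => by
    by_cases h : i < s.n <;> simp [e, r, h]
    exact (ht.2.1 i (by omega)).symm
  choose W hW hWU using fun i => continuousOn_iff'.1 s.cont (U i) (hU i)
  obtain ⟨δ, hδ, h⟩ := lebesgue_number_lemma_of_metric
    ((isCompact_Δ s.n).image (f := r) (by fun_prop)) (fun i => (hW i).preimage he) (by
      rintro _ ⟨t, ht, rfl⟩
      obtain ⟨i, hi⟩ := mem_iUnion.1 (hs ht)
      exact mem_iUnion.2 ⟨i, by rw [mem_preimage, her t ht]; exact ((hWU i).subset ⟨hi, ht⟩).1⟩)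
  refine ⟨δ / 2, by positivity, fun x hx => (h _ ⟨x, hx, rfl⟩).imp fun i hi y hy hyx => ?_⟩
  have := hi (a := r y) ((dist_pi_lt_iff hδ).2 fun j => (hyx j).trans_lt (by linarith))
  rw [mem_preimage, her y hy] at this
  exact ((hWU i).superset ⟨this, hy⟩).1

/-- Iterated subdivision makes a chain small. -/
theorem small {ι : Type*} [Nonempty ι] {U : ι → Set Y} (hU : ∀ i, IsOpen (U i)) {n : ℕ}
    {c : C R Y} (hc : c ∈ In R (⋃ i, U i) n) :
    ∀ᶠ m in Filter.atTop, (sd ^ m) c ∈ ⨆ i, In R (U i) n := by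
  let S : Submodule R (C R Y) :=
    { carrier := {c | ∀ᶠ m in Filter.atTop, (sd ^ m) c ∈ ⨆ i, In R (U i) n}
      add_mem' := fun h h' => (h.and h').mono fun m hm => by
        rw [map_add]; exact add_mem hm.1 hm.2
      zero_mem' := by simp
      smul_mem' := fun r _ h => h.mono fun m hm => by
        rw [map_smul]; exact Submodule.smul_mem _ _ hm }
  refine map_mem (F := LinearMap.id) (P := S) (fun s hs => ?_) hc
  obtain ⟨δ, hδ, h⟩ := lebesgue hU s hs.2
  obtain ⟨rfl, -⟩ := hs
  have hq : 0 ≤ 1 - ((s.n + 1 : ℕ) : ℝ)⁻¹ := sub_nonneg.2 (inv_le_one_of_one_le₀ (by simp))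
  have h1 : ∀ m : ℕ, ∃ a ∈ Lin R (Δ s.n) s.n ⊓ supported R R
      {l | Dm ((1 - ((s.n + 1 : ℕ) : ℝ)⁻¹) ^ m) l}, (sd ^ m) (single s 1) = real s.f a := by
    intro m
    induction m with
    | zero =>
      refine ⟨single (std s.n) 1, ⟨single_mem ⟨by simp, std_mem⟩, single_mem fun v hv w hw j => ?_⟩,
        (real_std s).symm⟩
      have := (std_mem v hv).1 j
      have := (std_mem w hw).1 j
      have := Δ_le (std_mem v hv) j
      have := Δ_le (std_mem w hw) j
      rw [pow_zero, abs_le]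
      constructor <;> linarith
    | succ m ih =>
      obtain ⟨a, ha, h2⟩ := ih
      refine ⟨lc (sdL R) a, ?_, ?_⟩
      · rw [Lin, ← supported_inter] at ha
        refine map_mem (fun l hl => Submodule.mem_inf.2 ⟨?_, ?_⟩) ha <;>
          rw [linearCombination_single, one_smul]
        · have := sdL_Lin (R := R) (convex_Δ s.n) hl.1.2
          rwa [hl.1.1] at this
        · rw [pow_succ']
          exact sdL_Dm (by positivity) (hl.1.1.le.trans (Nat.le_succ _)) hl.2 hq
      · rw [pow_succ', Module.End.mul_apply, h2]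
        exact op_real sdL_std (convex_Δ _) s.cont lmap_sdL ha.1
  refine ((tendsto_pow_atTop_nhds_zero_of_lt_one hq (sub_lt_self _ (by positivity))).eventually
    (ge_mem_nhds hδ)).mono fun m hm => ?_
  obtain ⟨a, ha, h2⟩ := h1 m
  rw [LinearMap.id_apply, h2]
  rw [Lin, ← supported_inter] at ha
  refine map_mem (fun l hl => ?_) ha
  rcases l with _ | ⟨x, l⟩
  · refine Submodule.mem_iSup_of_mem (Classical.arbitrary ι) ?_
    rw [real_single]
    exact single_mem ⟨hl.1.1, fun t ht => by simp [Δ_zero] at ht⟩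
  obtain ⟨i, hi⟩ := h x (hl.1.2 x (by simp))
  refine Submodule.mem_iSup_of_mem i (real_In ((convex_Δ s.n).inter (convex_box x δ))
    (s.cont.mono inter_subset_left) (fun y hy => hi y hy.1 hy.2) (single_mem ⟨hl.1.1, fun y hy =>
      ⟨hl.1.2 y hy, fun j => (hl.2 y hy x (by simp) j).trans hm⟩⟩))

theorem small₂ {U U' : Set Y} (hU : IsOpen U) (hU' : IsOpen U') {n : ℕ} {c : C R Y}
    (hc : c ∈ In R (U ∪ U') n) : ∀ᶠ m in Filter.atTop, (sd ^ m) c ∈ In R U n ⊔ In R U' n := by
  have := small (U := fun b => cond b U U') (by rintro (_ | _) <;> assumption)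
    (c := c) (n := n) (by rwa [← union_eq_iUnion])
  simpa only [iSup_bool_eq, cond] using this

end Pool.Agent.Shared.Sing
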