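import Pool.Agent.Shared.Sing.Orient

/-! The Thom class of the diagonal of a closed manifold over a field. -/

set_option linter.unusedSectionVars false

namespace Pool.Agent.Shared.Sing

open Finsupp Set Topology

variable {M : Type*} [TopologicalSpace M] [Nonempty M] {F : Type} [Field F]

variable (M) in
/-- The complement of the diagonal. -/
def Off : Set (M × M) := {p | p.1 ≠ p.2}

/-- Points times a fixed chain. -/
noncomputable def ptx (μ : C F M) : (M →₀ F) →ₗ[F] C F (M × M) := lc fun x => map (Prod.mk x) μ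

/-- The Thom isomorphism in low degrees over `V`. -/
structure TP (μ : C F M) (n : ℕ) (V : Set M) : Prop where
  low : ∀ k < n, Z F (Prod.fst ⁻¹' V) (Prod.fst ⁻¹' V ∩ Off M) k ≤
    B F (Prod.fst ⁻¹' V) (Prod.fst ⁻¹' V ∩ Off M) k
  gen : ∀ c ∈ Z F (Prod.fst ⁻¹' V) (Prod.fst ⁻¹' V ∩ Off M) n, ∃ e ∈ supported F F V,
    c - ptx μ e ∈ B F (Prod.fst ⁻¹' V) (Prod.fst ⁻¹' V ∩ Off M) n
  inj : ∀ e ∈ supported F F V, ptx μ e ∈ B F (Prod.fst ⁻¹' V) (Prod.fst ⁻¹' V ∩ Off M) n →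
    lc (fun _ => (1 : F)) e = 0

variable {μ : C F M} {n : ℕ} {V V' : Set M}

lemma ptx_Z (hμ : μ ∈ Z F univ ∅ n) {e : M →₀ F} (he : e ∈ supported F F V) (W : Set (M × M)) :
    ptx μ e ∈ Z F (Prod.fst ⁻¹' V) W n :=
  map_mem (fun x hx => by
    simpa [ptx] using map_Z (g := Prod.mk x) (O' := Prod.fst ⁻¹' V) (W := W) (by fun_prop)
      (empty_subset _) (fun _ _ => hx) (mapsTo_empty _ _) hμ) he

lemma TP.empty : TP μ n ∅ :=
  ⟨fun _ _ _ hc => In_empty hc.1 ▸ zero_mem _, fun _ hc => ⟨0, zero_mem _, by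
    simp [In_empty hc.1]⟩, fun e he _ => by simp [show e = 0 by simpa using he]⟩

variable [T2Space M]

lemma isOpen_Off : IsOpen (Off M) := isOpen_ne_fun continuous_fst continuous_snd

lemma TP.union (hμ : μ ∈ Z F univ ∅ n) (hV : IsOpen V) (hV' : IsOpen V') (h : TP μ n V)
    (h' : TP μ n V') (h0 : TP μ n (V ∩ V')) : TP μ n (V ∪ V') := by
  have o1 := hV.preimage (continuous_fst (Y := M))
  have o2 := hV'.preimage (continuous_fst (Y := M))
  have m1 : ∀ k, B F (Prod.fst ⁻¹' V) (Prod.fst ⁻¹' V ∩ Off M) k ≤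
      B F (Prod.fst ⁻¹' (V ∪ V')) (Prod.fst ⁻¹' (V ∪ V') ∩ Off M) k := fun k =>
    B_mono subset_union_left (inter_subset_inter_left _ subset_union_left)
  have m2 : ∀ k, B F (Prod.fst ⁻¹' V') (Prod.fst ⁻¹' V' ∩ Off M) k ≤
      B F (Prod.fst ⁻¹' (V ∪ V')) (Prod.fst ⁻¹' (V ∪ V') ∩ Off M) k := fun k =>
    B_mono subset_union_right (inter_subset_inter_left _ subset_union_right)
  refine ⟨fun k hk c hc => ?_, fun c hc => ?_, fun e he h1 => ?_⟩
  · obtain ⟨a, ha, b, hb, h1⟩ := mv_surj o1 o2 isOpen_Off (fun j hj => h0.low j (by omega)) hc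
    exact (congr_B h1).2 (add_mem (m1 k (h.low k hk ha)) (m2 k (h'.low k hk hb)))
  · obtain ⟨a, ha, b, hb, h1⟩ := mv_surj o1 o2 isOpen_Off (fun j hj => h0.low j (by omega)) hc
    obtain ⟨e, e1, e2⟩ := h.gen a ha
    obtain ⟨e', e3, e4⟩ := h'.gen b hb
    refine ⟨e + e', add_mem (supported_mono subset_union_left e1)
      (supported_mono subset_union_right e3), ?_⟩
    rw [← preimage_union] at h1
    convert add_mem h1 (add_mem (m1 n e2) (m2 n e4)) using 1
    rw [map_add]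
    abel
  · rw [supported_union] at he
    obtain ⟨e, e1, e', e2, rfl⟩ := Submodule.mem_sup.1 he
    obtain ⟨q, hq, q1, q2⟩ := mv_mid o1 o2 isOpen_Off (ptx_Z hμ e1 _) (ptx_Z hμ e2 _)
      (map_add (ptx μ) e e' ▸ h1)
    obtain ⟨e0, e3, e4⟩ := h0.gen q hq
    have a1 := h.inj (e - e0) (sub_mem e1 (supported_mono inter_subset_left e3)) (by
      convert add_mem q1 (B_mono inter_subset_left
        (inter_subset_inter_left _ inter_subset_left) e4) using 1
      rw [map_sub]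
      abel)
    have a2 := h'.inj (e' + e0) (add_mem e2 (supported_mono inter_subset_right e3)) (by
      convert sub_mem q2 (B_mono inter_subset_right
        (inter_subset_inter_left _ inter_subset_right) e4) using 1
      rw [map_add]
      abel)
    rw [map_sub] at a1
    rw [map_add] at a2 ⊢
    linear_combination a1 + a2

lemma TP.of_compact (hμ : μ ∈ Z F univ ∅ n)
    (h : ∀ K, IsCompact K → K ⊆ V → ∃ V', K ⊆ V' ∧ V' ⊆ V ∧ TP μ n V') :
    TP μ n V := by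
  have key : ∀ {k} {c : C F (M × M)} {e : M →₀ F}, c ∈ In F (Prod.fst ⁻¹' V) k →
      e ∈ supported F F V → ∃ V' ⊆ V, TP μ n V' ∧ c ∈ In F (Prod.fst ⁻¹' V') k ∧
        e ∈ supported F F V' := fun {k c e} hc he => by
    obtain ⟨L, hL, h1, h2⟩ := exists_compact hc
    obtain ⟨V', h3, h4, h5⟩ := h (Prod.fst '' L ∪ e.support) ((hL.image continuous_fst).union
      e.support.finite_toSet.isCompact) (union_subset (image_subset_iff.2 h1) he)
    exact ⟨V', h4, h5, In_mono (image_subset_iff.1 (subset_union_left.trans h3)) _ h2,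
      subset_union_right.trans h3⟩
  have m : ∀ {V'} k, V' ⊆ V → B F (Prod.fst ⁻¹' V') (Prod.fst ⁻¹' V' ∩ Off M) k ≤
      B F (Prod.fst ⁻¹' V) (Prod.fst ⁻¹' V ∩ Off M) k := fun k h =>
    B_mono (preimage_mono h) (inter_subset_inter_left _ (preimage_mono h))
  refine ⟨fun k hk c hc => ?_, fun c hc => ?_, fun e he h1 => ?_⟩
  · obtain ⟨V', h1, h2, h3, -⟩ := key hc.1 (zero_mem _)
    exact m k h1 (h2.low k hk ⟨h3, In_inter (D_In h3) (In_mono inter_subset_right _ hc.2)⟩)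
  · obtain ⟨V', h1, h2, h3, -⟩ := key hc.1 (zero_mem _)
    obtain ⟨e, e1, e2⟩ := h2.gen c ⟨h3, In_inter (D_In h3) (In_mono inter_subset_right _ hc.2)⟩
    exact ⟨e, supported_mono h1 e1, m n h1 e2⟩
  · obtain ⟨w, hw, hv⟩ := mem_B h1
    obtain ⟨V', h1, h2, h3, h4⟩ := key hw he
    exact h2.inj e h4 (B_of h3 (In_inter (sub_mem (ptx_Z hμ h4 ∅).1 (D_In h3))
      (In_mono inter_subset_right _ hv)))

variable {ι : Type*} [Fintype ι]

lemma TP.base (hM : LocEuc ι M) (hμ : μ ∈ Z F univ ∅ (Fintype.card ι))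
    (h0 : ∀ x, μ ∉ B F univ {x}ᶜ (Fintype.card ι)) (φ : OpenPartialHomeomorph M (ι → ℝ))
    (ht : φ.target = univ) {K : Set (ι → ℝ)} (hK : Convex ℝ K) (hK' : IsOpen K) :
    TP μ (Fintype.card ι) (φ.source ∩ φ ⁻¹' K) := by
  rcases (φ.source ∩ φ ⁻¹' K).eq_empty_or_nonempty with h | ⟨x₀, hx⟩
  · exact h ▸ TP.empty
  generalize hV : φ.source ∩ φ ⁻¹' K = V at hx ⊢
  have v0 : IsOpen V := hV ▸ φ.isOpen_inter_preimage hK'
  have v1 : V ⊆ φ.source := hV ▸ inter_subset_left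
  have s1 : Continuous φ.symm := continuousOn_univ.1 (ht ▸ φ.continuousOn_symm)
  have s2 : ∀ y, φ (φ.symm y) = y := fun y => φ.right_inv (ht ▸ trivial)
  have s3 : ∀ y, φ.symm y ∈ φ.source := fun y => φ.map_target (ht ▸ trivial)
  let g : M × ℝ → M := fun q => φ.symm ((1 - q.2) • φ q.1 + q.2 • φ x₀)
  have g1 : ContinuousOn g (V ×ˢ Icc 0 1) := by
    have : ContinuousOn (fun q : M × ℝ => φ q.1) (V ×ˢ Icc 0 1) :=
      φ.continuousOn.comp continuousOn_fst fun _ h => v1 h.1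
    exact s1.comp_continuousOn (((continuousOn_const.sub continuousOn_snd).smul this).add
      (by fun_prop))
  have g2 : MapsTo g (V ×ˢ Icc 0 1) V := fun q hq => by
    subst hV
    refine ⟨s3 _, ?_⟩
    rw [mem_preimage, s2]
    exact hK hq.1.2 hx.2 (sub_nonneg.2 hq.2.2) hq.2.1 (by simp)
  let A : Set (M × M) := V ×ˢ φ.source
  have a0 : IsOpen A := v0.prod φ.open_source
  have a1 : A ∪ Prod.fst ⁻¹' V ∩ Off M = Prod.fst ⁻¹' V :=
    subset_antisymm (union_subset (fun _ h => h.1) inter_subset_left) fun q hq =>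
      (em (q.1 = q.2)).elim (fun h => Or.inl ⟨hq, h ▸ v1 hq⟩) fun h => Or.inr ⟨hq, h⟩
  have a2 := (v0.preimage (continuous_fst (Y := M))).inter isOpen_Off
  let H : (M × M) × ℝ → M × M := fun q =>
    (g (q.1.1, q.2), φ.symm (φ q.1.2 - q.2 • φ q.1.1 + q.2 • φ x₀))
  have c1 : ContinuousOn (fun q : M × M => φ q.1) A :=
    φ.continuousOn.comp continuousOn_fst fun _ h => v1 h.1
  have c2 : ContinuousOn (fun q : M × M => φ q.2) A :=
    φ.continuousOn.comp continuousOn_snd fun _ h => h.2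
  have H1 : ContinuousOn H (A ×ˢ Icc 0 1) := by
    have d1 := c1.comp (continuousOn_fst (β := ℝ)) (s := A ×ˢ Icc 0 1) fun _ h => h.1
    have d2 := c2.comp (continuousOn_fst (β := ℝ)) (s := A ×ˢ Icc 0 1) fun _ h => h.1
    exact (g1.comp (by fun_prop) fun _ h => ⟨h.1.1, h.2⟩).prodMk (s1.comp_continuousOn
      ((d2.sub (continuousOn_snd.smul d1)).add (by fun_prop)))
  let d : M × M → M := fun q => φ.symm (φ q.2 - φ q.1 + φ x₀)
  have d1 : ContinuousOn d A := s1.comp_continuousOn ((c2.sub c1).add continuousOn_const)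
  have d2 : MapsTo d (A ∩ (Prod.fst ⁻¹' V ∩ Off M)) {x₀}ᶜ := fun q hq h => hq.2.2 (by
    have := congrArg φ (show d q = x₀ from h)
    rw [s2, add_eq_right, sub_eq_zero] at this
    exact φ.injOn (v1 hq.1.1) hq.1.2 this.symm)
  have j1 : Continuous (Prod.mk x₀ : M → M × M) := by fun_prop
  have j2 : MapsTo (Prod.mk x₀) {x₀}ᶜ (Prod.fst ⁻¹' V ∩ Off M) := fun y hy => ⟨hx, Ne.symm hy⟩
  have j3 : MapsTo (Prod.mk x₀) univ (Prod.fst ⁻¹' V : Set (M × M)) := fun y _ => hx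
  have surj : ∀ k, ∀ c ∈ Z F (Prod.fst ⁻¹' V) (Prod.fst ⁻¹' V ∩ Off M) k, ∃ c' ∈ Z F univ {x₀}ᶜ k,
      c - map (Prod.mk x₀) c' ∈ B F (Prod.fst ⁻¹' V) (Prod.fst ⁻¹' V ∩ Off M) k := fun k c hc => by
    obtain ⟨c1, h1, h2⟩ := exc_surj' a0 a2 (by rwa [a1])
    rw [a1] at h2
    refine ⟨map d c1, map_Z d1 inter_subset_left (mapsTo_univ _ _) d2 h1, ?_⟩
    have h3 := htpy_B H1 inter_subset_left (A := Prod.fst ⁻¹' V) (A' := Prod.fst ⁻¹' V ∩ Off M)
      (fun q hq => g2 ⟨hq.1.1, hq.2⟩) (fun q hq => ⟨g2 ⟨hq.1.1.1, hq.2⟩, fun h => hq.1.2.2 (by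
        have := congrArg φ (show g (q.1.1, q.2) = φ.symm _ from h)
        rw [s2, s2, add_left_inj, sub_smul, one_smul, sub_left_inj] at this
        exact φ.injOn (v1 hq.1.1.1) hq.1.1.2 this)⟩) h1
    rw [map_self (g := fun y => H (y, 0)) (fun y hy => by
      simp [H, g, φ.left_inv (v1 hy.1), φ.left_inv hy.2]) h1.1,
      map_congr (g' := Prod.mk x₀ ∘ d) (fun y hy => by simp [H, g, d, φ.left_inv (v1 hx)]) h1.1,
      ← map_map d1 h1.1] at h3
    simpa using sub_mem h2 h3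
  have inj : ∀ k, ∀ c ∈ Z F univ {x₀}ᶜ k, map (Prod.mk x₀) c ∈
      B F (Prod.fst ⁻¹' V) (Prod.fst ⁻¹' V ∩ Off M) k → c ∈ B F univ {x₀}ᶜ k := fun k c hc h => by
    obtain ⟨a, ha, h3⟩ := exc_surj φ.open_source isOpen_compl_singleton
      (by simpa [← compl_subset_iff_union] using v1 hx) hc
    have h4 := map_B j1.continuousOn (subset_univ _) j3 j2 h3
    rw [map_sub] at h4
    have h5 := map_B d1 inter_subset_left (mapsTo_univ _ _) d2 (exc_inj' a0 a2
      (map_Z j1.continuousOn inter_subset_left (fun y hy => ⟨hx, hy⟩)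
        (fun y hy => ⟨⟨hx, hy.1⟩, j2 hy.2⟩) ha) (by rw [a1]; exact (congr_B h4).1 h))
    rw [map_map j1.continuousOn ha.1, map_self (g := d ∘ Prod.mk x₀) (fun y hy => by
      simp [d, φ.left_inv hy]) ha.1] at h5
    exact (congr_B h3).2 h5
  have hμ' := Z_mono le_rfl (empty_subset {x₀}ᶜ) hμ
  refine ⟨fun k hk c hc => ?_, fun c hc => ?_, fun e he h1 => ?_⟩
  · obtain ⟨c', h1, h2⟩ := surj k c hc
    exact (congr_B h2).2 (map_B j1.continuousOn (subset_univ _) j3 j2 (loc_low hM x₀ hk h1))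
  · obtain ⟨c', h1, h2⟩ := surj _ c hc
    obtain ⟨r, h3⟩ := loc_gen hM hμ' (h0 x₀) h1
    refine ⟨single x₀ r, single_mem_supported _ _ hx, ?_⟩
    simpa [ptx] using add_mem h2 (map_B j1.continuousOn (subset_univ _) j3 j2 h3)
  · have h2 : lc (fun _ => (1 : F)) e • map (Prod.mk x₀) μ - ptx μ e ∈
        B F (Prod.fst ⁻¹' V) (Prod.fst ⁻¹' V ∩ Off M) (Fintype.card ι) :=
      map_mem (F := (lc fun _ => (1 : F)).smulRight (map (Prod.mk x₀) μ) - ptx μ) (fun x hx' => by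
        have := htpy_B (H := fun q : M × ℝ => (g (x, q.2), q.1)) (A := Prod.fst ⁻¹' V)
          (A' := Prod.fst ⁻¹' V ∩ Off M) ((g1.comp (by fun_prop) fun _ h => ⟨hx', h.2⟩).prodMk
            continuousOn_fst) (empty_subset _) (fun _ h => g2 ⟨hx', h.2⟩) (fun _ h => h.1.elim) hμ
        simpa [ptx, g, φ.left_inv (v1 hx), φ.left_inv (v1 hx')] using this) he
    by_contra h3
    refine h0 x₀ ((Submodule.smul_mem_iff _ h3).1 (inj _ _ (Submodule.smul_mem _ _ hμ') ?_))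
    rw [map_smul]
    exact (congr_B h2).2 h1

theorem thom [CompactSpace M] (hM : LocEuc ι M) (hμ : μ ∈ Z F univ ∅ (Fintype.card ι))
    (h0 : ∀ x, μ ∉ B F univ {x}ᶜ (Fintype.card ι)) : TP μ (Fintype.card ι) univ := by
  classical
  have := isCompact_univ.induction_on (p := fun s : Set M => ∃ U, IsOpen U ∧ s ⊆ U ∧
    ∀ V, IsOpen V → V ⊆ U → TP μ (Fintype.card ι) V) ⟨∅, isOpen_empty, le_rfl, fun K _ h => by
      rw [subset_empty_iff.1 h]; exact TP.empty⟩
    (fun s t h ⟨U, h1, h2, h3⟩ => ⟨U, h1, h.trans h2, h3⟩) ?_ fun x _ => ?_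
  · obtain ⟨U, -, h2, h3⟩ := this
    exact h3 _ isOpen_univ h2
  · rintro s t ⟨U, h1, h2, h3⟩ ⟨U', h1', h2', h3'⟩
    refine ⟨U ∪ U', h1.union h1', union_subset_union h2 h2', fun V hV h => ?_⟩
    rw [← inter_eq_left.2 h, inter_union_distrib_left]
    exact (h3 _ (hV.inter h1) inter_subset_right).union hμ (hV.inter h1) (hV.inter h1')
      (h3' _ (hV.inter h1') inter_subset_right)
      (h3 _ ((hV.inter h1).inter (hV.inter h1')) fun _ h => h.1.2)
  obtain ⟨φ, hx, ht⟩ := exists_chart_univ hM x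
  refine ⟨_, mem_nhdsWithin_of_mem_nhds (φ.open_source.mem_nhds hx), _, φ.open_source, le_rfl,
    fun V hV h => TP.of_compact hμ fun K hK hKV => ?_⟩
  have key : ∀ (s : Finset M) (f : M → Set (ι → ℝ)), (∀ k, Convex ℝ (f k)) → (∀ k, IsOpen (f k)) →
      TP μ (Fintype.card ι) (φ.source ∩ φ ⁻¹' ⋃ k ∈ s, f k) := fun s => by
    induction s using Finset.induction_on with
    | empty => simpa using fun _ _ _ => TP.empty
    | insert a s _ ih =>
      intro f h1 h2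
      rw [Finset.set_biUnion_insert, preimage_union, inter_union_distrib_left]
      refine (TP.base hM hμ h0 φ ht (h1 a) (h2 a)).union hμ (φ.isOpen_inter_preimage (h2 a))
        (φ.isOpen_inter_preimage (isOpen_biUnion fun k _ => h2 k)) (ih f h1 h2) ?_
      rw [← inter_inter_distrib_left, ← preimage_inter, inter_iUnion₂]
      exact ih _ (fun k => (h1 a).inter (h1 k)) fun k => (h2 a).inter (h2 k)
  choose! ε hε hb using fun y (hy : y ∈ K) => Metric.isOpen_iff.1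
    (φ.isOpen_image_of_subset_source hV h) _ (mem_image_of_mem φ (hKV hy))
  obtain ⟨s, hs, h1⟩ := hK.elim_nhds_subcover (fun y => φ ⁻¹' Metric.ball (φ y) (ε y)) fun y hy =>
    (φ.continuousAt (h (hKV hy))).preimage_mem_nhds (Metric.ball_mem_nhds _ (hε y hy))
  refine ⟨φ.source ∩ φ ⁻¹' ⋃ k ∈ s, Metric.ball (φ k) (ε k),
    fun y hy => ⟨h (hKV hy), by simpa using h1 hy⟩, fun y hy => ?_, key s (fun y => Metric.ball (φ y) (ε y)) (fun _ => convex_ball _ _) fun _ => Metric.isOpen_ball⟩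
  obtain ⟨z, hz, h2⟩ := mem_iUnion₂.1 (show φ y ∈ _ from hy.2)
  obtain ⟨w, hw, e⟩ := hb z (hs z hz) h2
  exact φ.injOn (h hw) hy.1 e ▸ hw

/-- The Thom cocycle of the diagonal. -/
theorem exists_thom [CompactSpace M] (hM : LocEuc ι M) (hμ : μ ∈ Z F univ ∅ (Fintype.card ι))
    (h0 : ∀ x, μ ∉ B F univ {x}ᶜ (Fintype.card ι)) : ∃ τ : C F (M × M) →ₗ[F] F,
      Coc univ (Fintype.card ι) τ ∧ (∀ v ∈ In F (Off M) (Fintype.card ι + 1), τ v = 0) ∧
      ∀ x, τ (map (Prod.mk x) μ) = 1 := by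
  obtain ⟨b, hb⟩ := exists_factor ((B F univ (Off M) (Fintype.card ι)).mkQ ∘ₗ ptx μ) ⊤
    (lc fun _ => (1 : F)) fun e _ h => (thom hM hμ h0).inj e (mem_top e) (by simpa using h)
  refine ⟨b ∘ₗ Submodule.mkQ _, fun w hw => ?_, fun v hv => ?_, fun x => ?_⟩
  · rw [LinearMap.comp_apply, Submodule.mkQ_apply, (Submodule.Quotient.mk_eq_zero _).2
      (D_mem_B hw), map_zero]
  · rw [LinearMap.comp_apply, Submodule.mkQ_apply, (Submodule.Quotient.mk_eq_zero _).2
      (In_mem_B hv), map_zero]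
  · simpa [ptx] using (hb (single x 1) trivial).symm

end Pool.Agent.Shared.Sing
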